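import Pool.Agent.ShghPS.OneDG

/-!
# ShghPS/WinG: windows in all degrees from the windows `BandAt` of the strips (no alignment)
-/

namespace ShghPS

open MvPolynomial ShghJ ShghC ShghK

universe u

/-- WING: if the strips have windows `Θ` for this `R`, then the dimension is the expected one in
every degree with `|χ| ≥ R ^ 2 m + Θ`. -/
def S_WinG : Prop := ∀ (F : Type u) [Field F] [CharZero F] (R m s Θ : ℕ), BandAt F R m Θ →
  10 ^ 7 ≤ R → (R + 1) ^ 2 ≤ s → s < (R + 3) ^ 2 → Even (s + R) → 31 * s ≤ m →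
  200 * Θ ≤ m ^ 2 → ∀ d : ℕ, (R : ℤ) ^ 2 * m + Θ ≤ |(T (d + 1) : ℤ) - s * T m| →
  hF F d (Multiset.replicate s m) = T (d + 1) - s * T m

private theorem fbMono {a b : ℕ} (h : a ≤ b) : T a ≤ T b := by
  have h1 := two_T a
  have h2 := two_T b
  have h3 : a * (a + 1) ≤ b * (b + 1) := Nat.mul_le_mul h (by omega)
  omega

private theorem fbTwo (j : ℕ) : (2 : ℤ) * T j = j * (j + 1) := by
  have h := two_T j
  exact_mod_cast h

/-- `cap ≤ R ^ 2 m`. -/
private theorem fbCap (R m a r v : ℕ) (hR : 10 ^ 7 ≤ R) (hm : 30 * (R + 1) ^ 2 ≤ m)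
    (hra : r + a = R) (hv : v ≤ r * (m + 1) + a) :
    (a : ℤ) * v + 1 - T (a - 2) ≤ (R : ℤ) ^ 2 * m := by
  have hT0 : (0 : ℤ) ≤ T (a - 2) := Int.natCast_nonneg _
  have k1 : a * v + 1 ≤ R ^ 2 * m := by
    have a1 : a * v ≤ a * (r * (m + 1) + a) := Nat.mul_le_mul_left _ hv
    have a2 : 4 * (a * r) ≤ R ^ 2 := by
      have : (4 * (a * r) : ℤ) ≤ (R : ℤ) ^ 2 := by
        have hh : (r : ℤ) + a = R := by exact_mod_cast hra
        rw [← hh]
        nlinarith [sq_nonneg ((r : ℤ) - a)]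
      exact_mod_cast this
    have a3 : a * a ≤ R ^ 2 := by
      have : a ≤ R := by omega
      calc a * a ≤ R * R := Nat.mul_le_mul this this
        _ = R ^ 2 := by ring
    have a5 : 4 * (a * r) * (m + 1) ≤ R ^ 2 * (m + 1) := Nat.mul_le_mul_right _ a2
    have a7 : 4 * (a * (r * (m + 1) + a)) = 4 * (a * r) * (m + 1) + 4 * (a * a) := by ring
    have a8 : R ^ 2 * (m + 1) = R ^ 2 * m + R ^ 2 := by ring
    have a10 : (R + 1) ^ 2 = R ^ 2 + 2 * R + 1 := by ring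
    have a11 : 30 * R ^ 2 ≤ R ^ 2 * m := by
      calc 30 * R ^ 2 = R ^ 2 * 30 := by ring
        _ ≤ R ^ 2 * m := Nat.mul_le_mul_left _ (by omega)
    have a12 : 1 ≤ R ^ 2 := Nat.one_le_pow _ _ (by omega)
    omega
  have k2 : ((a * v + 1 : ℕ) : ℤ) ≤ ((R ^ 2 * m : ℕ) : ℤ) := by exact_mod_cast k1
  push_cast at k2
  linarith

private theorem fbCore (h1 : S_OneDG.{u}) (F : Type u) [Field F] [CharZero F]
    (R Θ m a r s e : ℕ) (hB : BandAt F R m Θ) (hR : 10 ^ 7 ≤ R) (hm : 30 * (R + 1) ^ 2 ≤ m) (ha1 : 4 * R ≤ 10 * a)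
    (ha2 : 10 * a ≤ 6 * R) (hra : r + a = R) (hs1 : (R + 1) ^ 2 ≤ s) (hs2 : s < (R + 3) ^ 2)
    (hae : Even a) (hsr : Even (s + r))
    (hT : r ^ 2 * T m ≤ T (e + 1)) (hb1 : 25 * ((T (e + 1) : ℤ) - s * T m) ≤ m ^ 2)
    (hb2 : -(m : ℤ) ^ 2 ≤ 25 * ((T (e + 1) : ℤ) - s * T m))
    (hw : (R : ℤ) ^ 2 * m + Θ ≤ |(T (e + 1) : ℤ) - s * T m|) :
    hF F e (Multiset.replicate s m) = T (e + 1) - s * T m := by
  classical
  have ha0 : 0 < a := by omega
  have hex : ∃ u, r ^ 2 * T m ≤ T (u + 1) := ⟨e, hT⟩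
  set uc := Nat.find hex with huc
  have hu1 : r ^ 2 * T m ≤ T (uc + 1) := Nat.find_spec hex
  have hu2 : uc ≤ e := Nat.find_min' hex hT
  have hu3 : T uc ≤ r ^ 2 * T m := by
    rcases Nat.eq_zero_or_pos uc with h | h
    · rw [h]
      exact Nat.zero_le _
    · have h2 := Nat.find_min hex (m := uc - 1) (by omega)
      rw [Nat.sub_add_cancel h] at h2
      omega
  have hu4 : uc ≤ r * (m + 1) := by
    by_contra hcon
    push Not at hcon
    have t1 := two_T uc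
    have t2 := two_T m
    have t3 : r * (m + 1) * (r * (m + 1)) < uc * uc := Nat.mul_lt_mul'' hcon hcon
    have t4 : r ^ 2 * (m * (m + 1)) ≤ r * (m + 1) * (r * (m + 1)) := by
      calc r ^ 2 * (m * (m + 1)) ≤ r ^ 2 * ((m + 1) * (m + 1)) :=
            Nat.mul_le_mul_left _ (Nat.mul_le_mul_right _ (by omega))
        _ = _ := by ring
    have t5 : uc * uc ≤ uc * (uc + 1) := Nat.mul_le_mul_left _ (by omega)
    have t6 : 2 * (r ^ 2 * T m) = r ^ 2 * (m * (m + 1)) := by rw [← t2]; ring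
    omega
  set v := uc + (e - uc) % a with hv
  have hlt : (e - uc) % a < a := Nat.mod_lt _ ha0
  have hve : v + a * ((e - uc) / a) = e := by
    have := Nat.mod_add_div (e - uc) a
    omega
  have hv1 : r ^ 2 * T m ≤ T (v + 1) := le_trans hu1 (fbMono (by omega))
  have hv2 : T (v + 1 - a) ≤ r ^ 2 * T m := le_trans (fbMono (by omega)) hu3
  have hcap := fbCap R m a r v hR hm hra (by omega)
  have key := h1 F R m Θ a r s v ((e - uc) / a) ((T (e + 1) : ℤ) - s * T m) hB hR hm ha1 ha2 hra hs1 hs2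
    hae hsr hv1 hv2 (by rw [hve]) hb1 hb2
  rw [hve] at key
  apply key
  rcases le_or_gt 0 ((T (e + 1) : ℤ) - s * T m) with h0 | h0
  · right
    left
    rw [abs_of_nonneg h0] at hw
    linarith
  · right
    right
    rw [abs_of_neg h0] at hw
    linarith

private theorem fbHmono (F : Type u) [Field F] [CharZero F] (A : Multiset ℕ) (e : ℕ) :
    hF F e A ≤ hF F (e + 1) A := by
  have h := (mStB F 1 (e + 1)).1 e A
  rw [Sf_one_eq_Trap (Nat.le_succ e), Sf_one_eq_Trap (le_refl (e + 1)), hN_tri mProj,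
    hN_tri mProj] at h
  exact h

private theorem fbHmono' (F : Type u) [Field F] [CharZero F] (A : Multiset ℕ) (e k : ℕ) :
    hF F e A ≤ hF F (e + k) A := by
  induction k with
  | zero => exact le_refl _
  | succ k ih => exact le_trans ih (fbHmono F A (e + k))

private theorem fbTT (s m : ℕ) : TT (Multiset.replicate s m) = s * T m := by
  unfold TT
  rw [Multiset.map_replicate, Multiset.sum_replicate, smul_eq_mul]

/-- Size of the window. -/
private theorem fbWin (R m s d Θ w : ℤ) (hRs : R ^ 2 ≤ s) (hm0 : 0 ≤ m)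
    (hms : 31 * s ≤ m) (hΘ : 200 * Θ ≤ m ^ 2) (hw : w = R ^ 2 * m + Θ)
    (hd : (d + 1) * 1000 ≤ m ^ 2) :
    25 * w + 25 * (d + 1) ≤ m ^ 2 := by
  have h3 : 31 * (R ^ 2 * m) ≤ m ^ 2 := by
    calc 31 * (R ^ 2 * m) = m * (31 * R ^ 2) := by ring
      _ ≤ m * m := mul_le_mul_of_nonneg_left (by linarith) hm0
      _ = m ^ 2 := by ring
  have h5 : 0 ≤ m ^ 2 := by positivity
  rw [hw]
  linarith

/-- A degree with small `χ` is small. -/
private theorem fbDeg (m s d : ℤ) (hm : 10 ^ 15 ≤ m) (hs0 : 0 ≤ s) (hd0 : 0 ≤ d)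
    (hms : 31 * s ≤ m) (hd : d * (d + 1) ≤ s * (m * (m + 1)) + m ^ 2) :
    (d + 3) * 1000 ≤ m ^ 2 := by
  by_contra hcon
  push Not at hcon
  have hm0 : 0 ≤ m := le_trans (by norm_num) hm
  have h6 : s * (m * (m + 1)) ≤ m * (m * (m + 1)) :=
    mul_le_mul_of_nonneg_right (by linarith) (by positivity)
  have h7 : (10 : ℤ) ^ 9 * m ≤ m ^ 2 := by
    calc (10 : ℤ) ^ 9 * m ≤ m * m := mul_le_mul_of_nonneg_right (by linarith) hm0
      _ = m ^ 2 := by ring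
  have h8 : (10 : ℤ) ^ 5 * m ≤ d := by linarith
  have h9 : (10 ^ 5 * m) * d ≤ d * (d + 1) := by
    calc (10 ^ 5 * m) * d ≤ d * d := mul_le_mul_of_nonneg_right h8 hd0
      _ ≤ d * (d + 1) := mul_le_mul_of_nonneg_left (by linarith) hd0
  have h10 : (10 ^ 5 * m) * (m ^ 2 - 3000) ≤ (10 ^ 5 * m) * d * 1000 := by
    calc (10 ^ 5 * m) * (m ^ 2 - 3000) ≤ (10 ^ 5 * m) * (d * 1000) :=
          mul_le_mul_of_nonneg_left (by linarith) (by positivity)
      _ = _ := by ring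
  have h11 : m * (m * (m + 1)) = m ^ 2 * m + m ^ 2 := by ring
  have h12 : (10 ^ 5 * m) * (m ^ 2 - 3000) = 10 ^ 5 * (m ^ 2 * m) - 3 * 10 ^ 8 * m := by ring
  have h13 : m ^ 2 * 10 ^ 9 ≤ m ^ 2 * m := mul_le_mul_of_nonneg_left (by linarith) (by positivity)
  have h14 : (0 : ℤ) < m ^ 2 := by positivity
  linarith

/-- The degree of the window, exact side. -/
private theorem fbPos (R m s Θ d : ℕ) (w : ℤ) (hR : (10 : ℤ) ^ 7 ≤ R) (hRs : (R : ℤ) ^ 2 ≤ s)
    (hm : (10 : ℤ) ^ 15 ≤ m) (hs : 1 ≤ s) (hms : (31 : ℤ) * s ≤ m)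
    (hΘ : 200 * (Θ : ℤ) ≤ (m : ℤ) ^ 2) (hw : w = (R : ℤ) ^ 2 * m + Θ)
    (h : w ≤ (T (d + 1) : ℤ) - s * T m) :
    ∃ e, e ≤ d ∧ w ≤ (T (e + 1) : ℤ) - s * T m ∧ 0 ≤ (T (e + 1) : ℤ) - s * T m ∧
      25 * ((T (e + 1) : ℤ) - s * T m) ≤ m ^ 2 := by
  classical
  have hR0 : (0 : ℤ) < R := lt_of_lt_of_le (by norm_num) hR
  have hm0 : (0 : ℤ) < m := lt_of_lt_of_le (by norm_num) hm
  have hΘ0 : (0 : ℤ) ≤ Θ := Int.natCast_nonneg _
  have hw0 : 0 < w := by rw [hw]; positivity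
  have hTm := fbTwo m
  have hex : ∃ e : ℕ, w ≤ (T (e + 1) : ℤ) - s * T m := ⟨d, h⟩
  obtain ⟨e, hspec, hmin⟩ : ∃ e : ℕ, w ≤ (T (e + 1) : ℤ) - s * T m ∧
      ∀ e', e' < e → ¬ w ≤ (T (e' + 1) : ℤ) - s * T m :=
    ⟨Nat.find hex, Nat.find_spec hex, fun e' he' => Nat.find_min hex he'⟩
  have hpos : 0 < (T (e + 1) : ℤ) - s * T m := lt_of_lt_of_le hw0 hspec
  refine ⟨e, ?_, hspec, hpos.le, ?_⟩
  · by_contra hcon
    push Not at hcon
    exact hmin d hcon h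
  have hsq : (1000 : ℤ) ≤ m ^ 2 := by
    have e3 : (10 : ℤ) ^ 15 * 1 ≤ m * m := mul_le_mul hm (by linarith) (by norm_num) hm0.le
    have e4 : (m : ℤ) * m = m ^ 2 := by ring
    linarith
  rcases Nat.eq_zero_or_pos e with he | he
  · rw [he]
    have e1 : (T (0 + 1) : ℤ) = 1 := rfl
    have e2 : (0 : ℤ) ≤ s * T m := by positivity
    rw [e1]
    linarith
  obtain ⟨e', rfl⟩ : ∃ e', e = e' + 1 := ⟨e - 1, by omega⟩
  have hm2 := hmin e' (Nat.lt_succ_self _)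
  push Not at hm2
  have hTs : (T (e' + 1 + 1) : ℤ) = T (e' + 1) + (e' + 2) := by
    have := T_succ (e' + 1)
    rw [this]
    push_cast
    ring
  have he0 : (0 : ℤ) ≤ e' := Int.natCast_nonneg _
  have b1 := fbWin R m s 0 Θ w hRs hm0.le hms hΘ hw (by linarith)
  have hlow : 25 * ((T (e' + 1) : ℤ) - s * T m) ≤ m ^ 2 := by linarith
  have htw := fbTwo (e' + 1)
  push_cast at htw
  have hsm : ((e' : ℤ) + 1 + 3) * 1000 ≤ m ^ 2 := by
    apply fbDeg m s (e' + 1) hm (Int.natCast_nonneg _) (by linarith) hms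
    have e5 : (s : ℤ) * (m * (m + 1)) = 2 * (s * T m) := by rw [← hTm]; ring
    rw [e5, ← htw]
    have : (0 : ℤ) ≤ (m : ℤ) ^ 2 := by positivity
    linarith
  have hwin := fbWin R m s (e' + 1) Θ w hRs hm0.le hms hΘ hw (by linarith)
  rw [hTs]
  linarith

/-- The degree of the window, zero side. -/
private theorem fbNeg (R m s Θ d : ℕ) (w : ℤ) (hR : (10 : ℤ) ^ 7 ≤ R) (hRs : (R : ℤ) ^ 2 ≤ s)
    (hm : (10 : ℤ) ^ 15 ≤ m) (hms : (31 : ℤ) * s ≤ m)
    (hΘ : 200 * (Θ : ℤ) ≤ (m : ℤ) ^ 2) (hw : w = (R : ℤ) ^ 2 * m + Θ)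
    (h : w ≤ -((T (d + 1) : ℤ) - s * T m)) :
    ∃ e, d ≤ e ∧ w ≤ -((T (e + 1) : ℤ) - s * T m) ∧ (T (e + 1) : ℤ) - s * T m < 0 ∧
      -(m : ℤ) ^ 2 ≤ 25 * ((T (e + 1) : ℤ) - s * T m) := by
  classical
  have hR0 : (0 : ℤ) < R := lt_of_lt_of_le (by norm_num) hR
  have hm0 : (0 : ℤ) < m := lt_of_lt_of_le (by norm_num) hm
  have hΘ0 : (0 : ℤ) ≤ Θ := Int.natCast_nonneg _
  have hw0 : 0 < w := by rw [hw]; positivity
  have hTm := fbTwo m
  have hex : ∃ e : ℕ, ¬ w ≤ -((T (e + 1) : ℤ) - s * T m) := by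
    refine ⟨s * T m, ?_⟩
    have h5 : s * T m ≤ T (s * T m + 1) := by
      have t1 := T_succ (s * T m)
      omega
    have h6 : (0 : ℤ) ≤ (T (s * T m + 1) : ℤ) - s * T m := by
      have : ((s * T m : ℕ) : ℤ) ≤ (T (s * T m + 1) : ℤ) := by exact_mod_cast h5
      push_cast at this
      linarith
    linarith
  obtain ⟨e1, hspec, hmin⟩ : ∃ e : ℕ, ¬ w ≤ -((T (e + 1) : ℤ) - s * T m) ∧
      ∀ e', e' < e → ¬ ¬ w ≤ -((T (e' + 1) : ℤ) - s * T m) :=
    ⟨Nat.find hex, Nat.find_spec hex, fun e' he' => Nat.find_min hex he'⟩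
  have hde : d < e1 := by
    by_contra hcon
    push Not at hcon
    apply hspec
    have h5 : (T (e1 + 1) : ℤ) ≤ T (d + 1) := by exact_mod_cast fbMono (by omega)
    linarith
  obtain ⟨e, rfl⟩ : ∃ e, e1 = e + 1 := ⟨e1 - 1, by omega⟩
  have hm2 := hmin e (Nat.lt_succ_self _)
  rw [not_not] at hm2
  push Not at hspec
  have hneg : (T (e + 1) : ℤ) - s * T m < 0 := by linarith
  refine ⟨e, by omega, hm2, hneg, ?_⟩
  have hTs : (T (e + 1 + 1) : ℤ) = T (e + 1) + (e + 2) := by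
    have := T_succ (e + 1)
    rw [this]
    push_cast
    ring
  have he0 : (0 : ℤ) ≤ e := Int.natCast_nonneg _
  have htw := fbTwo (e + 1)
  push_cast at htw
  have hsm : ((e : ℤ) + 1 + 3) * 1000 ≤ m ^ 2 := by
    apply fbDeg m s (e + 1) hm (Int.natCast_nonneg _) (by linarith) hms
    have e5 : (s : ℤ) * (m * (m + 1)) = 2 * (s * T m) := by rw [← hTm]; ring
    rw [e5, ← htw]
    have : (0 : ℤ) ≤ (m : ℤ) ^ 2 := by positivity
    linarith
  have hwin := fbWin R m s (e + 1) Θ w hRs hm0.le hms hΘ hw (by linarith)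
  linarith

private theorem fbPick (s R : ℕ) (hR : 10 ^ 7 ≤ R) (hRs : Even (s + R)) :
    ∃ a r, Even a ∧ 4 * R ≤ 10 * a ∧ 10 * a ≤ 6 * R ∧ r + a = R ∧ Even (s + r) := by
  refine ⟨2 * (R / 4), R - 2 * (R / 4), ⟨R / 4, by ring⟩, by omega, by omega, by omega, ?_⟩
  obtain ⟨k, hk⟩ := hRs
  exact ⟨k - R / 4, by omega⟩

theorem tWinG (h1 : S_OneDG.{u}) : S_WinG.{u} := by
  intro F _ _ R m s Θ hB hR hs1 hs2 hRs hms hΘ d hw
  obtain ⟨a, r, hae, ha1, ha2, hra, hsr⟩ := fbPick s R hR hRs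
  have hm30 : 30 * (R + 1) ^ 2 ≤ m := by omega
  have hR2 : R ^ 2 + 1 ≤ s := by
    have e2 : (R + 1) ^ 2 = R ^ 2 + 2 * R + 1 := by ring
    omega
  have hrs : r ^ 2 + 1 ≤ s := by
    have e1 : r ^ 2 ≤ R ^ 2 := Nat.pow_le_pow_left (by omega) 2
    omega
  have hm15 : 10 ^ 15 ≤ m := by
    have e1 : (10 ^ 7) ^ 2 ≤ R ^ 2 := Nat.pow_le_pow_left hR 2
    norm_num at e1
    omega
  have core := fun e => fbCore h1 F R Θ m a r s e hB hR hm30 ha1 ha2 hra hs1 hs2 hae hsr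
  have hs0 : 1 ≤ s := by omega
  have zR : (10 : ℤ) ^ 7 ≤ R := by exact_mod_cast hR
  have zR1 : (R : ℤ) ^ 2 ≤ s := by exact_mod_cast (by omega : R ^ 2 ≤ s)
  have zm : (10 : ℤ) ^ 15 ≤ m := by exact_mod_cast hm15
  have zms : (31 : ℤ) * s ≤ m := by exact_mod_cast hms
  have zΘ : 200 * (Θ : ℤ) ≤ (m : ℤ) ^ 2 := by exact_mod_cast hΘ
  have hm2 : (0 : ℤ) ≤ (m : ℤ) ^ 2 := by positivity
  clear hms hm15 hm30 hs1 hs2
  rcases le_or_gt 0 ((T (d + 1) : ℤ) - s * T m) with h0 | h0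
  · rw [abs_of_nonneg h0] at hw
    obtain ⟨e, hed, hwe, hpos, hb1⟩ := fbPos R m s Θ d _ zR zR1 zm hs0 zms zΘ rfl hw
    have hle : s * T m ≤ T (e + 1) := by
      have h5 : (s : ℤ) * T m ≤ T (e + 1) := by linarith
      exact_mod_cast h5
    have hT : r ^ 2 * T m ≤ T (e + 1) := le_trans (Nat.mul_le_mul_right _ (by omega)) hle
    have hc := core e hT hb1 (by linarith) (by rw [abs_of_nonneg hpos]; exact hwe)
    have hx : hF F e (Multiset.replicate s m) + TT (Multiset.replicate s m) = T (e + 1) := by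
      rw [fbTT, hc]
      exact Nat.sub_add_cancel hle
    have hx2 := hF_exact_mono F (Multiset.replicate s m) e (d - e) hx
    rw [Nat.add_sub_cancel' hed, fbTT] at hx2
    exact Nat.eq_sub_of_add_eq hx2
  · rw [abs_of_neg h0] at hw
    obtain ⟨e, hed, hwe, hneg, hb2⟩ := fbNeg R m s Θ d _ zR zR1 zm zms zΘ rfl hw
    have hT : r ^ 2 * T m ≤ T (e + 1) := by
      have hTm := fbTwo m
      have h5 : ((r : ℤ) ^ 2 + 1) * T m ≤ s * T m := by
        apply mul_le_mul_of_nonneg_right _ (Int.natCast_nonneg _)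
        exact_mod_cast hrs
      have h6 : (m : ℤ) ^ 2 ≤ 2 * T m := by
        rw [hTm]
        have : (0 : ℤ) ≤ m := Int.natCast_nonneg _
        have e1 : (m : ℤ) * (m + 1) = m ^ 2 + m := by ring
        linarith
      have h8 : (0 : ℤ) ≤ T m := Int.natCast_nonneg _
      have h9 : ((r : ℤ) ^ 2 + 1) * T m = r ^ 2 * T m + T m := by ring
      have h7 : (r : ℤ) ^ 2 * T m ≤ T (e + 1) := by linarith
      exact_mod_cast h7
    have hc := core e hT (by linarith) hb2 (by rw [abs_of_neg hneg]; exact hwe)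
    have hz : hF F e (Multiset.replicate s m) = 0 := by
      rw [hc]
      have h6 : (T (e + 1) : ℤ) < s * T m := by linarith
      exact Nat.sub_eq_zero_of_le (by exact_mod_cast h6.le)
    have hmono := fbHmono' F (Multiset.replicate s m) d (e - d)
    rw [Nat.add_sub_cancel' hed, hz] at hmono
    have h6 : (T (d + 1) : ℤ) < s * T m := by linarith
    have h7 : T (d + 1) - s * T m = 0 := Nat.sub_eq_zero_of_le (by exact_mod_cast h6.le)
    rw [h7]
    exact Nat.le_zero.1 hmono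

end ShghPS
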