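import Pool.Agent.ShghPS.Spec

/-!
# ShghPS/FinB: the windows (b), all multiplicities
-/

namespace ShghPS

open MvPolynomial ShghJ ShghC ShghK

universe u

private theorem fbMono {a b : ℕ} (h : a ≤ b) : T a ≤ T b := by
  have h1 := two_T a
  have h2 := two_T b
  have h3 : a * (a + 1) ≤ b * (b + 1) := Nat.mul_le_mul h (by omega)
  omega

private theorem fbTwo (j : ℕ) : (2 : ℤ) * T j = j * (j + 1) := by
  have h := two_T j
  exact_mod_cast h

/-- `cap + Th ≤ |χ|`. -/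
private theorem fbCap (R N m a r v : ℕ) (x : ℤ) (hR : 10 ^ 7 ≤ R) (hm : 30 * (R + 1) ^ 2 ≤ m)
    (hra : r + a = R) (h1 : R + 1 ≤ N) (h2 : N ≤ R + 2) (hv : v ≤ r * (m + 1) + a)
    (hw : 2 * 10 ^ 6 * (m : ℤ) ^ 2 + N ^ 5 * m ≤ N ^ 3 * x) :
    (a : ℤ) * v + 1 - T (a - 2) + Th m R ≤ x := by
  have e1 : (0 : ℤ) < (N : ℤ) ^ 3 := by
    have : (0 : ℤ) < N := by exact_mod_cast (by omega : 0 < N)
    positivity
  have hT0 : (0 : ℤ) ≤ T (a - 2) := Int.natCast_nonneg _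
  -- in natural numbers
  have k1 : a * v + 1 + 20 * R * m ≤ N ^ 2 * m := by
    have a1 : a * v ≤ a * (r * (m + 1) + a) := Nat.mul_le_mul_left _ hv
    have a2 : 4 * (a * r) ≤ R ^ 2 := by
      have : (4 * (a * r) : ℤ) ≤ (R : ℤ) ^ 2 := by
        have hh : (r : ℤ) + a = R := by exact_mod_cast hra
        rw [← hh]
        nlinarith [sq_nonneg ((r : ℤ) - a)]
      exact_mod_cast this
    have a3 : a * a ≤ R ^ 2 := by
      have : a ≤ R := by omega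
      calc a * a ≤ R * R := Nat.mul_le_mul this this
        _ = R ^ 2 := by ring
    have a4 : (R + 1) ^ 2 ≤ N ^ 2 := Nat.pow_le_pow_left h1 2
    have a5 : 4 * (a * r) * (m + 1) ≤ R ^ 2 * (m + 1) := Nat.mul_le_mul_right _ a2
    have a6 : (R + 1) ^ 2 * m ≤ N ^ 2 * m := Nat.mul_le_mul_right _ a4
    have a7 : 4 * (a * (r * (m + 1) + a)) = 4 * (a * r) * (m + 1) + 4 * (a * a) := by ring
    have a8 : R ^ 2 * (m + 1) = R ^ 2 * m + R ^ 2 := by ring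
    have a9 : (R + 1) ^ 2 * m = R ^ 2 * m + 2 * (R * m) + m := by ring
    have a10 : (R + 1) ^ 2 = R ^ 2 + 2 * R + 1 := by ring
    have a11 : 30 * (R * m) ≤ R ^ 2 * m := by
      calc 30 * (R * m) ≤ R * (R * m) := Nat.mul_le_mul_right _ (by omega)
        _ = R ^ 2 * m := by ring
    have a12 : 20 * R * m = 20 * (R * m) := by ring
    have a13 : m ≤ R * m := Nat.le_mul_of_pos_left _ (by omega)
    rw [a12]
    omega
  have k2 : N ^ 3 * (1000000 * m ^ 2 / R ^ 3) ≤ 2 * 10 ^ 6 * m ^ 2 := by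
    have b1 : N ^ 3 ≤ 2 * R ^ 3 := by
      calc N ^ 3 ≤ (R + 2) ^ 3 := Nat.pow_le_pow_left h2 3
        _ = R ^ 3 + (6 * R ^ 2 + 12 * R + 8) := by ring
        _ ≤ 2 * R ^ 3 := by
          have c1 : 100 * R ^ 2 ≤ R ^ 3 := by
            calc 100 * R ^ 2 ≤ R * R ^ 2 := Nat.mul_le_mul_right _ (by omega)
              _ = R ^ 3 := by ring
          have c2 : 100 * R ≤ R ^ 2 := by
            calc 100 * R ≤ R * R := Nat.mul_le_mul_right _ (by omega)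
              _ = R ^ 2 := by ring
          omega
    calc N ^ 3 * (1000000 * m ^ 2 / R ^ 3) ≤ 2 * R ^ 3 * (1000000 * m ^ 2 / R ^ 3) :=
          Nat.mul_le_mul_right _ b1
      _ = 2 * (R ^ 3 * (1000000 * m ^ 2 / R ^ 3)) := by ring
      _ ≤ 2 * (1000000 * m ^ 2) := Nat.mul_le_mul_left _ (Nat.mul_div_le _ _)
      _ = 2 * 10 ^ 6 * m ^ 2 := by ring
  have k3 : N ^ 3 * (a * v + 1 + Th m R) ≤ 2 * 10 ^ 6 * m ^ 2 + N ^ 5 * m := by
    unfold Th
    calc N ^ 3 * (a * v + 1 + (1000000 * m ^ 2 / R ^ 3 + 20 * R * m)) =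
        N ^ 3 * (1000000 * m ^ 2 / R ^ 3) + N ^ 3 * (a * v + 1 + 20 * R * m) := by ring
      _ ≤ 2 * 10 ^ 6 * m ^ 2 + N ^ 3 * (N ^ 2 * m) :=
        Nat.add_le_add k2 (Nat.mul_le_mul_left _ k1)
      _ = _ := by ring
  have k4 : (N : ℤ) ^ 3 * ((a : ℤ) * v + 1 + Th m R) ≤ N ^ 3 * x := by
    refine le_trans ?_ hw
    exact_mod_cast k3
  have k5 := le_of_mul_le_mul_left k4 e1
  linarith

private theorem fbCore (h1 : S_OneD.{u}) (F : Type u) [Field F] [CharZero F]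
    (R N m a r s e : ℕ) (hR : 10 ^ 7 ≤ R) (hm : 30 * (R + 1) ^ 2 ≤ m) (ha1 : 4 * R ≤ 10 * a)
    (ha2 : 10 * a ≤ 6 * R) (hra : r + a = R) (hs1 : (R + 1) ^ 2 ≤ s) (hs2 : s < (R + 3) ^ 2)
    (hae : Even a) (hsr : Even (s + r)) (hRN : R + 1 ≤ N) (hNR : N ≤ R + 2)
    (hT : r ^ 2 * T m ≤ T (e + 1)) (hb1 : 25 * ((T (e + 1) : ℤ) - s * T m) ≤ m ^ 2)
    (hb2 : -(m : ℤ) ^ 2 ≤ 25 * ((T (e + 1) : ℤ) - s * T m))
    (hw : 2 * 10 ^ 6 * (m : ℤ) ^ 2 + N ^ 5 * m ≤ N ^ 3 * |(T (e + 1) : ℤ) - s * T m|) :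
    hF F e (Multiset.replicate s m) = T (e + 1) - s * T m := by
  classical
  have ha0 : 0 < a := by omega
  have hex : ∃ u, r ^ 2 * T m ≤ T (u + 1) := ⟨e, hT⟩
  set uc := Nat.find hex with huc
  have hu1 : r ^ 2 * T m ≤ T (uc + 1) := Nat.find_spec hex
  have hu2 : uc ≤ e := Nat.find_min' hex hT
  have hu3 : T uc ≤ r ^ 2 * T m := by
    rcases Nat.eq_zero_or_pos uc with h | h
    · rw [h]
      exact Nat.zero_le _
    · have h2 := Nat.find_min hex (m := uc - 1) (by omega)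
      rw [Nat.sub_add_cancel h] at h2
      omega
  have hu4 : uc ≤ r * (m + 1) := by
    by_contra hcon
    push Not at hcon
    have t1 := two_T uc
    have t2 := two_T m
    have t3 : r * (m + 1) * (r * (m + 1)) < uc * uc := Nat.mul_lt_mul'' hcon hcon
    have t4 : r ^ 2 * (m * (m + 1)) ≤ r * (m + 1) * (r * (m + 1)) := by
      calc r ^ 2 * (m * (m + 1)) ≤ r ^ 2 * ((m + 1) * (m + 1)) :=
            Nat.mul_le_mul_left _ (Nat.mul_le_mul_right _ (by omega))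
        _ = _ := by ring
    have t5 : uc * uc ≤ uc * (uc + 1) := Nat.mul_le_mul_left _ (by omega)
    have t6 : 2 * (r ^ 2 * T m) = r ^ 2 * (m * (m + 1)) := by rw [← t2]; ring
    omega
  set v := uc + (e - uc) % a with hv
  have hlt : (e - uc) % a < a := Nat.mod_lt _ ha0
  have hve : v + a * ((e - uc) / a) = e := by
    have := Nat.mod_add_div (e - uc) a
    omega
  have hv1 : r ^ 2 * T m ≤ T (v + 1) := le_trans hu1 (fbMono (by omega))
  have hv2 : T (v + 1 - a) ≤ r ^ 2 * T m := le_trans (fbMono (by omega)) hu3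
  have hcap := fun x hx => fbCap R N m a r v x hR hm hra hRN hNR (by omega) hx
  have key := h1 F R m a r s v ((e - uc) / a) ((T (e + 1) : ℤ) - s * T m) hR hm ha1 ha2 hra hs1 hs2
    hae hsr hv1 hv2 (by rw [hve]) hb1 hb2
  rw [hve] at key
  apply key
  rcases le_or_gt 0 ((T (e + 1) : ℤ) - s * T m) with h0 | h0
  · right
    left
    rw [abs_of_nonneg h0] at hw
    exact hcap _ hw
  · right
    right
    rw [abs_of_neg h0] at hw
    have := hcap _ hw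
    linarith

private theorem fbHmono (F : Type u) [Field F] [CharZero F] (A : Multiset ℕ) (e : ℕ) :
    hF F e A ≤ hF F (e + 1) A := by
  have h := (mStB F 1 (e + 1)).1 e A
  rw [Sf_one_eq_Trap (Nat.le_succ e), Sf_one_eq_Trap (le_refl (e + 1)), hN_tri mProj,
    hN_tri mProj] at h
  exact h

private theorem fbHmono' (F : Type u) [Field F] [CharZero F] (A : Multiset ℕ) (e k : ℕ) :
    hF F e A ≤ hF F (e + k) A := by
  induction k with
  | zero => exact le_refl _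
  | succ k ih => exact le_trans ih (fbHmono F A (e + k))

private theorem fbTT (s m : ℕ) : TT (Multiset.replicate s m) = s * T m := by
  unfold TT
  rw [Multiset.map_replicate, Multiset.sum_replicate, smul_eq_mul]

/-- Size of the window. -/
private theorem fbWin (N m s d : ℤ) (hN : 10 ^ 7 ≤ N) (hNs : N ^ 2 ≤ s) (hm0 : 0 ≤ m)
    (hms : 31 * s ≤ m) (hd : (d + 1) * 1000 ≤ m ^ 2) :
    25 * (2 * 10 ^ 6 * m ^ 2 + N ^ 5 * m) + 25 * (N ^ 3 * (d + 1)) ≤ N ^ 3 * m ^ 2 := by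
  have hN0 : 0 ≤ N := le_trans (by norm_num) hN
  have h1 : 10 ^ 9 ≤ N ^ 3 := by
    calc (10 : ℤ) ^ 9 ≤ (10 ^ 7) ^ 3 := by norm_num
      _ ≤ N ^ 3 := pow_le_pow_left₀ (by norm_num) hN 3
  have h2 : 10 ^ 9 * m ^ 2 ≤ N ^ 3 * m ^ 2 := mul_le_mul_of_nonneg_right h1 (by positivity)
  have h3 : 31 * (N ^ 5 * m) ≤ N ^ 3 * m ^ 2 := by
    calc 31 * (N ^ 5 * m) = N ^ 3 * m * (31 * N ^ 2) := by ring
      _ ≤ N ^ 3 * m * m := mul_le_mul_of_nonneg_left (by linarith) (by positivity)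
      _ = N ^ 3 * m ^ 2 := by ring
  have h4 : 1000 * (N ^ 3 * (d + 1)) ≤ N ^ 3 * m ^ 2 := by
    calc 1000 * (N ^ 3 * (d + 1)) = N ^ 3 * ((d + 1) * 1000) := by ring
      _ ≤ _ := mul_le_mul_of_nonneg_left hd (by positivity)
  have h5 : 0 ≤ N ^ 3 * m ^ 2 := by positivity
  linarith

/-- A degree with small `χ` is small. -/
private theorem fbDeg (m s d : ℤ) (hm : 10 ^ 15 ≤ m) (hs0 : 0 ≤ s) (hd0 : 0 ≤ d)
    (hms : 31 * s ≤ m) (hd : d * (d + 1) ≤ s * (m * (m + 1)) + m ^ 2) :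
    (d + 3) * 1000 ≤ m ^ 2 := by
  by_contra hcon
  push Not at hcon
  have hm0 : 0 ≤ m := le_trans (by norm_num) hm
  have h6 : s * (m * (m + 1)) ≤ m * (m * (m + 1)) :=
    mul_le_mul_of_nonneg_right (by linarith) (by positivity)
  have h7 : (10 : ℤ) ^ 9 * m ≤ m ^ 2 := by
    calc (10 : ℤ) ^ 9 * m ≤ m * m := mul_le_mul_of_nonneg_right (by linarith) hm0
      _ = m ^ 2 := by ring
  have h8 : (10 : ℤ) ^ 5 * m ≤ d := by linarith
  have h9 : (10 ^ 5 * m) * d ≤ d * (d + 1) := by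
    calc (10 ^ 5 * m) * d ≤ d * d := mul_le_mul_of_nonneg_right h8 hd0
      _ ≤ d * (d + 1) := mul_le_mul_of_nonneg_left (by linarith) hd0
  have h10 : (10 ^ 5 * m) * (m ^ 2 - 3000) ≤ (10 ^ 5 * m) * d * 1000 := by
    calc (10 ^ 5 * m) * (m ^ 2 - 3000) ≤ (10 ^ 5 * m) * (d * 1000) :=
          mul_le_mul_of_nonneg_left (by linarith) (by positivity)
      _ = _ := by ring
  have h11 : m * (m * (m + 1)) = m ^ 2 * m + m ^ 2 := by ring
  have h12 : (10 ^ 5 * m) * (m ^ 2 - 3000) = 10 ^ 5 * (m ^ 2 * m) - 3 * 10 ^ 8 * m := by ring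
  have h13 : m ^ 2 * 10 ^ 9 ≤ m ^ 2 * m := mul_le_mul_of_nonneg_left (by linarith) (by positivity)
  have h14 : (0 : ℤ) < m ^ 2 := by positivity
  linarith

/-- The degree of the window, exact side. -/
private theorem fbPos (N m s d : ℕ) (w : ℤ) (hN : (10 : ℤ) ^ 7 ≤ N) (hN1 : (N : ℤ) ^ 2 ≤ s)
    (hm : (10 : ℤ) ^ 15 ≤ m) (hs : 1 ≤ s) (hms : (31 : ℤ) * s ≤ m)
    (hw : w = 2 * 10 ^ 6 * (m : ℤ) ^ 2 + N ^ 5 * m)
    (h : w ≤ N ^ 3 * ((T (d + 1) : ℤ) - s * T m)) :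
    ∃ e, e ≤ d ∧ w ≤ N ^ 3 * ((T (e + 1) : ℤ) - s * T m) ∧ 0 ≤ (T (e + 1) : ℤ) - s * T m ∧
      25 * ((T (e + 1) : ℤ) - s * T m) ≤ m ^ 2 := by
  classical
  have hN0 : (0 : ℤ) < N := lt_of_lt_of_le (by norm_num) hN
  have hm0 : (0 : ℤ) < m := lt_of_lt_of_le (by norm_num) hm
  have hN3 : (0 : ℤ) < (N : ℤ) ^ 3 := by positivity
  have hw0 : 0 < w := by rw [hw]; positivity
  have hTm := fbTwo m
  have hex : ∃ e : ℕ, w ≤ N ^ 3 * ((T (e + 1) : ℤ) - s * T m) := ⟨d, h⟩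
  obtain ⟨e, hspec, hmin⟩ : ∃ e : ℕ, w ≤ N ^ 3 * ((T (e + 1) : ℤ) - s * T m) ∧
      ∀ e', e' < e → ¬ w ≤ N ^ 3 * ((T (e' + 1) : ℤ) - s * T m) :=
    ⟨Nat.find hex, Nat.find_spec hex, fun e' he' => Nat.find_min hex he'⟩
  have hpos : 0 < (T (e + 1) : ℤ) - s * T m := by
    have : 0 < (N : ℤ) ^ 3 * ((T (e + 1) : ℤ) - s * T m) := lt_of_lt_of_le hw0 hspec
    exact (pos_iff_pos_of_mul_pos this).1 hN3
  refine ⟨e, ?_, hspec, hpos.le, ?_⟩
  · by_contra hcon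
    push Not at hcon
    exact hmin d hcon h
  rcases Nat.eq_zero_or_pos e with he | he
  · rw [he]
    have e1 : (T (0 + 1) : ℤ) = 1 := rfl
    have e2 : (0 : ℤ) ≤ s * T m := by positivity
    rw [e1]
    have e3 : (10 : ℤ) ^ 15 * 1 ≤ m * m := mul_le_mul hm (by linarith) (by norm_num) hm0.le
    have e4 : (m : ℤ) * m = m ^ 2 := by ring
    linarith
  obtain ⟨e', rfl⟩ : ∃ e', e = e' + 1 := ⟨e - 1, by omega⟩
  have hm2 := hmin e' (Nat.lt_succ_self _)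
  push Not at hm2
  have hTs : (T (e' + 1 + 1) : ℤ) = T (e' + 1) + (e' + 2) := by
    have := T_succ (e' + 1)
    rw [this]
    push_cast
    ring
  have he0 : (0 : ℤ) ≤ e' := Int.natCast_nonneg _
  have hsq : (1000 : ℤ) ≤ m ^ 2 := by
    have e3 : (10 : ℤ) ^ 15 * 1 ≤ m * m := mul_le_mul hm (by linarith) (by norm_num) hm0.le
    have e4 : (m : ℤ) * m = m ^ 2 := by ring
    linarith
  have b1 := fbWin N m s 0 hN hN1 hm0.le hms (by linarith)
  rw [← hw] at b1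
  have hlow : 25 * ((T (e' + 1) : ℤ) - s * T m) ≤ m ^ 2 := by
    have h5 : (N : ℤ) ^ 3 * (25 * ((T (e' + 1) : ℤ) - s * T m)) ≤ N ^ 3 * m ^ 2 := by
      linarith
    exact le_of_mul_le_mul_left h5 hN3
  have htw := fbTwo (e' + 1)
  push_cast at htw
  have hsm : ((e' : ℤ) + 1 + 3) * 1000 ≤ m ^ 2 := by
    apply fbDeg m s (e' + 1) hm (Int.natCast_nonneg _) (by linarith) hms
    have e5 : (s : ℤ) * (m * (m + 1)) = 2 * (s * T m) := by rw [← hTm]; ring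
    rw [e5, ← htw]
    have : (0 : ℤ) ≤ (m : ℤ) ^ 2 := by positivity
    linarith
  have hwin := fbWin N m s (e' + 1) hN hN1 hm0.le hms (by linarith)
  rw [← hw] at hwin
  have h5 : (N : ℤ) ^ 3 * (25 * ((T (e' + 1 + 1) : ℤ) - s * T m)) ≤ N ^ 3 * m ^ 2 := by
    rw [hTs]
    calc (N : ℤ) ^ 3 * (25 * ((T (e' + 1) : ℤ) + (e' + 2) - s * T m)) =
        25 * (N ^ 3 * ((T (e' + 1) : ℤ) - s * T m)) + 25 * (N ^ 3 * (e' + 1 + 1)) := by ring
      _ ≤ 25 * w + 25 * (N ^ 3 * (e' + 1 + 1)) := by linarith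
      _ ≤ _ := hwin
  exact le_of_mul_le_mul_left h5 hN3

/-- The degree of the window, zero side. -/
private theorem fbNeg (N m s d : ℕ) (w : ℤ) (hN : (10 : ℤ) ^ 7 ≤ N) (hN1 : (N : ℤ) ^ 2 ≤ s)
    (hm : (10 : ℤ) ^ 15 ≤ m) (hms : (31 : ℤ) * s ≤ m)
    (hw : w = 2 * 10 ^ 6 * (m : ℤ) ^ 2 + N ^ 5 * m)
    (h : w ≤ N ^ 3 * -((T (d + 1) : ℤ) - s * T m)) :
    ∃ e, d ≤ e ∧ w ≤ N ^ 3 * -((T (e + 1) : ℤ) - s * T m) ∧ (T (e + 1) : ℤ) - s * T m < 0 ∧
      -(m : ℤ) ^ 2 ≤ 25 * ((T (e + 1) : ℤ) - s * T m) := by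
  classical
  have hN0 : (0 : ℤ) < N := lt_of_lt_of_le (by norm_num) hN
  have hm0 : (0 : ℤ) < m := lt_of_lt_of_le (by norm_num) hm
  have hN3 : (0 : ℤ) < (N : ℤ) ^ 3 := by positivity
  have hw0 : 0 < w := by rw [hw]; positivity
  have hTm := fbTwo m
  have hex : ∃ e : ℕ, ¬ w ≤ N ^ 3 * -((T (e + 1) : ℤ) - s * T m) := by
    refine ⟨s * T m, ?_⟩
    have h5 : s * T m ≤ T (s * T m + 1) := by
      have t1 := T_succ (s * T m)
      omega
    have h6 : (0 : ℤ) ≤ (T (s * T m + 1) : ℤ) - s * T m := by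
      have : ((s * T m : ℕ) : ℤ) ≤ (T (s * T m + 1) : ℤ) := by exact_mod_cast h5
      push_cast at this
      linarith
    have h7 : (0 : ℤ) ≤ N ^ 3 * ((T (s * T m + 1) : ℤ) - s * T m) := mul_nonneg hN3.le h6
    rw [mul_neg]
    linarith
  obtain ⟨e1, hspec, hmin⟩ : ∃ e : ℕ, ¬ w ≤ N ^ 3 * -((T (e + 1) : ℤ) - s * T m) ∧
      ∀ e', e' < e → ¬ ¬ w ≤ N ^ 3 * -((T (e' + 1) : ℤ) - s * T m) :=
    ⟨Nat.find hex, Nat.find_spec hex, fun e' he' => Nat.find_min hex he'⟩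
  have hde : d < e1 := by
    by_contra hcon
    push Not at hcon
    apply hspec
    have h5 : (T (e1 + 1) : ℤ) ≤ T (d + 1) := by exact_mod_cast fbMono (by omega)
    refine le_trans h ?_
    apply mul_le_mul_of_nonneg_left _ hN3.le
    linarith
  obtain ⟨e, rfl⟩ : ∃ e, e1 = e + 1 := ⟨e1 - 1, by omega⟩
  have hm2 := hmin e (Nat.lt_succ_self _)
  rw [not_not] at hm2
  push Not at hspec
  have hneg : (T (e + 1) : ℤ) - s * T m < 0 := by
    have : 0 < (N : ℤ) ^ 3 * -((T (e + 1) : ℤ) - s * T m) := lt_of_lt_of_le hw0 hm2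
    have := (pos_iff_pos_of_mul_pos this).1 hN3
    linarith
  refine ⟨e, by omega, hm2, hneg, ?_⟩
  have hTs : (T (e + 1 + 1) : ℤ) = T (e + 1) + (e + 2) := by
    have := T_succ (e + 1)
    rw [this]
    push_cast
    ring
  have he0 : (0 : ℤ) ≤ e := Int.natCast_nonneg _
  have htw := fbTwo (e + 1)
  push_cast at htw
  have hsm : ((e : ℤ) + 1 + 3) * 1000 ≤ m ^ 2 := by
    apply fbDeg m s (e + 1) hm (Int.natCast_nonneg _) (by linarith) hms
    have e5 : (s : ℤ) * (m * (m + 1)) = 2 * (s * T m) := by rw [← hTm]; ring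
    rw [e5, ← htw]
    have : (0 : ℤ) ≤ (m : ℤ) ^ 2 := by positivity
    linarith
  have hwin := fbWin N m s (e + 1) hN hN1 hm0.le hms (by linarith)
  rw [← hw] at hwin
  have h5 : (N : ℤ) ^ 3 * (25 * -((T (e + 1) : ℤ) - s * T m)) ≤ N ^ 3 * m ^ 2 := by
    have h6 : (N : ℤ) ^ 3 * (25 * -((T (e + 1) : ℤ) - s * T m)) =
        25 * (N ^ 3 * -((T (e + 1 + 1) : ℤ) - s * T m)) + 25 * (N ^ 3 * (e + 1 + 1)) := by
      rw [hTs]
      ring
    rw [h6]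
    linarith
  have h6 := le_of_mul_le_mul_left h5 hN3
  linarith

private theorem fbNum (m s N : ℕ) (hs : 10 ^ 14 + 10 ^ 8 ≤ s) (hN2 : s < (N + 1) ^ 2)
    (c2 : s ^ 3 < 10 ^ 11 * m ^ 2) : 31 * s ≤ m ∧ 10 ^ 7 + 4 ≤ N := by
  constructor
  · by_contra hcon
    push Not at hcon
    have e1 : m ^ 2 ≤ (31 * s) ^ 2 := Nat.pow_le_pow_left hcon.le 2
    have e2 : 10 ^ 14 * s ^ 2 ≤ s ^ 3 := by
      calc 10 ^ 14 * s ^ 2 ≤ s * s ^ 2 := Nat.mul_le_mul_right _ (by omega)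
        _ = s ^ 3 := by ring
    have e3 : (31 * s) ^ 2 = 961 * s ^ 2 := by ring
    have e4 : 0 < s ^ 2 := by
      have : 0 < s := by omega
      positivity
    omega
  · by_contra hcon
    push Not at hcon
    have e1 : (N + 1) ^ 2 ≤ (10 ^ 7 + 4) ^ 2 := Nat.pow_le_pow_left (by omega) 2
    have e2 : (10 ^ 7 + 4) ^ 2 = 100000080000016 := by norm_num
    omega

private theorem fbPick (s N : ℕ) (hN : 10 ^ 7 + 4 ≤ N) :
    ∃ R a r, R + 1 ≤ N ∧ N ≤ R + 2 ∧ Even a ∧ 4 * R ≤ 10 * a ∧ 10 * a ≤ 6 * R ∧ r + a = R ∧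
      Even (s + r) := by
  obtain ⟨R, hRN, hNR, hRs⟩ : ∃ R, R + 1 ≤ N ∧ N ≤ R + 2 ∧ Even (s + R) := by
    by_cases hpar : Even (s + (N - 1))
    · exact ⟨N - 1, by omega, by omega, hpar⟩
    · refine ⟨N - 2, by omega, by omega, ?_⟩
      rw [Nat.not_even_iff_odd] at hpar
      obtain ⟨k, hk⟩ := hpar
      exact ⟨k, by omega⟩
  refine ⟨R, 2 * (R / 4), R - 2 * (R / 4), hRN, hNR, ⟨R / 4, by ring⟩, by omega, by omega,
    by omega, ?_⟩
  obtain ⟨k, hk⟩ := hRs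
  exact ⟨k - R / 4, by omega⟩

theorem tFinB (h1 : S_OneD.{u}) (h3 : ShghK.S_Hom23.{u}) : S_FinB.{u} := by
  intro F _ _ d m s N hm hs hN1 hN2 hw
  by_cases c1 : 30 * m ≤ s
  · exact mHom F d m s hm c1
  by_cases c2 : 10 ^ 11 * m ^ 2 ≤ s ^ 3
  · exact h3 F d m s hm c2
  push Not at c2
  clear c1
  obtain ⟨hms, hN⟩ := fbNum m s N hs hN2 c2
  obtain ⟨R, a, r, hRN, hNR, hae, ha1, ha2, hra, hsr⟩ := fbPick s N hN
  have hR : 10 ^ 7 ≤ R := by omega
  have hs1 : (R + 1) ^ 2 ≤ s := le_trans (Nat.pow_le_pow_left hRN 2) hN1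
  have hs2 : s < (R + 3) ^ 2 := lt_of_lt_of_le hN2 (Nat.pow_le_pow_left (by omega) 2)
  have hm30 : 30 * (R + 1) ^ 2 ≤ m := by omega
  have hrs : r ^ 2 + 1 ≤ s := by
    have e1 : r ^ 2 ≤ R ^ 2 := Nat.pow_le_pow_left (by omega) 2
    have e2 : (R + 1) ^ 2 = R ^ 2 + 2 * R + 1 := by ring
    omega
  have hm15 : 10 ^ 15 ≤ m := by omega
  have core := fun e => fbCore h1 F R N m a r s e hR hm30 ha1 ha2 hra hs1 hs2 hae hsr hRN hNR
  have hs0 : 1 ≤ s := by omega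
  have zN : (10 : ℤ) ^ 7 ≤ N := by exact_mod_cast (by omega : 10 ^ 7 ≤ N)
  have zN1 : (N : ℤ) ^ 2 ≤ s := by exact_mod_cast hN1
  have zm : (10 : ℤ) ^ 15 ≤ m := by exact_mod_cast hm15
  have zms : (31 : ℤ) * s ≤ m := by exact_mod_cast hms
  have hm2 : (0 : ℤ) ≤ (m : ℤ) ^ 2 := by positivity
  clear c2 hs hN2 hms hN hm15 hm30 hs1 hs2
  rcases le_or_gt 0 ((T (d + 1) : ℤ) - s * T m) with h0 | h0
  · rw [abs_of_nonneg h0] at hw
    obtain ⟨e, hed, hwe, hpos, hb1⟩ := fbPos N m s d _ zN zN1 zm hs0 zms rfl hw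
    have hle : s * T m ≤ T (e + 1) := by
      have h5 : (s : ℤ) * T m ≤ T (e + 1) := by linarith
      exact_mod_cast h5
    have hT : r ^ 2 * T m ≤ T (e + 1) := le_trans (Nat.mul_le_mul_right _ (by omega)) hle
    have hc := core e hT hb1 (by linarith) (by rw [abs_of_nonneg hpos]; exact hwe)
    have hx : hF F e (Multiset.replicate s m) + TT (Multiset.replicate s m) = T (e + 1) := by
      rw [fbTT, hc]
      exact Nat.sub_add_cancel hle
    have hx2 := hF_exact_mono F (Multiset.replicate s m) e (d - e) hx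
    rw [Nat.add_sub_cancel' hed, fbTT] at hx2
    exact Nat.eq_sub_of_add_eq hx2
  · rw [abs_of_neg h0] at hw
    obtain ⟨e, hed, hwe, hneg, hb2⟩ := fbNeg N m s d _ zN zN1 zm zms rfl hw
    have hT : r ^ 2 * T m ≤ T (e + 1) := by
      have hTm := fbTwo m
      have h5 : ((r : ℤ) ^ 2 + 1) * T m ≤ s * T m := by
        apply mul_le_mul_of_nonneg_right _ (Int.natCast_nonneg _)
        exact_mod_cast hrs
      have h6 : (m : ℤ) ^ 2 ≤ 2 * T m := by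
        rw [hTm]
        have : (0 : ℤ) ≤ m := Int.natCast_nonneg _
        have e1 : (m : ℤ) * (m + 1) = m ^ 2 + m := by ring
        linarith
      have h8 : (0 : ℤ) ≤ T m := Int.natCast_nonneg _
      have h9 : ((r : ℤ) ^ 2 + 1) * T m = r ^ 2 * T m + T m := by ring
      have h7 : (r : ℤ) ^ 2 * T m ≤ T (e + 1) := by linarith
      exact_mod_cast h7
    have hc := core e hT (by linarith) hb2 (by rw [abs_of_neg hneg]; exact hwe)
    have hz : hF F e (Multiset.replicate s m) = 0 := by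
      rw [hc]
      have h6 : (T (e + 1) : ℤ) < s * T m := by linarith
      exact Nat.sub_eq_zero_of_le (by exact_mod_cast h6.le)
    have hmono := fbHmono' F (Multiset.replicate s m) d (e - d)
    rw [Nat.add_sub_cancel' hed, hz] at hmono
    have h6 : (T (d + 1) : ℤ) < s * T m := by linarith
    have h7 : T (d + 1) - s * T m = 0 := Nat.sub_eq_zero_of_le (by exact_mod_cast h6.le)
    rw [h7]
    exact Nat.le_zero.1 hmono

end ShghPS
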