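import Pool.Agent.ShghPS.Spec

/-!
# ShghPS, Al5: the alignment by the fifth difference
-/

namespace ShghPS

open MvPolynomial ShghJ ShghC ShghK

universe u

private def a5P (A h : ℕ) : ℕ :=
  A * (A + h) * (A + 2 * h) * (A + 3 * h) * (A + 4 * h) * (A + 5 * h)

private theorem a5P_mono {A h h' : ℕ} (hh : h ≤ h') : a5P A h ≤ a5P A h' := by
  unfold a5P
  gcongr

private theorem a5P_ge (A h : ℕ) : A ^ 6 ≤ a5P A h := by
  unfold a5P
  calc A ^ 6 = A * A * A * A * A * A := by ring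
    _ ≤ _ := by gcongr <;> exact Nat.le_add_right _ _

private theorem a5P_le {A h B : ℕ} (hB : A + 5 * h ≤ B) : a5P A h ≤ B ^ 6 := by
  unfold a5P
  calc A * (A + h) * (A + 2 * h) * (A + 3 * h) * (A + 4 * h) * (A + 5 * h)
      ≤ B * B * B * B * B * B := by gcongr <;> omega
    _ = B ^ 6 := by ring

private theorem a5_diff (A h G : ℝ) (hA : 0 < A) (hh : 0 ≤ h) :
    G / A - 5 * (G / (A + h)) + 10 * (G / (A + 2 * h)) - 10 * (G / (A + 3 * h)) +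
      5 * (G / (A + 4 * h)) - G / (A + 5 * h) =
    120 * G * h ^ 5 / (A * (A + h) * (A + 2 * h) * (A + 3 * h) * (A + 4 * h) * (A + 5 * h)) := by
  have h1 : 0 < A + h := by linarith
  have h2 : 0 < A + 2 * h := by linarith
  have h3 : 0 < A + 3 * h := by linarith
  have h4 : 0 < A + 4 * h := by linarith
  have h5 : 0 < A + 5 * h := by linarith
  field_simp
  ring

private theorem a5_near (G a : ℕ) (ha : Even a) (ha0 : 0 < a)
    (h : ¬ (a ≤ 80 * ((G + a / 2) % a) ∧ 80 * ((G + a / 2) % a) + a ≤ 80 * a)) :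
    ∃ z : ℤ, |(G : ℝ) / a + 1 / 2 - z| < 1 / 80 := by
  obtain ⟨b, rfl⟩ := ha
  have hb : 0 < b := by omega
  have e1 : (b + b) / 2 = b := by omega
  rw [e1] at h
  set p := (G + b) % (b + b) with hp
  set q := (G + b) / (b + b) with hq
  have e2 : (b + b) * q + p = G + b := Nat.div_add_mod _ _
  have e3 : ((b : ℝ) + b) * q + p = G + b := by exact_mod_cast e2
  have hbr : (0 : ℝ) < b := by exact_mod_cast hb
  have hb2 : (0 : ℝ) < (b : ℝ) + b := by linarith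
  have e4 : (G : ℝ) / ((b + b : ℕ) : ℝ) + 1 / 2 = q + p / ((b : ℝ) + b) := by
    push_cast
    rw [div_add_div _ _ hb2.ne' two_ne_zero, eq_comm, ← sub_eq_zero]
    have : (p : ℝ) = G + b - (b + b) * q := by linarith
    rw [this]
    field_simp
    ring
  have hp2 : p < b + b := Nat.mod_lt _ (by omega)
  rw [e4]
  by_cases h1 : b + b ≤ 80 * p
  · have h2 : ¬ (80 * p + (b + b) ≤ 80 * (b + b)) := fun h2 => h ⟨h1, h2⟩
    refine ⟨(q : ℤ) + 1, ?_⟩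
    have h3 : (80 : ℝ) * (b + b) < 80 * p + (b + b) := by exact_mod_cast Nat.lt_of_not_le h2
    have h4 : (p : ℝ) < b + b := by exact_mod_cast hp2
    have h5 : (p : ℝ) / (b + b) < 1 := by rw [div_lt_one hb2]; exact h4
    have h6 : (79 : ℝ) / 80 < (p : ℝ) / (b + b) := by
      rw [lt_div_iff₀ hb2]
      linarith
    rw [abs_lt]
    push_cast
    constructor <;> linarith
  · refine ⟨(q : ℤ), ?_⟩
    have h3 : (80 : ℝ) * p < b + b := by exact_mod_cast Nat.lt_of_not_le h1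
    have h5 : (p : ℝ) / (b + b) < 1 / 80 := by
      rw [div_lt_iff₀ hb2]
      linarith
    have h6 : 0 ≤ (p : ℝ) / (b + b) := by positivity
    rw [abs_lt]
    push_cast
    constructor <;> linarith

/-- The number `H`. -/
private theorem a5_H (R m G A : ℕ) (hR : 10 ^ 7 ≤ R) (hm : 30 * (R + 1) ^ 2 ≤ m)
    (hm2 : 10 ^ 10 * m ≤ 2 * R ^ 5) (hG1 : m ≤ 2 * G) (hG2 : G ≤ 4 * m) (hA1 : 4 * R ≤ 10 * A)
    (hA2 : 10 * A ≤ 4 * R + 16) :
    ∃ H, 60 ≤ H ∧ 60 * H ≤ R ∧ 240 * G * (2 * H) ^ 5 ≤ a5P A (2 * H) ∧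
      a5P A (2 * (H + 1)) < 240 * G * (2 * (H + 1)) ^ 5 := by
  classical
  have h60 : 240 * G * (2 * 60) ^ 5 ≤ a5P A (2 * 60) := by
    refine le_trans ?_ (a5P_ge _ _)
    have e1 : (4 * R) ^ 6 ≤ (10 * A) ^ 6 := Nat.pow_le_pow_left hA1 6
    have e2 : 10 ^ 7 * R ^ 5 ≤ R ^ 6 := by
      calc 10 ^ 7 * R ^ 5 ≤ R * R ^ 5 := Nat.mul_le_mul_right _ hR
        _ = R ^ 6 := by ring
    have e3 : (4 * R) ^ 6 = 4096 * R ^ 6 := by ring
    have e4 : (10 * A) ^ 6 = 1000000 * A ^ 6 := by ring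
    have e5 : 10 ^ 10 * G ≤ 8 * R ^ 5 := by omega
    rw [e3, e4] at e1
    have e6 : 240 * G * (2 * 60) ^ 5 = 5971968000000 * G := by ring
    rw [e6]
    omega
  have hK : 60 ≤ R / 60 := by omega
  have hfail : ¬ (240 * G * (2 * (R / 60)) ^ 5 ≤ a5P A (2 * (R / 60))) := by
    intro h
    set K := R / 60 with hKdef
    have k1 : 60 * K ≤ R := Nat.mul_div_le _ _
    have k2 : R < 60 * (K + 1) := Nat.lt_mul_div_succ _ (by norm_num)
    have e1 : a5P A (2 * K) ≤ R ^ 6 := a5P_le (by omega)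
    have e2 : R ≤ 61 * K := by omega
    have e3 : 15 * R ^ 2 ≤ G := by
      have : R ^ 2 ≤ (R + 1) ^ 2 := Nat.pow_le_pow_left (Nat.le_succ _) 2
      omega
    have e4 : R ^ 5 ≤ (61 * K) ^ 5 := Nat.pow_le_pow_left e2 5
    have e5 : 240 * (15 * R ^ 2) * (2 * K) ^ 5 ≤ R ^ 6 :=
      (Nat.mul_le_mul_right _ (Nat.mul_le_mul_left _ e3)).trans (h.trans e1)
    have e6 : 61 ^ 5 * (240 * (15 * R ^ 2) * (2 * K) ^ 5) =
        115200 * R ^ 2 * (61 * K) ^ 5 := by ring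
    have e7 : 115200 * R ^ 2 * R ^ 5 ≤ 61 ^ 5 * R ^ 6 :=
      (Nat.mul_le_mul_left _ e4).trans (e6.symm.le.trans (Nat.mul_le_mul_left _ e5))
    have e8 : 115200 * R ^ 2 * R ^ 5 = (115200 * R) * R ^ 6 := by ring
    rw [e8] at e7
    have e9 : 115200 * R ≤ 61 ^ 5 := Nat.le_of_mul_le_mul_right e7 (by positivity)
    omega
  set H := Nat.findGreatest (fun H => 240 * G * (2 * H) ^ 5 ≤ a5P A (2 * H)) (R / 60) with hH
  have h1 : 60 ≤ H := Nat.le_findGreatest hK h60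
  have h2 : H ≤ R / 60 := Nat.findGreatest_le _
  have h3 : 240 * G * (2 * H) ^ 5 ≤ a5P A (2 * H) :=
    Nat.findGreatest_spec (P := fun H => 240 * G * (2 * H) ^ 5 ≤ a5P A (2 * H)) hK h60
  have h4 : H ≠ R / 60 := fun h => hfail (h ▸ h3)
  refine ⟨H, h1, by omega, h3, ?_⟩
  exact Nat.lt_of_not_le (Nat.findGreatest_is_greatest
    (P := fun H => 240 * G * (2 * H) ^ 5 ≤ a5P A (2 * H)) (n := R / 60) (k := H + 1)
    (Nat.lt_succ_self _) (by omega))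

theorem tAl5 : S_Al5 := by
  intro R m G hR hm hm2 hG1 hG2
  set c := (R + 4) / 5 with hc
  have c1 : R ≤ 5 * c := by omega
  have c2 : 5 * c ≤ R + 4 := by omega
  obtain ⟨H, hH1, hH2, hH3, hH4⟩ := a5_H R m G (2 * c) hR hm hm2 hG1 hG2 (by omega) (by omega)
  by_contra hcon
  have hnear : ∀ i : ℕ, i ≤ 5 → ∃ z : ℤ,
      |(G : ℝ) / ((2 * c : ℕ) + i * ((2 * H : ℕ) : ℝ)) + 1 / 2 - z| < 1 / 80 := by
    intro i hi
    have e1 : i * (2 * H) ≤ 5 * (2 * H) := Nat.mul_le_mul_right _ hi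
    obtain ⟨z, hz⟩ := a5_near G (2 * c + i * (2 * H)) ⟨c + i * H, by ring⟩ (by omega) (by
      intro h
      exact hcon ⟨2 * c + i * (2 * H), ⟨c + i * H, by ring⟩, by omega, by omega, h.1, h.2⟩)
    refine ⟨z, ?_⟩
    have e2 : ((2 * c + i * (2 * H) : ℕ) : ℝ) = (2 * c : ℕ) + i * ((2 * H : ℕ) : ℝ) := by
      push_cast
      ring
    rw [← e2]
    exact hz
  set A : ℝ := ((2 * c : ℕ) : ℝ) with hA
  set h : ℝ := ((2 * H : ℕ) : ℝ) with hh
  have hA0 : 0 < A := by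
    rw [hA]
    exact_mod_cast (by omega : 0 < 2 * c)
  have hh0 : 0 ≤ h := Nat.cast_nonneg _
  have hdiff := a5_diff A h G hA0 hh0
  set Q : ℝ := A * (A + h) * (A + 2 * h) * (A + 3 * h) * (A + 4 * h) * (A + 5 * h) with hQ
  have hQ0 : 0 < Q := by positivity
  have hQP : ((a5P (2 * c) (2 * H) : ℕ) : ℝ) = Q := by
    rw [a5P, hQ, hA, hh]
    push_cast
    ring
  have k1 : 240 * (G : ℝ) * h ^ 5 ≤ Q := by
    rw [← hQP, hh]
    exact_mod_cast hH3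
  have k2 : (60 : ℝ) ^ 5 * Q < 61 ^ 5 * (240 * (G : ℝ) * h ^ 5) := by
    have e1 : a5P (2 * c) (2 * H) ≤ a5P (2 * c) (2 * (H + 1)) := a5P_mono (by omega)
    have e2 : 60 * (2 * (H + 1)) ≤ 61 * (2 * H) := by omega
    have e3 : (60 * (2 * (H + 1))) ^ 5 ≤ (61 * (2 * H)) ^ 5 := Nat.pow_le_pow_left e2 5
    have e4 : 60 ^ 5 * a5P (2 * c) (2 * H) < 61 ^ 5 * (240 * G * (2 * H) ^ 5) := by
      calc 60 ^ 5 * a5P (2 * c) (2 * H)
          < 60 ^ 5 * (240 * G * (2 * (H + 1)) ^ 5) :=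
            Nat.mul_lt_mul_of_pos_left (lt_of_le_of_lt e1 hH4) (by norm_num)
        _ = 240 * G * (60 * (2 * (H + 1))) ^ 5 := by ring
        _ ≤ 240 * G * (61 * (2 * H)) ^ 5 := Nat.mul_le_mul_left _ e3
        _ = 61 ^ 5 * (240 * G * (2 * H) ^ 5) := by ring
    rw [← hQP, hh]
    exact_mod_cast e4
  set D : ℝ := 120 * (G : ℝ) * h ^ 5 / Q with hD
  have d1 : D ≤ 1 / 2 := by
    rw [hD, div_le_iff₀ hQ0]
    linarith
  have d2 : 0.46 ≤ D := by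
    rw [hD, le_div_iff₀ hQ0]
    have : (0 : ℝ) ≤ 240 * (G : ℝ) * h ^ 5 := by positivity
    norm_num at k2
    linarith
  obtain ⟨z0, hz0⟩ := hnear 0 (by norm_num)
  obtain ⟨z1, hz1⟩ := hnear 1 (by norm_num)
  obtain ⟨z2, hz2⟩ := hnear 2 (by norm_num)
  obtain ⟨z3, hz3⟩ := hnear 3 (by norm_num)
  obtain ⟨z4, hz4⟩ := hnear 4 (by norm_num)
  obtain ⟨z5, hz5⟩ := hnear 5 (by norm_num)
  rw [abs_lt] at hz0 hz1 hz2 hz3 hz4 hz5
  simp only [Nat.cast_zero, zero_mul, add_zero, Nat.cast_one, one_mul, Nat.cast_ofNat] at *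
  set Z : ℤ := z0 - 5 * z1 + 10 * z2 - 10 * z3 + 5 * z4 - z5 with hZ
  have hZr : (Z : ℝ) = z0 - 5 * z1 + 10 * z2 - 10 * z3 + 5 * z4 - z5 := by
    rw [hZ]
    push_cast
    ring
  have f1 : D - Z < 0.4 := by
    rw [hZr, ← hdiff]
    linarith [hz0.1, hz0.2, hz1.1, hz1.2, hz2.1, hz2.2, hz3.1, hz3.2, hz4.1, hz4.2, hz5.1, hz5.2]
  have f2 : -0.4 < D - Z := by
    rw [hZr, ← hdiff]
    linarith [hz0.1, hz0.2, hz1.1, hz1.2, hz2.1, hz2.2, hz3.1, hz3.2, hz4.1, hz4.2, hz5.1, hz5.2]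
  have f3 : (0 : ℝ) < Z := by linarith
  have f4 : (Z : ℝ) < 1 := by linarith
  have f5 : 0 < Z := by exact_mod_cast f3
  have f6 : Z < 1 := by exact_mod_cast f4
  omega

end ShghPS
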