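import Pool.Agent.ShghPS.Spec

/-!
# ShghPS, AlN: the alignment by the `n`-th difference
-/

namespace ShghPS

open MvPolynomial ShghJ ShghC ShghK

universe u

/-- ALN: the alignment. Pure. `a_i = A0 + 2 H i`, `i = 0, .., n`, `A0` the least even number with
`4 R ≤ 10 A0`; the `n`-th difference of `G / a_i` is `n! G (2H)^n / ∏ a_i`, and for the largest
`H` in `[15 n, R / (12 n)]` such that this number is `≤ 1/2`, it is `≥ 7/15`. -/
def S_AlN : Prop := ∀ n R m G : ℕ, 1 ≤ n → 20 * (75 * n ^ 2) ^ n * m ≤ R ^ (n + 1) →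
  20 ^ n * R ≤ m → 400 * n ^ 2 ≤ R → m ≤ 2 * G → G ≤ 4 * m →
  ∃ a, Even a ∧ 4 * R ≤ 10 * a ∧ 10 * a ≤ 6 * R ∧
    2 * a ≤ 5 * 2 ^ n * ((G + a / 2) % a) ∧ 5 * 2 ^ n * ((G + a / 2) % a) + 2 * a ≤ 5 * 2 ^ n * a

private theorem an_pascal (n : ℕ) (f : ℕ → ℝ) :
    ∑ i ∈ Finset.range (n + 2), (-1 : ℝ) ^ i * (n + 1).choose i * f i =
      ∑ i ∈ Finset.range (n + 1), (-1 : ℝ) ^ i * n.choose i * f i -
        ∑ i ∈ Finset.range (n + 1), (-1 : ℝ) ^ i * n.choose i * f (i + 1) := by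
  have h1 : ∑ i ∈ Finset.range (n + 1), (-1 : ℝ) ^ i * n.choose i * f i =
      ∑ i ∈ Finset.range (n + 2), (-1 : ℝ) ^ i * n.choose i * f i := by
    rw [Finset.sum_range_succ _ (n + 1), Nat.choose_succ_self]
    simp
  rw [h1, Finset.sum_range_succ' _ (n + 1), Finset.sum_range_succ' _ (n + 1)]
  have h2 : ∀ i, (-1 : ℝ) ^ (i + 1) * (n + 1).choose (i + 1) * f (i + 1) =
      (-1 : ℝ) ^ (i + 1) * n.choose (i + 1) * f (i + 1) - (-1 : ℝ) ^ i * n.choose i * f (i + 1) := by
    intro i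
    rw [Nat.choose_succ_succ]
    push_cast
    ring
  rw [Finset.sum_congr rfl fun i _ => h2 i, Finset.sum_sub_distrib]
  simp only [Nat.choose_zero_right, pow_zero]
  ring

private theorem an_diff (h G : ℝ) (hh : 0 ≤ h) (n : ℕ) : ∀ A : ℝ, 0 < A →
    ∑ i ∈ Finset.range (n + 1), (-1 : ℝ) ^ i * n.choose i * (G / (A + i * h)) =
      n.factorial * G * h ^ n / ∏ i ∈ Finset.range (n + 1), (A + i * h) := by
  induction n with
  | zero => intro A hA; simp
  | succ n ih =>
    intro A hA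
    have hpos : ∀ B : ℝ, 0 < B → ∀ k, 0 < ∏ i ∈ Finset.range k, (B + (i : ℕ) * h) := fun B hB k =>
      Finset.prod_pos fun i _ => by positivity
    rw [an_pascal n fun i => G / (A + i * h)]
    have e1 : ∑ i ∈ Finset.range (n + 1), (-1 : ℝ) ^ i * n.choose i * (G / (A + ((i + 1 : ℕ) : ℝ) * h)) =
        ∑ i ∈ Finset.range (n + 1), (-1 : ℝ) ^ i * n.choose i * (G / (A + h + i * h)) := by
      refine Finset.sum_congr rfl fun i _ => ?_
      push_cast
      ring_nf
    rw [e1, ih A hA, ih (A + h) (by linarith)]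
    have e2 : ∏ i ∈ Finset.range (n + 1 + 1), (A + (i : ℕ) * h) =
        (∏ i ∈ Finset.range (n + 1), (A + (i : ℕ) * h)) * (A + (n + 1) * h) := by
      rw [Finset.prod_range_succ _ (n + 1)]
      push_cast
      ring
    have e3 : ∏ i ∈ Finset.range (n + 1 + 1), (A + (i : ℕ) * h) =
        A * ∏ i ∈ Finset.range (n + 1), (A + h + (i : ℕ) * h) := by
      rw [Finset.prod_range_succ' _ (n + 1)]
      have : ∏ k ∈ Finset.range (n + 1), (A + ((k + 1 : ℕ) : ℝ) * h) =
          ∏ i ∈ Finset.range (n + 1), (A + h + (i : ℕ) * h) :=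
        Finset.prod_congr rfl fun i _ => by push_cast; ring
      rw [this]
      push_cast
      ring
    have p1 := hpos A hA (n + 1)
    have p2 := hpos (A + h) (by linarith) (n + 1)
    have p3 := hpos A hA (n + 1 + 1)
    have q : 0 < A + (n + 1) * h := by positivity
    rw [Nat.factorial_succ]
    generalize ∏ i ∈ Finset.range (n + 1 + 1), (A + (i : ℕ) * h) = Pz at e2 e3 p3 ⊢
    generalize ∏ i ∈ Finset.range (n + 1), (A + (i : ℕ) * h) = Pa at e2 p1 ⊢
    generalize ∏ i ∈ Finset.range (n + 1), (A + h + (i : ℕ) * h) = Pb at e3 p2 ⊢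
    have f1 : (n.factorial : ℝ) * G * h ^ n / Pa = n.factorial * G * h ^ n * (A + (n + 1) * h) / Pz := by
      rw [e2]
      field_simp
    have f2 : (n.factorial : ℝ) * G * h ^ n / Pb = n.factorial * G * h ^ n * A / Pz := by
      rw [e3]
      field_simp
    rw [f1, f2, ← sub_div]
    congr 1
    push_cast
    ring

private theorem an_near (G a N : ℕ) (ha : Even a) (ha0 : 0 < a) (hN : 0 < N)
    (h : ¬ (2 * a ≤ 5 * N * ((G + a / 2) % a) ∧ 5 * N * ((G + a / 2) % a) + 2 * a ≤ 5 * N * a)) :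
    ∃ z : ℤ, |(G : ℝ) / a + 1 / 2 - z| ≤ 2 / (5 * N) := by
  obtain ⟨b, rfl⟩ := ha
  have hb : 0 < b := by omega
  have e1 : (b + b) / 2 = b := by omega
  rw [e1] at h
  set p := (G + b) % (b + b) with hp
  set q := (G + b) / (b + b) with hq
  have e2 : (b + b) * q + p = G + b := Nat.div_add_mod _ _
  have e3 : ((b : ℝ) + b) * q + p = G + b := by exact_mod_cast e2
  have hbr : (0 : ℝ) < b := by exact_mod_cast hb
  have hb2 : (0 : ℝ) < (b : ℝ) + b := by linarith
  have hNr : (0 : ℝ) < N := by exact_mod_cast hN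
  have e4 : (G : ℝ) / ((b + b : ℕ) : ℝ) + 1 / 2 = q + p / ((b : ℝ) + b) := by
    push_cast
    rw [div_add_div _ _ hb2.ne' two_ne_zero, eq_comm, ← sub_eq_zero]
    have : (p : ℝ) = G + b - (b + b) * q := by linarith
    rw [this]
    field_simp
    ring
  have hp2 : p < b + b := Nat.mod_lt _ (by omega)
  have h5N : (0 : ℝ) < 5 * N := by linarith
  rw [e4]
  by_cases h1 : 2 * (b + b) ≤ 5 * N * p
  · have h2 : ¬ (5 * N * p + 2 * (b + b) ≤ 5 * N * (b + b)) := fun h2 => h ⟨h1, h2⟩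
    refine ⟨(q : ℤ) + 1, ?_⟩
    have h3 : (5 : ℝ) * N * (b + b) < 5 * N * p + 2 * (b + b) := by
      exact_mod_cast Nat.lt_of_not_le h2
    have h4 : (p : ℝ) < b + b := by exact_mod_cast hp2
    have h5 : (p : ℝ) / (b + b) < 1 := by rw [div_lt_one hb2]; exact h4
    have h6 : 1 - 2 / (5 * N) < (p : ℝ) / (b + b) := by
      rw [lt_div_iff₀ hb2, sub_mul, one_mul, div_mul_eq_mul_div, sub_lt_iff_lt_add]
      rw [← sub_lt_iff_lt_add', lt_div_iff₀ h5N]
      linarith
    rw [abs_le]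
    push_cast
    have h7 : (0 : ℝ) < 2 / (5 * N) := by positivity
    constructor <;> linarith
  · refine ⟨(q : ℤ), ?_⟩
    have h3 : (5 : ℝ) * N * p < 2 * (b + b) := by exact_mod_cast Nat.lt_of_not_le h1
    have h5 : (p : ℝ) / (b + b) < 2 / (5 * N) := by
      rw [div_lt_div_iff₀ hb2 h5N]
      linarith
    have h6 : 0 ≤ (p : ℝ) / (b + b) := by positivity
    rw [abs_le]
    push_cast
    constructor <;> linarith

private def anP (n A h : ℕ) : ℕ := ∏ i ∈ Finset.range (n + 1), (A + i * h)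

private theorem anP_mono {n A h h' : ℕ} (hh : h ≤ h') : anP n A h ≤ anP n A h' :=
  Finset.prod_le_prod' fun i _ => Nat.add_le_add_left (Nat.mul_le_mul_left _ hh) _

private theorem anP_ge (n A h : ℕ) : A ^ (n + 1) ≤ anP n A h := by
  have := Finset.prod_le_prod' (s := Finset.range (n + 1)) (f := fun _ => A)
    (g := fun i => A + i * h) fun i _ => Nat.le_add_right _ _
  unfold anP
  simpa using this

private theorem anP_le {n A h B : ℕ} (hB : A + n * h ≤ B) : anP n A h ≤ B ^ (n + 1) := by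
  have := Finset.prod_le_prod' (s := Finset.range (n + 1)) (g := fun _ => B)
    (f := fun i => A + i * h) fun _ hi => by
      have h1 := Nat.lt_succ_iff.1 (Finset.mem_range.1 hi)
      exact (Nat.add_le_add_left (Nat.mul_le_mul_right _ h1) _).trans hB
  unfold anP
  simpa using this

private theorem an_fact (n : ℕ) : (7 * n) ^ n ≤ 20 ^ n * n.factorial := by
  have h1 := Real.pow_div_factorial_le_exp (n : ℝ) (Nat.cast_nonneg n) n
  have h2 : Real.exp (n : ℝ) ≤ (20 / 7 : ℝ) ^ n := by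
    have h3 : Real.exp (n : ℝ) = Real.exp 1 ^ n := by rw [← Real.exp_nat_mul, mul_one]
    rw [h3]
    refine pow_le_pow_left₀ (Real.exp_pos 1).le ?_ n
    have := Real.exp_one_lt_d9
    linarith
  have h4 : (n : ℝ) ^ n / n.factorial ≤ (20 / 7) ^ n := h1.trans h2
  have hf : (0 : ℝ) < n.factorial := by exact_mod_cast Nat.factorial_pos n
  rw [div_le_iff₀ hf, div_pow, div_mul_eq_mul_div, le_div_iff₀ (by positivity)] at h4
  have h5 : ((7 * n : ℕ) : ℝ) ^ n ≤ ((20 ^ n * n.factorial : ℕ) : ℝ) := by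
    push_cast
    rw [mul_pow]
    linarith
  exact_mod_cast h5

private theorem an_H (n R m G A : ℕ) (hn : 1 ≤ n) (hm2 : 20 * (75 * n ^ 2) ^ n * m ≤ R ^ (n + 1))
    (hm : 20 ^ n * R ≤ m) (hR : 400 * n ^ 2 ≤ R) (hG1 : m ≤ 2 * G) (hG2 : G ≤ 4 * m)
    (hA1 : 4 * R ≤ 10 * A) (hA2 : 10 * A ≤ 4 * R + 16) :
    ∃ H, 15 * n ≤ H ∧ 12 * n * H ≤ R ∧ 2 * n.factorial * G * (2 * H) ^ n ≤ anP n A (2 * H) ∧
      anP n A (2 * (H + 1)) < 2 * n.factorial * G * (2 * (H + 1)) ^ n := by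
  classical
  have hn2 : n ≤ n ^ 2 := Nat.le_self_pow (by norm_num) n
  have h15 : 2 * n.factorial * G * (2 * (15 * n)) ^ n ≤ anP n A (2 * (15 * n)) := by
    refine le_trans ?_ (anP_ge _ _ _)
    have e1 : (4 * R) ^ (n + 1) ≤ (10 * A) ^ (n + 1) := Nat.pow_le_pow_left hA1 _
    have e2 : n.factorial ≤ n ^ n := Nat.factorial_le_pow n
    have e3 : 2 * n.factorial * G * (2 * (15 * n)) ^ n ≤ 8 * (30 * n ^ 2) ^ n * m := by
      calc 2 * n.factorial * G * (2 * (15 * n)) ^ n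
          ≤ 2 * n ^ n * (4 * m) * (2 * (15 * n)) ^ n := by gcongr
        _ = 8 * (n ^ n * (2 * (15 * n)) ^ n) * m := by ring
        _ = 8 * (30 * n ^ 2) ^ n * m := by
            rw [← mul_pow]
            congr 3
            ring
    have e4 : 10 ^ (n + 1) * (2 * n.factorial * G * (2 * (15 * n)) ^ n) ≤
        10 ^ (n + 1) * A ^ (n + 1) := by
      calc 10 ^ (n + 1) * (2 * n.factorial * G * (2 * (15 * n)) ^ n)
          ≤ 10 ^ (n + 1) * (8 * (30 * n ^ 2) ^ n * m) := Nat.mul_le_mul_left _ e3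
        _ = 80 * (10 ^ n * (30 * n ^ 2) ^ n) * m := by ring
        _ = 80 * (4 ^ n * (75 * n ^ 2) ^ n) * m := by
            rw [← mul_pow, ← mul_pow]
            congr 3
            ring
        _ = 4 ^ (n + 1) * (20 * (75 * n ^ 2) ^ n * m) := by ring
        _ ≤ 4 ^ (n + 1) * R ^ (n + 1) := Nat.mul_le_mul_left _ hm2
        _ = (4 * R) ^ (n + 1) := by rw [mul_pow]
        _ ≤ (10 * A) ^ (n + 1) := e1
        _ = 10 ^ (n + 1) * A ^ (n + 1) := by rw [mul_pow]
    exact Nat.le_of_mul_le_mul_left e4 (by positivity)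
  have h12 : 0 < 12 * n := by omega
  have hR0 : 0 < R := by
    have : 1 ≤ n ^ 2 := Nat.one_le_pow _ _ hn
    omega
  have hK : 15 * n ≤ R / (12 * n) := by
    rw [Nat.le_div_iff_mul_le h12]
    have : 15 * n * (12 * n) = 180 * n ^ 2 := by ring
    omega
  have hfail : ¬ (2 * n.factorial * G * (2 * (R / (12 * n))) ^ n ≤ anP n A (2 * (R / (12 * n)))) := by
    intro h
    obtain ⟨K, hKd⟩ : ∃ K, K = R / (12 * n) := ⟨_, rfl⟩
    rw [← hKd] at h
    have k1 : 12 * n * K ≤ R := by rw [hKd]; exact Nat.mul_div_le _ _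
    have k2 : R < 12 * n * (K + 1) := by rw [hKd]; exact Nat.lt_mul_div_succ _ h12
    obtain ⟨x, hx⟩ : ∃ x, x = n * K := ⟨_, rfl⟩
    have k3 : 12 * x ≤ R := by rw [hx, ← mul_assoc]; exact k1
    have k4 : R < 12 * x + 12 * n := by
      rw [hx]
      calc R < 12 * n * (K + 1) := k2
        _ = 12 * (n * K) + 12 * n := by ring
    have e1 : anP n A (2 * K) ≤ R ^ (n + 1) := anP_le (by
      have : n * (2 * K) = 2 * x := by rw [hx]; ring
      omega)
    have e2 : R * (n.factorial * 20 ^ n * (2 * K) ^ n) ≤ R * R ^ n := by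
      calc R * (n.factorial * 20 ^ n * (2 * K) ^ n)
          = n.factorial * (20 ^ n * R) * (2 * K) ^ n := by ring
        _ ≤ n.factorial * (2 * G) * (2 * K) ^ n :=
            Nat.mul_le_mul_right _ (Nat.mul_le_mul_left _ (hm.trans hG1))
        _ = 2 * n.factorial * G * (2 * K) ^ n := by ring
        _ ≤ R ^ (n + 1) := h.trans e1
        _ = R * R ^ n := by ring
    have e3 := Nat.le_of_mul_le_mul_left e2 hR0
    have e4 : (14 * x) ^ n ≤ R ^ n := by
      calc (14 * x) ^ n = (7 * n) ^ n * (2 * K) ^ n := by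
            rw [← mul_pow, hx]
            congr 1
            ring
        _ ≤ 20 ^ n * n.factorial * (2 * K) ^ n := Nat.mul_le_mul_right _ (an_fact n)
        _ = n.factorial * 20 ^ n * (2 * K) ^ n := by ring
        _ ≤ R ^ n := e3
    have e5 : 14 * x ≤ R := (Nat.pow_le_pow_iff_left (by omega)).1 e4
    omega
  set H := Nat.findGreatest (fun H => 2 * n.factorial * G * (2 * H) ^ n ≤ anP n A (2 * H))
    (R / (12 * n)) with hH
  have h1 : 15 * n ≤ H := Nat.le_findGreatest hK h15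
  have h2 : H ≤ R / (12 * n) := Nat.findGreatest_le _
  have h3 : 2 * n.factorial * G * (2 * H) ^ n ≤ anP n A (2 * H) :=
    Nat.findGreatest_spec (P := fun H => 2 * n.factorial * G * (2 * H) ^ n ≤ anP n A (2 * H))
      hK h15
  have h4 : H ≠ R / (12 * n) := fun h => hfail (h ▸ h3)
  refine ⟨H, h1, ?_, h3, ?_⟩
  · rw [Nat.le_div_iff_mul_le h12] at h2
    rw [mul_comm]
    exact h2
  · exact Nat.lt_of_not_le (Nat.findGreatest_is_greatest
      (P := fun H => 2 * n.factorial * G * (2 * H) ^ n ≤ anP n A (2 * H)) (n := R / (12 * n))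
      (k := H + 1) (Nat.lt_succ_self _) (by omega))

theorem tAlN : S_AlN := by
  intro n R m G hn hm2 hm hR hG1 hG2
  set c := (R + 4) / 5 with hc
  have c1 : R ≤ 5 * c := by omega
  have c2 : 5 * c ≤ R + 4 := by omega
  obtain ⟨H, hH1, hH2, hH3, hH4⟩ := an_H n R m G (2 * c) hn hm2 hm hR hG1 hG2 (by omega) (by omega)
  have hn2 : n ≤ n ^ 2 := Nat.le_self_pow (by norm_num) n
  have hN0 : 0 < 2 ^ n := by positivity
  by_contra hcon
  obtain ⟨x, hx⟩ : ∃ x, x = n * H := ⟨_, rfl⟩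
  have hx12 : 12 * x ≤ R := by rw [hx, ← mul_assoc]; exact hH2
  have hnear : ∀ i : ℕ, i ≤ n → ∃ z : ℤ,
      |(G : ℝ) / ((2 * c : ℕ) + i * ((2 * H : ℕ) : ℝ)) + 1 / 2 - z| ≤ 2 / (5 * (2 ^ n : ℕ)) := by
    intro i hi
    have e1 : i * (2 * H) ≤ n * (2 * H) := Nat.mul_le_mul_right _ hi
    have e0 : n * (2 * H) = 2 * x := by rw [hx]; ring
    obtain ⟨z, hz⟩ := an_near G (2 * c + i * (2 * H)) (2 ^ n) ⟨c + i * H, by ring⟩ (by omega) hN0
      (by
      intro h
      exact hcon ⟨2 * c + i * (2 * H), ⟨c + i * H, by ring⟩, by omega, by omega, h.1, h.2⟩)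
    refine ⟨z, ?_⟩
    have e2 : ((2 * c + i * (2 * H) : ℕ) : ℝ) = (2 * c : ℕ) + i * ((2 * H : ℕ) : ℝ) := by
      push_cast
      ring
    rw [← e2]
    exact hz
  set A : ℝ := ((2 * c : ℕ) : ℝ) with hA
  set h : ℝ := ((2 * H : ℕ) : ℝ) with hh
  have hA0 : 0 < A := by
    rw [hA]
    exact_mod_cast (by omega : 0 < 2 * c)
  have hh0 : 0 ≤ h := Nat.cast_nonneg _
  have hdiff := an_diff h G hh0 n A hA0
  set Q : ℝ := ∏ i ∈ Finset.range (n + 1), (A + (i : ℕ) * h) with hQ
  have hQ0 : 0 < Q := Finset.prod_pos fun i _ => by positivity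
  have hQP : ((anP n (2 * c) (2 * H) : ℕ) : ℝ) = Q := by
    rw [anP, hQ, Nat.cast_prod]
    exact Finset.prod_congr rfl fun i _ => by rw [hA, hh]; push_cast; ring
  have k1 : 2 * n.factorial * (G : ℝ) * h ^ n ≤ Q := by
    rw [← hQP, hh]
    exact_mod_cast hH3
  have k2 : Q < 2 * n.factorial * (G : ℝ) * ((2 * (H + 1) : ℕ) : ℝ) ^ n := by
    have e1 : anP n (2 * c) (2 * H) ≤ anP n (2 * c) (2 * (H + 1)) := anP_mono (by omega)
    rw [← hQP]
    exact_mod_cast lt_of_le_of_lt e1 hH4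
  set D : ℝ := n.factorial * (G : ℝ) * h ^ n / Q with hD
  have d1 : D ≤ 1 / 2 := by
    rw [hD, div_le_iff₀ hQ0]
    linarith
  have d2 : 7 / 15 ≤ D := by
    -- (H / (H + 1)) ^ n ≥ 14 / 15
    have hH0 : (0 : ℝ) < (H : ℝ) + 1 := by positivity
    have b1 : (14 : ℝ) / 15 ≤ ((H : ℝ) / (H + 1)) ^ n := by
      have b2 := one_add_mul_le_pow (a := -(1 / ((H : ℝ) + 1))) (by
        have : 1 / ((H : ℝ) + 1) ≤ 1 := by
          rw [div_le_one hH0]
          have : (0 : ℝ) ≤ H := Nat.cast_nonneg _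
          linarith
        linarith) n
      have b3 : 1 + -(1 / ((H : ℝ) + 1)) = H / (H + 1) := by
        field_simp
        ring
      rw [b3] at b2
      refine le_trans ?_ b2
      have b4 : (n : ℝ) * (1 / ((H : ℝ) + 1)) ≤ 1 / 15 := by
        rw [mul_one_div, div_le_div_iff₀ hH0 (by norm_num)]
        have : ((15 * n : ℕ) : ℝ) ≤ H := by exact_mod_cast hH1
        push_cast at this
        linarith
      linarith
    have b5 : h = ((2 * (H + 1) : ℕ) : ℝ) * ((H : ℝ) / (H + 1)) := by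
      rw [hh]
      push_cast
      field_simp
    have b6 : 14 / 15 * (2 * n.factorial * (G : ℝ) * ((2 * (H + 1) : ℕ) : ℝ) ^ n) ≤
        2 * n.factorial * (G : ℝ) * h ^ n := by
      rw [b5, mul_pow]
      have b7 : (0 : ℝ) ≤ 2 * n.factorial * (G : ℝ) * ((2 * (H + 1) : ℕ) : ℝ) ^ n := by positivity
      have b8 := mul_le_mul_of_nonneg_left b1 b7
      linarith
    rw [hD, le_div_iff₀ hQ0]
    linarith
  choose! z hz using hnear
  set Z : ℤ := ∑ i ∈ Finset.range (n + 1), (-1) ^ i * n.choose i * z i with hZ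
  have hZr : (Z : ℝ) = ∑ i ∈ Finset.range (n + 1), (-1 : ℝ) ^ i * n.choose i * z i := by
    rw [hZ]
    push_cast
    rfl
  have halt : ∑ i ∈ Finset.range (n + 1), (-1 : ℝ) ^ i * n.choose i = 0 := by
    have := Int.alternating_sum_range_choose (n := n)
    rw [if_neg (by omega)] at this
    exact_mod_cast this
  have hDZ : D - Z = ∑ i ∈ Finset.range (n + 1),
      (-1 : ℝ) ^ i * n.choose i * (G / (A + i * h) + 1 / 2 - z i) := by
    have e1 : ∑ i ∈ Finset.range (n + 1), (-1 : ℝ) ^ i * n.choose i * (G / (A + i * h) + 1 / 2 - z i) =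
        ∑ i ∈ Finset.range (n + 1), (-1 : ℝ) ^ i * n.choose i * (G / (A + i * h)) +
          (∑ i ∈ Finset.range (n + 1), (-1 : ℝ) ^ i * n.choose i) * (1 / 2) -
          ∑ i ∈ Finset.range (n + 1), (-1 : ℝ) ^ i * n.choose i * z i := by
      rw [Finset.sum_mul, ← Finset.sum_add_distrib, ← Finset.sum_sub_distrib]
      exact Finset.sum_congr rfl fun i _ => by ring
    rw [e1, hdiff, halt, hZr]
    ring
  have habs : |D - Z| ≤ 2 / 5 := by
    rw [hDZ]
    refine (Finset.abs_sum_le_sum_abs _ _).trans ?_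
    have e1 : ∀ i ∈ Finset.range (n + 1),
        |(-1 : ℝ) ^ i * n.choose i * (G / (A + i * h) + 1 / 2 - z i)| ≤
          n.choose i * (2 / (5 * (2 ^ n : ℕ))) := by
      intro i hi
      rw [abs_mul, abs_mul, abs_pow, abs_neg, abs_one, one_pow, one_mul, Nat.abs_cast]
      exact mul_le_mul_of_nonneg_left (hz i (by have := Finset.mem_range.1 hi; omega))
        (Nat.cast_nonneg _)
    refine (Finset.sum_le_sum e1).trans ?_
    rw [← Finset.sum_mul]
    have e2 : ∑ i ∈ Finset.range (n + 1), (n.choose i : ℝ) = 2 ^ n := by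
      exact_mod_cast Nat.sum_range_choose n
    rw [e2]
    push_cast
    apply le_of_eq
    field_simp
  rw [abs_le] at habs
  have f3 : (0 : ℝ) < Z := by linarith
  have f4 : (Z : ℝ) < 1 := by linarith
  have f5 : 0 < Z := by exact_mod_cast f3
  have f6 : Z < 1 := by exact_mod_cast f4
  omega

end ShghPS
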