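import Pool.Agent.ShghPS.Spec

/-!
# ShghPS: the window of the strip (assembly)
-/

namespace ShghPS

open MvPolynomial ShghJ ShghC ShghK

universe u

private theorem band_blk (F : Type u) [Field F] [CharZero F] (h1 : S_BlkZ.{u}) (h2 : S_BlkE.{u})
    {μ j L g M W : ℕ} (e1 : j * (μ + 1) = L + 1 + g) (e2 : 3 ≤ j) (e3 : 4 * j ≤ μ)
    (e4 : 9 * μ ≤ 2 * g) (e5 : 10 * M ≤ μ) (e6 : μ * g + W ≤ M * (L + 1))
    (e7 : M * (2 * (j * (M + 1)) + 7 * M) ≤ 2 * W + 2 * (M * g)) : BlkC F μ j L W := by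
  intro t ht
  exact ⟨fun h => h2 F μ j L g M W t e1 e2 e3 e4 e5 e6 e7 ht h,
    fun h => h1 F μ j L g M W t e1 e2 e3 e4 e5 e6 e7 ht h⟩

private theorem band_floor {R m J : ℕ} (hR : 1 ≤ R) (hJ : 100 * J ≤ 65 * R) :
    J * ((1000000 * m ^ 2 + 1000 * m * R ^ 3) / R ^ 4) ≤ 1000000 * m ^ 2 / R ^ 3 + 650 * m := by
  have hq : (1000000 * m ^ 2 + 1000 * m * R ^ 3) / R ^ 4 * R ^ 4 ≤
      1000000 * m ^ 2 + 1000 * m * R ^ 3 := Nat.div_mul_le_self _ _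
  generalize (1000000 * m ^ 2 + 1000 * m * R ^ 3) / R ^ 4 = q at hq ⊢
  have hR3 : 0 < R ^ 3 := by positivity
  have h1 : (J * q) * R ^ 3 ≤ (1000000 * m ^ 2 + 650 * m * R ^ 3) := by
    have a1 : 100 * J * (q * R ^ 3) ≤ 65 * R * (q * R ^ 3) := Nat.mul_le_mul_right _ hJ
    have a2 : 65 * R * (q * R ^ 3) = 65 * (q * R ^ 4) := by ring
    have a3 : 100 * J * (q * R ^ 3) = 100 * ((J * q) * R ^ 3) := by ring
    have a4 : 0 ≤ m ^ 2 := Nat.zero_le _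
    have a5 : 1000 * m * R ^ 3 = 1000 * (m * R ^ 3) := by ring
    have a6 : 650 * m * R ^ 3 = 650 * (m * R ^ 3) := by ring
    rw [a6]
    rw [a5] at hq
    rw [a2, a3] at a1
    generalize m * R ^ 3 = z at hq ⊢
    generalize (J * q) * R ^ 3 = y at a1 ⊢
    generalize q * R ^ 4 = x at a1 hq
    generalize m ^ 2 = w at hq a4 ⊢
    omega
  have h2 : J * q ≤ (1000000 * m ^ 2 + 650 * m * R ^ 3) / R ^ 3 :=
    (Nat.le_div_iff_mul_le hR3).2 h1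
  rwa [Nat.add_mul_div_right _ _ hR3] at h2

private theorem band_th {R m J L : ℕ} (hR : 10 ^ 7 ≤ R) (hm : 1 ≤ m) (hJ : 100 * J ≤ 65 * R)
    (hJL : J * (L + 1) ≤ 4 * (R * m)) : J * (Wb m R + L + 1) ≤ Th m R := by
  have h1 := band_floor (m := m) (by omega : 1 ≤ R) hJ
  have h2 : J * (Wb m R + L + 1) =
      J * ((1000000 * m ^ 2 + 1000 * m * R ^ 3) / R ^ 4) + J + J * (L + 1) := by
    unfold Wb; ring
  have h3 : 650 * m ≤ R * m := Nat.mul_le_mul_right _ (by omega)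
  have h4 : R ≤ R * m := Nat.le_mul_of_pos_right _ hm
  have h5 : Th m R = 1000000 * m ^ 2 / R ^ 3 + 20 * (R * m) := by
    unfold Th; ring
  rw [h2, h5]
  generalize J * ((1000000 * m ^ 2 + 1000 * m * R ^ 3) / R ^ 4) = x at h1 ⊢
  generalize 1000000 * m ^ 2 / R ^ 3 = y at h1 ⊢
  generalize J * (L + 1) = z at hJL ⊢
  generalize R * m = w at h3 h4 hJL ⊢
  omega

theorem tBand (h1 : S_BlkZ.{u}) (h2 : S_BlkE.{u}) (h3 : S_StripW.{u}) (h4 : S_Num1)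
    (h5 : S_Num2) : S_Band.{u} := by
  intro F _ _ R m a g μ β δ L π hR hm ha1 ha2 hg1 hg2 hμ1 hμ2 hgb hβ hL hπ hπ1 hπ2
  obtain ⟨n1, n2, n3, n4, J, hJ1, hJ2, hJ3, hJ4, hJ5, hj⟩ :=
    h4 R m a g μ L π hR hm ha1 ha2 hg1 hg2 hμ1 hμ2 hπ hπ1 hπ2
  have hm1 : 1 ≤ m := by
    have : 1 ≤ (R + 1) ^ 2 := Nat.one_le_pow _ _ (by omega)
    omega
  have blk : ∀ j, (j = g / J ∨ j = g / J + 1) → BlkC F μ j L (Wb m R) := by
    intro j hjj
    obtain ⟨g', e1, e2, e3, e4⟩ := hj j hjj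
    have hj4 : j ≤ 4 * R := by
      rcases hjj with h | h
      · rw [h]; exact (Nat.le_succ _).trans hJ3
      · rw [h]; exact hJ3
    obtain ⟨M, f1, f2, f3, f4, f5⟩ := h5 R m μ (L + 1) j g' hR hm n1 n2 n3 n4 e1 e3 e4 e2 hj4
    exact band_blk F h1 h2 e1 e2 f1 f2 f3 f4 f5
  have hβ2 : 2 * (g / J + 1) ≤ β := by
    generalize g / J + 1 = w at hJ3 ⊢
    omega
  obtain ⟨c1, c2⟩ := h3 F (a ^ 2) m μ β δ L g J (Wb m R) hgb hL hJ1 hβ2 hJ4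
    (blk _ (Or.inl rfl)) (blk _ (Or.inr rfl))
  have hth : J * (Wb m R + L + 1) ≤ Th m R := band_th hR hm1 hJ2 hJ5
  generalize hN F (Sf (a ^ 2) (m + μ) δ) (Multiset.replicate (2 * g) m) = H at c1 c2 ⊢
  have hE : (((m + μ + 1) * (L + 1) : ℕ) : ℤ) = ((g * (μ * (μ + 1)) : ℕ) : ℤ) + π := by
    push_cast
    exact hπ
  generalize J * (Wb m R + L + 1) = x at c1 c2 hth
  generalize (m + μ + 1) * (L + 1) = y at c1 c2 hE
  generalize g * (μ * (μ + 1)) = z at c1 c2 hE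
  generalize Th m R = w at hth ⊢
  constructor
  · intro h
    have := c1 (by omega)
    omega
  · intro h
    exact c2 (by omega)

end ShghPS
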