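import Pool.Agent.ShghPS.Spec

/-!
# ShghPS, BlkE: the window of a box, exact side
-/

namespace ShghPS

open MvPolynomial ShghJ ShghC ShghK

universe u

private theorem blkE_TT (j μ : ℕ) : TT (Multiset.replicate (2 * j) μ + 0) = j * (μ * (μ + 1)) := by
  rw [add_zero]
  unfold TT
  rw [Multiset.map_replicate, Multiset.sum_replicate, smul_eq_mul]
  have h := two_T μ
  calc 2 * j * T μ = j * (2 * T μ) := by ring
    _ = j * (μ * (μ + 1)) := by rw [h]

private theorem blkE_phi (W x : ℤ) (hW : 0 ≤ W) (hx : W ≤ x) : phi W x = x := by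
  unfold phi
  rw [max_eq_right (le_trans hW hx), min_eq_left (by linarith), max_eq_left hx]

/-- many rows -/
private theorem blkE_rows (h2 : S_Rows.{u}) (F : Type u) [Field F] [CharZero F] (t L : ℕ)
    (B : Multiset ℕ) (r : ℕ) :
    hN F (Sf 0 (t + r) L) B ≤ hN F (Sf 0 t L) B + r * (L + 1) := by
  induction r with
  | zero => simp
  | succ r ih =>
    have h := (h2 F (t + r) L B).1
    rw [← Nat.add_assoc, Nat.succ_mul]
    omega

/-- the arithmetic of the least number of rows -/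
private theorem blkE_arith (μ j L g M W t2 : ℕ) (h1 : j * (μ + 1) = L + 1 + g) (h2 : 3 ≤ j)
    (h3 : 4 * j ≤ μ) (h4 : 9 * μ ≤ 2 * g) (h6 : μ * g + W ≤ M * (L + 1))
    (hP : j * (μ * (μ + 1)) + W ≤ t2 * (L + 1))
    (hQ : (t2 - 1) * (L + 1) < j * (μ * (μ + 1)) + W) :
    ∃ μ' L' : ℕ, t2 = μ + μ' + 1 ∧ 1 ≤ μ' ∧ μ' + 1 ≤ M ∧ j * (μ' + 1) = g + L' + 1 ∧
      3 * μ' ≤ L' := by
  have e1 : j * (μ * (μ + 1)) = μ * (L + 1) + μ * g := by
    calc j * (μ * (μ + 1)) = μ * (j * (μ + 1)) := by ring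
      _ = μ * (L + 1) + μ * g := by rw [h1]; ring
  have e2 : 3 * (L + 1) ≤ μ * g := by
    have a1 : 2 * (μ * g) ≥ 9 * (μ * μ) := by
      calc 2 * (μ * g) = μ * (2 * g) := by ring
        _ ≥ μ * (9 * μ) := Nat.mul_le_mul_left _ h4
        _ = 9 * (μ * μ) := by ring
    have a2 : μ * μ ≥ 4 * (j * μ) := by
      calc μ * μ ≥ (4 * j) * μ := Nat.mul_le_mul_right _ h3
        _ = 4 * (j * μ) := by ring
    have a3 : j ≤ j * μ := Nat.le_mul_of_pos_right j (by omega)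
    have a4 : j * (μ + 1) = j * μ + j := by ring
    omega
  have e3 : μ + 3 ≤ t2 := by
    by_contra hcon
    have b1 : t2 ≤ μ + 2 := by omega
    have b2 : t2 * (L + 1) ≤ (μ + 2) * (L + 1) := Nat.mul_le_mul_right _ b1
    have b3 : (μ + 2) * (L + 1) = μ * (L + 1) + 2 * (L + 1) := by ring
    omega
  obtain ⟨μ', hμ'⟩ : ∃ μ', t2 = μ + μ' + 1 := ⟨t2 - μ - 1, by omega⟩
  have hμ1 : 1 ≤ μ' := by omega
  have e4 : μ' + 1 ≤ M := by
    have b1 : t2 - 1 = μ + μ' := by omega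
    rw [b1] at hQ
    have b2 : (μ + μ') * (L + 1) = μ * (L + 1) + μ' * (L + 1) := by ring
    have b3 : μ' * (L + 1) < M * (L + 1) := by omega
    have b4 : μ' < M := Nat.lt_of_mul_lt_mul_right b3
    omega
  -- the product with L + 1
  have e5 : g + 3 * (μ' + 1) ≤ j * (μ' + 1) := by
    have c1 : μ * g ≤ (μ' + 1) * (L + 1) := by
      rw [hμ'] at hP
      have b2 : (μ + μ' + 1) * (L + 1) = μ * (L + 1) + (μ' + 1) * (L + 1) := by ring
      omega
    have c2 : (g + 3 * (μ' + 1)) * (L + 1) ≤ (j * (μ' + 1)) * (L + 1) := by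
      -- j (μ'+1)(L+1) ≥ ...
      have d0 : (L : ℤ) + 1 = j * (μ + 1) - g := by
        have : ((j * (μ + 1) : ℕ) : ℤ) = ((L + 1 + g : ℕ) : ℤ) := by rw [h1]
        push_cast at this
        linarith
      have d1 : (3 : ℤ) * μ ≤ g - j := by
        have := h4
        have := h3
        omega
      have d2 : (0 : ℤ) ≤ (g : ℤ) * (g - j - 3 * μ) := mul_nonneg (by positivity) (by linarith)
      have d3 : (0 : ℤ) ≤ ((j : ℤ) - 3) * ((μ' + 1) * (L + 1) - μ * g) := by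
        refine mul_nonneg (by linarith [show (3 : ℤ) ≤ j from by exact_mod_cast h2]) ?_
        have : ((μ * g : ℕ) : ℤ) ≤ (((μ' + 1) * (L + 1) : ℕ) : ℤ) := by exact_mod_cast c1
        push_cast at this
        linarith
      have d4 : (g + 3 * (μ' + 1)) * ((L : ℤ) + 1) ≤ (j * (μ' + 1)) * ((L : ℤ) + 1) := by
        have d5 : (j * (μ' + 1)) * ((L : ℤ) + 1) - (g + 3 * (μ' + 1)) * ((L : ℤ) + 1) =
            (g : ℤ) * (g - j - 3 * μ) + ((j : ℤ) - 3) * ((μ' + 1) * (L + 1) - μ * g) := by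
          linear_combination (-(g : ℤ)) * d0
        linarith
      exact_mod_cast d4
    exact Nat.le_of_mul_le_mul_right c2 (Nat.succ_pos L)
  refine ⟨μ', j * (μ' + 1) - g - 1, hμ', hμ1, e4, ?_, ?_⟩ <;> omega

theorem tBlkE (h1 : S_EvPeel.{u}) (h2 : S_Rows.{u}) (h3 : ShghK.S_BoxWin.{u}) : S_BlkE.{u} := by
  intro F _ _ μ j L g M W t e1 e2 e3 e4 e5 e6 e7 e8 e9
  classical
  have hex : ∃ n : ℕ, j * (μ * (μ + 1)) + W ≤ n * (L + 1) := ⟨t, e9⟩
  obtain ⟨t2, ht2, hmin⟩ : ∃ t2 : ℕ, j * (μ * (μ + 1)) + W ≤ t2 * (L + 1) ∧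
      ∀ n : ℕ, n < t2 → ¬ (j * (μ * (μ + 1)) + W ≤ n * (L + 1)) :=
    ⟨Nat.find hex, Nat.find_spec hex, fun n hn => Nat.find_min hex hn⟩
  have hle : t2 ≤ t := by
    by_contra hcon
    exact hmin t (by omega) e9
  have hμ0 : 0 < μ := by omega
  have hpos : 0 < t2 := by
    rcases Nat.eq_zero_or_pos t2 with h | h
    · rw [h, Nat.zero_mul] at ht2
      have : 0 < j * (μ * (μ + 1)) := by positivity
      omega
    · exact h
  have hQ : (t2 - 1) * (L + 1) < j * (μ * (μ + 1)) + W := not_le.mp (hmin (t2 - 1) (by omega))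
  obtain ⟨μ', L', r1, r2, r3, r4, r5⟩ := blkE_arith μ j L g M W t2 e1 e2 e3 e4 e6 ht2 hQ
  -- peel
  have p1 := (h1 F (μ + μ') μ j L 0 (Nat.le_add_right _ _)).1 L' (by
    rw [Nat.add_sub_cancel_left]
    have b1 : j * (μ' + 1) = j * μ' + j := by ring
    have b2 : j * (μ + 1) = j * μ + j := by ring
    omega)
  rw [Nat.add_sub_cancel_left] at p1
  -- box window
  have p2 := h3 F μ' L' (μ + μ') (W : ℤ) (Multiset.replicate (2 * j) μ' + 0) r2 (by
    intro x hx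
    rw [add_zero] at hx
    exact (Multiset.eq_of_mem_replicate hx).le) r5 (by omega) (by
    have a1 : (μ' : ℤ) ≤ M := by
      have : μ' ≤ M := by omega
      exact_mod_cast this
    have a2 : (L' : ℤ) + 1 + g ≤ j * M := by
      have b1 : j * (μ' + 1) ≤ j * M := Nat.mul_le_mul_left _ r3
      have b2 : g + L' + 1 ≤ j * M := by omega
      have b3 : ((g + L' + 1 : ℕ) : ℤ) ≤ ((j * M : ℕ) : ℤ) := by exact_mod_cast b2
      push_cast at b3
      linarith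
    have a3 : (0 : ℤ) ≤ j := Int.natCast_nonneg j
    have a4 : (2 : ℤ) * L' + 7 * μ' ≤ 2 * (j * (M + 1)) + 7 * M - 2 * g := by nlinarith
    have a5 : (μ' : ℤ) * (2 * L' + 7 * μ') ≤ M * (2 * (j * (M + 1)) + 7 * M - 2 * g) :=
      mul_le_mul a1 a4 (by positivity) (Int.natCast_nonneg M)
    have a6 : ((M * (2 * (j * (M + 1)) + 7 * M) : ℕ) : ℤ) ≤ ((2 * W + 2 * (M * g) : ℕ) : ℤ) := by
      exact_mod_cast e7
    push_cast at a6
    nlinarith)
  have p3 : (((μ + μ' : ℕ) : ℤ) + 1) * ((L' : ℤ) + 1) -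
      (TT (Multiset.replicate (2 * j) μ' + 0) : ℤ) =
      (t2 * (L + 1) : ℤ) - j * (μ * (μ + 1)) := by
    rw [blkE_TT, r1]
    have b1 : ((j * (μ' + 1) : ℕ) : ℤ) = ((g + L' + 1 : ℕ) : ℤ) := by rw [r4]
    have b2 : ((j * (μ + 1) : ℕ) : ℤ) = ((L + 1 + g : ℕ) : ℤ) := by rw [e1]
    push_cast at b1 b2 ⊢
    linear_combination (-((μ : ℤ) + μ' + 1)) * b1 + ((μ : ℤ) + μ' + 1) * b2
  rw [p3, blkE_phi (W : ℤ) _ (Int.natCast_nonneg W) (by
    have : ((j * (μ * (μ + 1)) + W : ℕ) : ℤ) ≤ ((t2 * (L + 1) : ℕ) : ℤ) := by exact_mod_cast ht2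
    push_cast at this
    linarith)] at p2
  -- more rows
  obtain ⟨r, hr⟩ := Nat.exists_eq_add_of_le hle
  have p4 := blkE_rows h2 F (t2 - 1) L (Multiset.replicate (2 * j) μ) r
  have p5 : t - 1 = t2 - 1 + r := by omega
  rw [p5]
  have p6 : t2 - 1 = μ + μ' := by omega
  rw [p6] at p4 ⊢
  rw [add_zero] at p1 p2
  rw [add_zero] at p1
  have p7 : (hN F (Sf 0 (μ + μ' + r) L) (Multiset.replicate (2 * j) μ) : ℤ) ≤
      (t2 * (L + 1) : ℤ) - j * (μ * (μ + 1)) + r * (L + 1) := by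
    have b1 : ((hN F (Sf 0 (μ + μ' + r) L) (Multiset.replicate (2 * j) μ) : ℕ) : ℤ) ≤
      ((hN F (Sf 0 (μ + μ') L) (Multiset.replicate (2 * j) μ) + r * (L + 1) : ℕ) : ℤ) := by
      exact_mod_cast p4
    have b2 : ((hN F (Sf 0 (μ + μ') L) (Multiset.replicate (2 * j) μ) : ℕ) : ℤ) ≤
      ((hN F (Sf 0 (μ + μ') L') (Multiset.replicate (2 * j) μ') : ℕ) : ℤ) := by
      exact_mod_cast p1
    push_cast at b1
    linarith
  have p8 : ((hN F (Sf 0 (μ + μ' + r) L) (Multiset.replicate (2 * j) μ) + j * (μ * (μ + 1)) : ℕ) :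
      ℤ) ≤ ((t * (L + 1) : ℕ) : ℤ) := by
    rw [hr]
    push_cast
    linarith
  exact_mod_cast p8

end ShghPS
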