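import Pool.Agent.ShghPS.Spec

namespace ShghPS

open MvPolynomial ShghJ ShghC ShghK

universe u

private lemma blkZ_rows (h2 : S_Rows.{u}) (F : Type u) [Field F] [CharZero F] (L : ℕ)
    (B : Multiset ℕ) (a : ℕ) (b : ℕ) (hab : a ≤ b) :
    hN F (Sf 0 a L) B ≤ hN F (Sf 0 b L) B := by
  induction b, hab using Nat.le_induction with
  | base => exact le_rfl
  | succ b _ ih => exact ih.trans (h2 F b L B).2.1

private lemma blkZ_cols (h2 : S_Rows.{u}) (F : Type u) [Field F] [CharZero F] (t : ℕ)
    (B : Multiset ℕ) (a : ℕ) (b : ℕ) (hab : a ≤ b) :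
    hN F (Sf 0 t a) B ≤ hN F (Sf 0 t b) B := by
  induction b, hab using Nat.le_induction with
  | base => exact le_rfl
  | succ b _ ih => exact ih.trans (h2 F t b B).2.2

private lemma blkZ_TT (j μ : ℕ) : ((TT (Multiset.replicate (2 * j) μ) : ℕ) : ℤ) =
    j * ((μ : ℤ) * (μ + 1)) := by
  have h : TT (Multiset.replicate (2 * j) μ) = 2 * j * T μ := by
    simp [TT]
  have h' := two_T μ
  have h'' : (2 * (T μ : ℕ) : ℤ) = μ * (μ + 1) := by exact_mod_cast h'
  rw [h]
  push_cast
  linear_combination (j : ℤ) * h''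

private lemma blkZ_phi (W x : ℤ) (hW : 0 ≤ W) (hx : x + W ≤ 0) : phi W x = 0 := by
  unfold phi
  have h1 : x ≤ 0 := by linarith
  rw [max_eq_left h1]
  exact max_eq_left ((min_le_right _ _).trans hx)

theorem tBlkZ (h1 : S_EvPeel.{u}) (h2 : S_Rows.{u}) (h3 : ShghK.S_BoxWin.{u}) :
    S_BlkZ.{u} := by
  intro F _ _ μ j L g M W t hL hj3 hj4 hg hM hW1 hW2 ht hneg
  have hj2g : j * 2 ≤ g := by omega
  have hpeel0 : ∀ μ' : ℕ, j * (μ' + 1) ≤ g →
      hN F (Sf 0 (μ + μ') L) (Multiset.replicate (2 * j) μ) = 0 := by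
    intro μ' hle
    have h := (h1 F (μ + μ') μ j L 0 (by omega)).2
    rw [Nat.add_sub_cancel_left, add_zero] at h
    apply h
    nlinarith
  rcases Nat.lt_or_ge (μ + 1) t with htm | htm
  swap
  · have h := hpeel0 1 hj2g
    have h' := blkZ_rows h2 F L (Multiset.replicate (2 * j) μ) (t - 1) (μ + 1) (by omega)
    omega
  · obtain ⟨μ', rfl⟩ : ∃ μ', t = μ + μ' + 1 := ⟨t - (μ + 1), by omega⟩
    have hμ' : 1 ≤ μ' := by omega
    have hk : μ + μ' + 1 - 1 = μ + μ' := by omega
    rw [hk]
    -- the area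
    have hA : (μ' + 1) * (L + 1) + W ≤ μ * g := by
      have e1 : j * (μ * (μ + 1)) = μ * (L + 1) + μ * g := by
        have : j * (μ * (μ + 1)) = μ * (j * (μ + 1)) := by ring
        rw [this, hL]; ring
      have e2 : (μ + μ' + 1) * (L + 1) = μ * (L + 1) + (μ' + 1) * (L + 1) := by ring
      rw [e1, e2] at hneg
      omega
    have hμM : μ' + 1 ≤ M := by
      have : (μ' + 1) * (L + 1) ≤ M * (L + 1) := by omega
      exact Nat.le_of_mul_le_mul_right this (Nat.succ_pos L)
    rcases Nat.lt_or_ge g (j * (μ' + 1)) with hgj | hgj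
    swap
    · exact hpeel0 μ' hgj
    · obtain ⟨L', hL'⟩ : ∃ L', L' + g + 1 = j * (μ' + 1) := ⟨j * (μ' + 1) - g - 1, by omega⟩
      have hp := (h1 F (μ + μ') μ j L 0 (by omega)).1 L' (by
        rw [Nat.add_sub_cancel_left]
        have e3 : j * (μ + 1) = j * μ + j := by ring
        have e4 : j * (μ' + 1) = j * μ' + j := by ring
        omega)
      rw [Nat.add_sub_cancel_left, add_zero, add_zero] at hp
      -- integer versions
      have zL : (j : ℤ) * (μ + 1) = L + 1 + g := by exact_mod_cast hL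
      have zL' : (L' : ℤ) + g + 1 = j * (μ' + 1) := by exact_mod_cast hL'
      have zA : ((μ' : ℤ) + 1) * (L + 1) + W ≤ μ * g := by exact_mod_cast hA
      have zμM : (μ' : ℤ) + 1 ≤ M := by exact_mod_cast hμM
      have zM : 10 * (M : ℤ) ≤ μ := by exact_mod_cast hM
      have zW2 : (M : ℤ) * (2 * (j * (M + 1)) + 7 * M) ≤ 2 * W + 2 * (M * g) := by
        exact_mod_cast hW2
      have zμ' : (1 : ℤ) ≤ μ' := by exact_mod_cast hμ'
      have zj : (0 : ℤ) ≤ j := Int.natCast_nonneg j
      have zg : 9 * (μ : ℤ) ≤ 2 * g := by exact_mod_cast hg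
      have zj4 : 4 * (j : ℤ) ≤ μ := by exact_mod_cast hj4
      have zL0 : (0 : ℤ) ≤ L' := Int.natCast_nonneg L'
      have zW : (0 : ℤ) ≤ W := Int.natCast_nonneg W
      rcases Nat.lt_or_ge L' (3 * μ') with h3l | h3l
      swap
      · have hb := h3 F μ' L' (μ + μ') (W : ℤ) (Multiset.replicate (2 * j) μ') hμ'
          (by intro x hx; rw [Multiset.eq_of_mem_replicate hx]) h3l (by omega) (by
            have hX : (L' : ℤ) ≤ j * (M + 1) - g := by nlinarith
            have hX0 : (0 : ℤ) ≤ j * (M + 1) - g := hX.trans' zL0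
            have s1 : (μ' : ℤ) * (2 * L' + 7 * μ') ≤ M * (2 * (j * (M + 1) - g) + 7 * M) := by
              apply mul_le_mul (by linarith) (by linarith) (by linarith) (by linarith)
            nlinarith)
        rw [blkZ_TT, blkZ_phi _ _ zW (by
          push_cast
          have e : ((μ : ℤ) + μ' + 1) * (L' + 1) - j * (μ' * (μ' + 1)) =
              (μ' + 1) * (L + 1) - μ * g := by
            linear_combination ((μ : ℤ) + μ' + 1) * zL' + (μ' + 1) * zL
          rw [e]
          linarith)] at hb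
        have : hN F (Sf 0 (μ + μ') L') (Multiset.replicate (2 * j) μ') = 0 := by
          exact_mod_cast le_antisymm hb (Int.natCast_nonneg _)
        omega
      · have hb := h3 F μ' (3 * μ') (μ + μ') (7 * (μ' : ℤ) ^ 2)
          (Multiset.replicate (2 * j) μ') hμ'
          (by intro x hx; rw [Multiset.eq_of_mem_replicate hx]) le_rfl (by omega) (by
            push_cast; nlinarith)
        rw [blkZ_TT, blkZ_phi _ _ (by positivity) (by
          push_cast
          have q1 : (17 : ℤ) * μ ≤ 4 * (j * μ') := by nlinarith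
          have q2 : (17 : ℤ) * μ * (μ' + 1) ≤ 4 * (j * (μ' * (μ' + 1))) := by nlinarith
          have q3 : (10 : ℤ) * μ' ≤ μ := by linarith
          have q4 : (10 : ℤ) * μ' * μ' ≤ μ * μ' := by nlinarith
          nlinarith)] at hb
        have hz : hN F (Sf 0 (μ + μ') (3 * μ')) (Multiset.replicate (2 * j) μ') = 0 := by
          exact_mod_cast le_antisymm hb (Int.natCast_nonneg _)
        have hc := blkZ_cols h2 F (μ + μ') (Multiset.replicate (2 * j) μ') L' (3 * μ') (by omega)
        omega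

end ShghPS
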