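import Pool.Agent.ShghPS.Spec

/-!
# ShghPS/Cut: `t` rows and `g` pairs of points are cut into `J` pieces
-/

set_option autoImplicit false

namespace ShghPS

open MvPolynomial ShghJ ShghC ShghK

universe u

private theorem cut_div {J g : ℕ} (hJ : 1 ≤ J) (i : ℕ) :
    i * g / J + g / J ≤ (i + 1) * g / J ∧ (i + 1) * g / J ≤ i * g / J + g / J + 1 := by
  have hJ0 : 0 < J := hJ
  have e : ∀ k : ℕ, k * g / J = k * (g % J) / J + k * (g / J) := by
    intro k
    have h : k * g = k * (g % J) + J * (k * (g / J)) := by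
      conv_lhs => rw [← Nat.mod_add_div g J]
      ring
    rw [h, Nat.add_mul_div_left _ _ hJ0]
  have hr : g % J < J := Nat.mod_lt _ hJ0
  have h1 : i * (g % J) / J ≤ (i + 1) * (g % J) / J :=
    Nat.div_le_div_right (Nat.mul_le_mul_right _ (Nat.le_succ i))
  have h2 : (i + 1) * (g % J) / J ≤ i * (g % J) / J + 1 := by
    rw [← Nat.add_div_right _ hJ0]
    apply Nat.div_le_div_right
    have : (i + 1) * (g % J) = i * (g % J) + g % J := by ring
    omega
  have e1 := e i
  have e2 := e (i + 1)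
  have e3 : (i + 1) * (g / J) = i * (g / J) + g / J := by ring
  omega

theorem tCut : S_Cut := by
  intro J g t l c hJ hl hc
  have hJ0 : (0 : ℤ) < J := by exact_mod_cast hJ
  have hD : (0 : ℤ) < J * l := mul_pos hJ0 hl
  obtain ⟨G, hG⟩ : ∃ G : ℕ → ℕ, ∀ i, G i = i * g / J := ⟨fun i => i * g / J, fun i => rfl⟩
  obtain ⟨y, hy⟩ : ∃ y : ℕ → ℤ, ∀ i, y i = J * (G i) * c + i * (t * l - g * c) :=
    ⟨fun i => J * (G i) * c + i * (t * l - g * c), fun i => rfl⟩
  obtain ⟨P, hP⟩ : ∃ P : ℕ → ℤ, ∀ i, P i = y i / (J * l) := ⟨fun i => y i / (J * l), fun i => rfl⟩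
  have G0 : G 0 = 0 := by rw [hG]; simp
  have GJ : G J = g := by rw [hG]; exact Nat.mul_div_cancel_left g hJ
  have P0 : P 0 = 0 := by rw [hP, hy, G0]; simp
  have PJ : P J = t := by
    rw [hP, hy, GJ]
    have : (J : ℤ) * g * c + J * (t * l - g * c) = t * (J * l) := by ring
    rw [this]
    exact Int.mul_ediv_cancel t hD.ne'
  have hmono : Monotone G := monotone_nat_of_le_succ fun i => by
    rw [hG, hG]
    exact le_trans (Nat.le_add_right _ _) (cut_div (g := g) hJ i).1
  refine ⟨fun i => P (i + 1) - P i, fun i => G (i + 1) - G i, ?_, ?_, ?_⟩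
  · rw [Fin.sum_univ_eq_sum_range (fun i => P (i + 1) - P i) J, Finset.sum_range_sub, P0, PJ,
      sub_zero]
  · rw [Fin.sum_univ_eq_sum_range (fun i => G (i + 1) - G i) J, Finset.sum_range_tsub hmono, G0, GJ,
      Nat.sub_zero]
  · intro i
    have h1 := cut_div (g := g) hJ (i : ℕ)
    rw [← hG, ← hG] at h1
    have hw : ((G (i + 1) - G i : ℕ) : ℤ) = G (i + 1) - G i := by
      have := hmono (Nat.le_succ (i : ℕ))
      have h' : G (i : ℕ) ≤ G ((i : ℕ) + 1) := this
      omega
    have hq : ((g / J : ℕ) : ℤ) = (g / J : ℕ) := rfl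
    generalize g / J = q at h1 hq ⊢
    have h2 := hmono (Nat.le_succ (i : ℕ))
    have h2' : G (i : ℕ) ≤ G ((i : ℕ) + 1) := h2
    refine ⟨?_, ?_, ?_, ?_⟩
    · change q ≤ G (i + 1) - G i
      omega
    · change G (i + 1) - G i ≤ q + 1
      omega
    · rw [hw]
      have a1 : y (i + 1) < (P (i + 1) + 1) * (J * l) := by
        rw [hP]
        exact Int.lt_ediv_add_one_mul_self _ hD
      have a2 : P i * (J * l) ≤ y i := by
        rw [hP]
        exact Int.ediv_mul_le _ hD.ne'
      have a3 : y (i + 1) - y i = J * (G (i + 1) - G i) * c + (t * l - g * c) := by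
        rw [hy, hy]
        push_cast
        ring
      have a4 : (J : ℤ) * ((P (i + 1) - P i) * l - (G (i + 1) - G i) * c) =
          P (i + 1) * (J * l) - P i * (J * l) - J * (G (i + 1) - G i) * c := by ring
      rw [a4]
      linarith
    · rw [hw]
      have a1 : y i < (P i + 1) * (J * l) := by
        rw [hP]
        exact Int.lt_ediv_add_one_mul_self _ hD
      have a2 : P (i + 1) * (J * l) ≤ y (i + 1) := by
        rw [hP]
        exact Int.ediv_mul_le _ hD.ne'
      have a3 : y (i + 1) - y i = J * (G (i + 1) - G i) * c + (t * l - g * c) := by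
        rw [hy, hy]
        push_cast
        ring
      have a4 : (J : ℤ) * ((P (i + 1) - P i) * l - (G (i + 1) - G i) * c) =
          P (i + 1) * (J * l) - P i * (J * l) - J * (G (i + 1) - G i) * c := by ring
      rw [a4]
      linarith

end ShghPS
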