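import Pool.Agent.ShghPS.Spec

/-!
# ShghPS/EvPeel: `2 j` points of multiplicity `m` on a box of thickness `t ≥ m`
-/

set_option autoImplicit false

namespace ShghPS

open MvPolynomial ShghJ ShghC ShghK

universe u

theorem tEvPeel (hA : ShghK.S_ElmA.{u}) (hB : ShghK.S_ElmB.{u}) : S_EvPeel.{u} := by
  intro F _ t m j
  induction j with
  | zero =>
    intro d B hm
    refine ⟨fun L hL => ?_, fun h => ?_⟩
    · have : L = d := by omega
      rw [this]
      simp
    · omega
  | succ j ih =>
    intro d B hm
    have e0 : Multiset.replicate (2 * (j + 1)) m + B =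
        m ::ₘ m ::ₘ (Multiset.replicate (2 * j) m + B) := by
      rw [show 2 * (j + 1) = 2 * j + 1 + 1 by ring, Multiset.replicate_succ,
        Multiset.replicate_succ, Multiset.cons_add, Multiset.cons_add]
    have e1 : Multiset.replicate (2 * (j + 1)) (t - m) + B =
        Multiset.replicate (2 * j) (t - m) + ((t - m) ::ₘ (t - m) ::ₘ B) := by
      rw [show 2 * (j + 1) = 2 * j + 1 + 1 by ring, Multiset.replicate_succ,
        Multiset.replicate_succ, Multiset.cons_add, Multiset.cons_add, Multiset.add_cons,
        Multiset.add_cons]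
    have e2 : (t - m) ::ₘ (t - m) ::ₘ (Multiset.replicate (2 * j) m + B) =
        Multiset.replicate (2 * j) m + ((t - m) ::ₘ (t - m) ::ₘ B) := by
      rw [Multiset.add_cons, Multiset.add_cons]
    have s1 : hN F (Sf 0 t d) (Multiset.replicate (2 * (j + 1)) m + B) ≤
        hN F (Sf 1 t (d + (t - m))) (m ::ₘ (t - m) ::ₘ (Multiset.replicate (2 * j) m + B)) := by
      rw [e0, Multiset.cons_swap m (t - m)]
      exact hB F t m d _ hm
    have m1 : (j + 1) * m = j * m + m := by ring
    have m2 : (j + 1) * (t - m) = j * (t - m) + (t - m) := by ring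
    rcases Nat.lt_or_ge (d + (t - m)) m with hd | hd
    · have h0 : hN F (Sf 0 t d) (Multiset.replicate (2 * (j + 1)) m + B) = 0 := by
        rw [(hA F t m (d + (t - m)) _ hm).2 hd] at s1
        exact Nat.le_zero.1 s1
      refine ⟨fun L _ => ?_, fun _ => h0⟩
      rw [h0]
      exact Nat.zero_le _
    · have s2 : hN F (Sf 0 t d) (Multiset.replicate (2 * (j + 1)) m + B) ≤
          hN F (Sf 0 t (d + (t - m) - m))
            (Multiset.replicate (2 * j) m + ((t - m) ::ₘ (t - m) ::ₘ B)) := by
        rw [← e2]
        exact s1.trans ((hA F t m (d + (t - m)) _ hm).1 hd)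
      refine ⟨fun L hL => ?_, fun h => ?_⟩
      · rw [m1, m2] at hL
        rw [e1]
        exact s2.trans ((ih (d + (t - m) - m) _ hm).1 L (by omega))
      · rw [m1, m2] at h
        rw [(ih (d + (t - m) - m) _ hm).2 (by omega)] at s2
        exact Nat.le_zero.1 s2

end ShghPS
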