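import Pool.Agent.ShghPS.OneDG
import Pool.Agent.ShghPS.AlN

/-!
# ShghPS, FinG: the theorem for one `R` with an arbitrary window of the strips
-/

namespace ShghPS

open MvPolynomial ShghJ ShghC ShghK

universe u

/-- FING: every degree, if the strips have windows `Θ` for this `R` and `2 ^ n Θ` is small
compared with `R ^ 2 m` (`n` is the order of the differences in the alignment `S_AlN`). -/
def S_FinG : Prop := ∀ (F : Type u) [Field F] [CharZero F] (R m s n Θ : ℕ), BandAt F R m Θ →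
  10 ^ 7 ≤ R → (R + 1) ^ 2 ≤ s → s < (R + 3) ^ 2 → Even (s + R) → 31 * s < m → 1 ≤ n →
  20 * (75 * n ^ 2) ^ n * m ≤ R ^ (n + 1) → 20 ^ n * R ≤ m → 400 * n ^ 2 ≤ R →
  25 * 2 ^ n * (Θ + 2 * R * m) ≤ R ^ 2 * m →
  ∀ d : ℕ, hF F d (Multiset.replicate s m) = T (d + 1) - s * T m

private theorem fa_T_mono {a b : ℕ} (h : a ≤ b) : T a ≤ T b := by
  obtain ⟨k, rfl⟩ := Nat.exists_eq_add_of_le h
  induction k with
  | zero => exact le_rfl
  | succ k ih =>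
    have h1 := T_succ (a + k)
    have h2 := ih (Nat.le_add_right a k)
    rw [← Nat.add_assoc]
    omega

private theorem fa_T_add (n p : ℕ) : T n + p * n ≤ T (n + p) := by
  induction p with
  | zero => simp
  | succ p ih =>
    have h1 := T_succ (n + p)
    rw [← Nat.add_assoc, h1, Nat.succ_mul]
    omega

private theorem fa_TT_rep (s m : ℕ) : TT (Multiset.replicate s m) = s * T m := by
  unfold TT
  rw [Multiset.map_replicate, Multiset.sum_replicate, smul_eq_mul]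

private theorem fa_hF_mono (F : Type u) [Field F] [CharZero F] (A : Multiset ℕ) (e k : ℕ) :
    hF F e A ≤ hF F (e + k) A := by
  induction k with
  | zero => exact le_rfl
  | succ k ih =>
    have h := (mStB F 1 (e + k + 1)).1 (e + k) A
    rw [Sf_one_eq_Trap (Nat.le_succ (e + k)), Sf_one_eq_Trap (le_refl (e + k + 1)), hN_tri mProj,
      hN_tri mProj] at h
    exact ih.trans h

/-- bounds for `d` -/
private theorem fa_d {R m s d : ℕ} {χ : ℤ} (hRs : (R + 1) ^ 2 ≤ s) (hsR : s < (R + 3) ^ 2)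
    (hR : 10 ^ 7 ≤ R) (hms : 31 * s < m)
    (hχ : χ = (T (d + 1) : ℤ) - s * T m) (h1 : χ ≤ d + 1) (h2 : -((d : ℤ) + 2) ≤ χ) :
    2 * d + 1 < (R + 3) * (2 * m + 1) ∧ R * (2 * m + 1) + m + 1 ≤ 2 * d + 3 := by
  have hs1 : (1 : ℤ) ≤ s := by
    have h3 : 1 ≤ (R + 1) ^ 2 := Nat.one_le_pow _ _ (Nat.succ_pos R)
    exact_mod_cast h3.trans hRs
  have t1 : (2 : ℤ) * T (d + 1) = (d + 1) * (d + 2) := by
    have := two_T (d + 1)
    have h3 : ((2 * T (d + 1) : ℕ) : ℤ) = (((d + 1) * (d + 1 + 1) : ℕ) : ℤ) := by rw [this]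
    push_cast at h3
    rw [h3]
    ring
  have t2 : (2 : ℤ) * T m = m * (m + 1) := by exact_mod_cast two_T m
  have key : (2 * (d : ℤ) + 3) ^ 2 = s * (2 * m + 1) ^ 2 - s + 8 * χ + 1 := by
    rw [hχ]
    linear_combination (-4) * t1 + 4 * (s : ℤ) * t2
  constructor
  · by_contra hc
    push Not at hc
    have h3 : ((R + 3) * (2 * m + 1)) ^ 2 ≤ (2 * d + 1) ^ 2 := Nat.pow_le_pow_left hc 2
    have h4 : (s + 1) * (2 * m + 1) ^ 2 ≤ (R + 3) ^ 2 * (2 * m + 1) ^ 2 :=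
      Nat.mul_le_mul_right _ hsR
    have h5 : ((R + 3) * (2 * m + 1)) ^ 2 = (R + 3) ^ 2 * (2 * m + 1) ^ 2 := by ring
    have h6 : (s + 1) * (2 * m + 1) ^ 2 ≤ (2 * d + 1) ^ 2 := by
      rw [h5] at h3
      exact h4.trans h3
    have h7 : ((s : ℤ) + 1) * (2 * m + 1) ^ 2 ≤ (2 * d + 1) ^ 2 := by exact_mod_cast h6
    have h9 : (1 : ℤ) ≤ (2 * m + 1) ^ 2 := by
      have : (0 : ℤ) ≤ m := Int.natCast_nonneg m
      exact one_le_pow₀ (by linarith)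
    have h10 : ((s : ℤ) + 1) * (2 * m + 1) ^ 2 = s * (2 * m + 1) ^ 2 + (2 * m + 1) ^ 2 := by ring
    have h11 : (2 * (d : ℤ) + 1) ^ 2 = (2 * d + 3) ^ 2 - 8 * d - 8 := by ring
    rw [h10, h11, key] at h7
    linarith
  · by_contra hc
    push Not at hc
    have h3 : 2 * d + 5 ≤ R * (2 * m + 1) + m + 2 := by omega
    have h4 : (2 * d + 5) ^ 2 ≤ (R * (2 * m + 1) + m + 2) ^ 2 := Nat.pow_le_pow_left h3 2
    have h5 : (R + 1) ^ 2 * (2 * m + 1) ^ 2 ≤ s * (2 * m + 1) ^ 2 := Nat.mul_le_mul_right _ hRs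
    have h4' : (2 * (d : ℤ) + 5) ^ 2 ≤ (R * (2 * m + 1) + m + 2) ^ 2 := by exact_mod_cast h4
    have h5' : ((R : ℤ) + 1) ^ 2 * (2 * m + 1) ^ 2 ≤ s * (2 * m + 1) ^ 2 := by exact_mod_cast h5
    have h6 : (31 : ℤ) * s < m := by exact_mod_cast hms
    have h7 : (10 : ℤ) ^ 7 ≤ R := by exact_mod_cast hR
    have h9 : ((R : ℤ) + 1) ^ 2 * (2 * m + 1) ^ 2 - (R * (2 * m + 1) + m + 2) ^ 2 =
        2 * R * (2 * m + 1) * (m - 1) + (3 * m + 3) * (m - 1) := by ring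
    have h10 : 0 ≤ 2 * (R : ℤ) * (2 * m + 1) * (m - 1) := by
      have e1 : (0 : ℤ) ≤ R := by linarith
      have e2 : (0 : ℤ) ≤ m - 1 := by linarith
      have e3 : (0 : ℤ) ≤ 2 * m + 1 := by linarith
      exact mul_nonneg (mul_nonneg (by linarith) e3) e2
    have h11 : (3 * (m : ℤ) + 3) * 1 ≤ (3 * m + 3) * (m - 1) :=
      mul_le_mul_of_nonneg_left (by linarith) (by linarith)
    have h12 : (2 * (d : ℤ) + 5) ^ 2 = (2 * d + 3) ^ 2 + 8 * d + 16 := by ring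
    rw [h12, key] at h4'
    linarith

private theorem fa_uc {r m ε uc : ℕ} (hr : 1 ≤ r) (hrm : r ≤ m) (hε : ε ≤ 1)
    (h : 2 * uc + 3 = r * (2 * m + 1) + ε) : r ^ 2 * T m ≤ T (uc + 1) ∧ T uc ≤ r ^ 2 * T m := by
  have t2 : (2 : ℤ) * T m = m * (m + 1) := by exact_mod_cast two_T m
  have tuc1 : (2 : ℤ) * T (uc + 1) = (uc + 1) * (uc + 2) := by
    have := two_T (uc + 1)
    have h3 : ((2 * T (uc + 1) : ℕ) : ℤ) = (((uc + 1) * (uc + 1 + 1) : ℕ) : ℤ) := by rw [this]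
    push_cast at h3
    rw [h3]
    ring
  have tuc : (T (uc + 1) : ℤ) = T uc + (uc + 1) := by
    have := T_succ uc
    exact_mod_cast this
  have hε' : (ε : ℤ) ≤ 1 := by exact_mod_cast hε
  have hε0 : (0 : ℤ) ≤ ε := Int.natCast_nonneg ε
  have hrI : (1 : ℤ) ≤ r := by exact_mod_cast hr
  have hrmI : (r : ℤ) ≤ m := by exact_mod_cast hrm
  have huc3 : 2 * (uc : ℤ) + 3 = r * (2 * m + 1) + ε := by exact_mod_cast h
  have h8 : 8 * (T (uc + 1) : ℤ) + 1 = (r * (2 * m + 1) + ε) ^ 2 := by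
    rw [← huc3]
    linear_combination 4 * tuc1
  have h8r : 8 * ((r : ℤ) ^ 2 * T m) + r ^ 2 = (r * (2 * m + 1)) ^ 2 := by
    linear_combination 4 * (r : ℤ) ^ 2 * t2
  have hZr : 2 * (r : ℤ) ^ 2 + r ≤ r * (2 * m + 1) := by
    have h4 : (r : ℤ) * r ≤ r * m := mul_le_mul_of_nonneg_left hrmI (by linarith)
    have h5 : (r : ℤ) ^ 2 = r * r := pow_two _
    have h6 : (r : ℤ) * (2 * m + 1) = 2 * (r * m) + r := by ring
    rw [h5, h6]
    linarith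
  obtain ⟨Z, hZ⟩ : ∃ Z : ℤ, Z = r * (2 * m + 1) := ⟨_, rfl⟩
  rw [← hZ] at h8 h8r huc3 hZr
  have hr2 : (1 : ℤ) ≤ (r : ℤ) ^ 2 := one_le_pow₀ hrI
  have hZ0 : 0 ≤ Z := by linarith
  have hZε : 0 ≤ Z * ε := mul_nonneg hZ0 hε0
  have hZε2 : Z * ε ≤ Z * 1 := mul_le_mul_of_nonneg_left hε' hZ0
  have hεε : (0 : ℤ) ≤ (ε : ℤ) ^ 2 := sq_nonneg _
  have hεε2 : (ε : ℤ) ^ 2 ≤ 1 := pow_le_one₀ hε0 hε'
  have hexp : (Z + ε) ^ 2 = Z ^ 2 + 2 * (Z * ε) + (ε : ℤ) ^ 2 := by ring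
  rw [hexp] at h8
  constructor
  · have : (r : ℤ) ^ 2 * T m ≤ T (uc + 1) := by linarith
    exact_mod_cast this
  · have : (T uc : ℤ) ≤ r ^ 2 * T m := by linarith
    exact_mod_cast this

private theorem fa_mR {R m : ℕ} (hR : 10 ^ 7 ≤ R) (h : 30 * (R + 1) ^ 2 ≤ m) :
    300000000 * R ≤ m := by
  have h1 : 10 ^ 7 * R ≤ R * R := Nat.mul_le_mul_right R hR
  have h2 : R * R ≤ (R + 1) ^ 2 := by nlinarith
  omega

private theorem fa_ar {R a r : ℕ} (ha4 : 4 * R ≤ 10 * a) (ha6 : 10 * a ≤ 6 * R) (hr : r + a = R) :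
    24 * R ^ 2 ≤ 100 * (a * r) := by
  have e1 : (4 : ℤ) * R ≤ 10 * a := by exact_mod_cast ha4
  have e2 : (10 : ℤ) * a ≤ 6 * R := by exact_mod_cast ha6
  have e3 : (r : ℤ) + a = R := by exact_mod_cast hr
  have e4 : 24 * (R : ℤ) ^ 2 ≤ 100 * (a * r) := by
    have e5 : (r : ℤ) = R - a := by linarith
    have e6 : 0 ≤ (10 * (a : ℤ) - 4 * R) * (6 * R - 10 * a) :=
      mul_nonneg (by linarith) (by linarith)
    rw [e5]
    linarith
  exact_mod_cast e4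

private theorem fa_num (h2 : S_AlN) (R m s d nd Θ : ℕ) (χ : ℤ) (hR : 10 ^ 7 ≤ R)
    (hRs : (R + 1) ^ 2 ≤ s) (hsR : s < (R + 3) ^ 2) (hev : Even (s + R)) (hms : 31 * s < m)
    (hd1 : 1 ≤ nd) (hd2 : 20 * (75 * nd ^ 2) ^ nd * m ≤ R ^ (nd + 1)) (hd3 : 20 ^ nd * R ≤ m)
    (hd4 : 400 * nd ^ 2 ≤ R) (hΘ : 25 * 2 ^ nd * (Θ + 2 * R * m) ≤ R ^ 2 * m) (hχ : χ = (T (d + 1) : ℤ) - s * T m) (hχ1 : χ ≤ d + 1)
    (hχ2 : -((d : ℤ) + 2) ≤ χ) :
    ∃ a r v τ : ℕ, 4 * R ≤ 10 * a ∧ 10 * a ≤ 6 * R ∧ r + a = R ∧ Even a ∧ Even (s + r) ∧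
      r ^ 2 * T m ≤ T (v + 1) ∧ T (v + 1 - a) ≤ r ^ 2 * T m ∧ d = v + a * τ ∧
      25 * χ ≤ m ^ 2 ∧ -(m : ℤ) ^ 2 ≤ 25 * χ ∧
      ((T (v + 1) : ℤ) - r ^ 2 * T m + Θ ≤ a * v + 1 - T (a - 2) + χ ∧
        χ + Θ ≤ (T (v + 1) : ℤ) - r ^ 2 * T m) := by
  obtain ⟨hda, hdb⟩ := fa_d hRs hsR hR hms hχ hχ1 hχ2
  have h30 : 30 * (R + 1) ^ 2 ≤ m := by omega
  have hmR : 300000000 * R ≤ m := fa_mR hR h30
  -- W
  obtain ⟨W, ε, hε, hW⟩ : ∃ W ε : ℕ, ε ≤ 1 ∧ R + ε = 2 * W + 1 := by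
    rcases Nat.even_or_odd R with ⟨k, hk⟩ | ⟨k, hk⟩
    · exact ⟨k, 1, le_rfl, by omega⟩
    · exact ⟨k, 0, by omega, by omega⟩
  obtain ⟨RM, hRM⟩ : ∃ RM, RM = R * m := ⟨_, rfl⟩
  have hRM2 : R * (2 * m + 1) = 2 * RM + R := by rw [hRM]; ring
  have hRM3 : (R + 3) * (2 * m + 1) = 2 * RM + R + 6 * m + 3 := by rw [hRM]; ring
  rw [hRM2] at hdb
  rw [hRM3] at hda
  obtain ⟨G, hG⟩ : ∃ G, d + 1 = RM + W + G := ⟨d + 1 - (RM + W), by omega⟩
  have hG1 : m ≤ 2 * G := by omega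
  have hG2 : G ≤ 4 * m := by omega
  obtain ⟨a, ha, ha4, ha6, hp1, hp2⟩ := h2 nd R m G hd1 hd2 hd3 hd4 hG1 hG2
  obtain ⟨N, hN⟩ : ∃ N, N = 2 ^ nd := ⟨_, rfl⟩
  have hN0 : 1 ≤ N := by rw [hN]; exact Nat.one_le_two_pow
  rw [← hN] at hp1 hp2 hΘ
  have hm0 : 0 < m := by omega
  have hNR : 50 * N ≤ R := by
    have h3 : 50 * N * (R * m) ≤ R * (R * m) := by
      calc 50 * N * (R * m) ≤ 25 * N * (Θ + 2 * R * m) := by nlinarith [Nat.zero_le (N * Θ)]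
        _ ≤ R ^ 2 * m := hΘ
        _ = R * (R * m) := by ring
    exact Nat.le_of_mul_le_mul_right h3 (by positivity)
  obtain ⟨b, hb⟩ := ha
  obtain ⟨r, hr⟩ : ∃ r, r + a = R := ⟨R - a, by omega⟩
  obtain ⟨p, hp⟩ : ∃ p, p = (G + a / 2) % a := ⟨_, rfl⟩
  obtain ⟨τ', hτ'⟩ : ∃ τ', τ' = (G + a / 2) / a := ⟨_, rfl⟩
  rw [← hp] at hp1 hp2
  have ha0 : 0 < a := by omega
  have hdiv : a * τ' + p = G + b := by
    have h3 := Nat.div_add_mod (G + a / 2) a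
    rw [← hτ', ← hp] at h3
    have h4 : a / 2 = b := by omega
    rw [h4] at h3
    exact h3
  have hpa : p < a := by rw [hp]; exact Nat.mod_lt _ ha0
  obtain ⟨rM, hrM⟩ : ∃ rM, rM = r * m := ⟨_, rfl⟩
  obtain ⟨aM, haM⟩ : ∃ aM, aM = a * m := ⟨_, rfl⟩
  have hsum : rM + aM = RM := by rw [hrM, haM, hRM, ← hr]; ring
  -- uc
  obtain ⟨uc, huc⟩ : ∃ uc, uc + 1 + b = rM + W := ⟨rM + W - b - 1, by omega⟩
  have hrR : 4 * R ≤ 10 * r := by omega
  have hr0 : 0 < r := by omega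
  have hrm : r * 300000000 ≤ rM := by
    rw [hrM]
    exact Nat.mul_le_mul_left r (by omega)
  have huc2 : 2 * uc + 3 = 2 * rM + r + ε := by omega
  have huc3 : 2 * uc + 3 = r * (2 * m + 1) + ε := by
    rw [huc2, hrM]
    ring
  obtain ⟨hx1', hx2'⟩ := fa_uc hr0 (show r ≤ m by omega) hε huc3
  -- v
  obtain ⟨v, hv⟩ : ∃ v, v = uc + p := ⟨_, rfl⟩
  obtain ⟨q, hq⟩ : ∃ q, p + 1 + q = a := ⟨a - 1 - p, by omega⟩
  obtain ⟨n, hn⟩ : ∃ n, n + q = uc := ⟨uc - q, by omega⟩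
  have hvn : v + 1 = n + a := by omega
  have hTv : T (uc + 1) + p * (uc + 1) ≤ T (v + 1) := by
    have h3 := fa_T_add (uc + 1) p
    have h4 : uc + 1 + p = v + 1 := by omega
    rw [h4] at h3
    exact h3
  have hTn : T n + q * n ≤ T uc := by
    have h3 := fa_T_add n q
    rw [hn] at h3
    exact h3
  -- cap
  have hcap : ((a : ℤ) * v + 1 - T (a - 2)) = T (v + 1) - T n := by
    obtain ⟨e, he⟩ : ∃ e, a = e + 2 := ⟨a - 2, by omega⟩
    have h3 : (2 : ℤ) * T e = e * (e + 1) := by exact_mod_cast two_T e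
    have h4 : (2 : ℤ) * T n = n * (n + 1) := by exact_mod_cast two_T n
    have h5 : (2 : ℤ) * T (n + a) = (n + a) * (n + a + 1) := by exact_mod_cast two_T (n + a)
    have h6 : (v : ℤ) = n + a - 1 := by omega
    have h7 : a - 2 = e := by omega
    have h8 : (a : ℤ) = e + 2 := by exact_mod_cast he
    rw [hvn, h7]
    have h9 : (2 : ℤ) * ((a : ℤ) * v + 1 - T e) = 2 * (T (n + a) - T n) := by
      rw [mul_sub, mul_sub, h3, h4, h5, h6, h8]
      ring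
    linarith
  -- sizes
  obtain ⟨Q, hQ⟩ : ∃ Q, Q = R ^ 2 * m := ⟨_, rfl⟩
  have hQ1 : 10000000 * RM ≤ Q := by
    rw [hQ, hRM, pow_two]
    have := Nat.mul_le_mul_right (R * m) hR
    calc 10000000 * (R * m) = 10 ^ 7 * (R * m) := by norm_num
      _ ≤ R * (R * m) := this
      _ = R * R * m := by ring
  have hmRM : 10000000 * m ≤ RM := by
    rw [hRM]
    have := Nat.mul_le_mul_right m hR
    calc 10000000 * m = 10 ^ 7 * m := by norm_num
      _ ≤ R * m := this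
  have hRRM : 10000000 * R ≤ RM := by
    rw [hRM, Nat.mul_comm R m]
    exact Nat.mul_le_mul_right R (by omega)
  have hd3' : d + 2 ≤ 2 * RM := by omega
  have hsmall : 25 * N * (Θ + (d + 2)) ≤ Q := by
    rw [hQ]
    refine le_trans ?_ hΘ
    refine Nat.mul_le_mul_left _ (Nat.add_le_add_left ?_ _)
    rw [Nat.mul_assoc, ← hRM]
    exact hd3'
  have har : 24 * R ^ 2 ≤ 100 * (a * r) := fa_ar ha4 ha6 hr
  have harm : 24 * Q ≤ 100 * (a * rM) := by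
    have := Nat.mul_le_mul_right m har
    rw [hQ, hrM]
    calc 24 * (R ^ 2 * m) = 24 * R ^ 2 * m := by ring
      _ ≤ 100 * (a * r) * m := this
      _ = 100 * (a * (r * m)) := by ring
  have hP : Q ≤ 25 * N * (p * (uc + 1)) := by
    have h3 : 2 * a * rM ≤ 5 * N * p * (uc + 1) := Nat.mul_le_mul hp1 (by omega)
    have h4 : 5 * N * p * (uc + 1) = 5 * (N * (p * (uc + 1))) := by ring
    have h5 : 25 * N * (p * (uc + 1)) = 25 * (N * (p * (uc + 1))) := by ring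
    have h6 : 2 * a * rM = 2 * (a * rM) := by ring
    rw [h5]
    omega
  have hq0 : 1 ≤ q := by
    rcases Nat.eq_zero_or_pos q with h | h
    · exfalso
      subst h
      have h3 : 5 * N * a = 5 * N * p + 5 * N := by
        rw [show a = p + 1 by omega]
        ring
      omega
    · exact h
  have hq1 : a ≤ 5 * N * q := by
    have h3 : 5 * N * a = 5 * N * p + 5 * N + 5 * N * q := by
      rw [show a = p + 1 + q by omega]
      ring
    have h4 : 5 * N * 1 ≤ 5 * N * q := Nat.mul_le_mul_left _ hq0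
    omega
  have hn1 : 100 * rM ≤ 101 * n := by omega
  have hQn : Q ≤ 25 * N * (q * n) := by
    have h3 : a * (100 * rM) ≤ 5 * N * q * (101 * n) := Nat.mul_le_mul hq1 hn1
    have h4 : 5 * N * q * (101 * n) = 505 * (N * (q * n)) := by ring
    have h5 : a * (100 * rM) = 100 * (a * rM) := by ring
    have h6 : 25 * N * (q * n) = 25 * (N * (q * n)) := by ring
    rw [h6]
    omega
  have hmm : 50 * RM ≤ m ^ 2 := by
    rw [hRM, pow_two, ← Nat.mul_assoc]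
    exact Nat.mul_le_mul_right m (by omega)
  refine ⟨a, r, v, m + τ', ha4, ha6, hr, ⟨b, hb⟩, ?_, ?_, ?_, ?_, ?_, ?_, ?_, ?_⟩
  · obtain ⟨k, hk⟩ := hev
    exact ⟨k - b, by omega⟩
  · have h3 := fa_T_mono (show uc + 1 ≤ v + 1 by omega)
    exact hx1'.trans h3
  · have h3 : v + 1 - a = n := by omega
    rw [h3]
    omega
  · rw [Nat.mul_add, ← haM]
    omega
  · have h3 : ((50 * RM : ℕ) : ℤ) ≤ ((m ^ 2 : ℕ) : ℤ) := by exact_mod_cast hmm
    push_cast at h3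
    omega
  · have h3 : ((50 * RM : ℕ) : ℤ) ≤ ((m ^ 2 : ℕ) : ℤ) := by exact_mod_cast hmm
    push_cast at h3
    omega
  · rw [hcap]
    have h3 : ((T n + q * n : ℕ) : ℤ) ≤ T uc := by exact_mod_cast hTn
    have h5 : Θ + (d + 2) ≤ q * n := Nat.le_of_mul_le_mul_left (hsmall.trans hQn) (by omega)
    have h4 : ((Θ + (d + 2) : ℕ) : ℤ) ≤ ((q * n : ℕ) : ℤ) := by exact_mod_cast h5
    push_cast at h3 h4
    linarith
  · have h3 : ((T (uc + 1) + p * (uc + 1) : ℕ) : ℤ) ≤ T (v + 1) := by exact_mod_cast hTv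
    have h5 : Θ + (d + 2) ≤ p * (uc + 1) :=
      Nat.le_of_mul_le_mul_left (hsmall.trans hP) (by omega)
    have h4 : ((Θ + (d + 2) : ℕ) : ℤ) ≤ ((p * (uc + 1) : ℕ) : ℤ) := by exact_mod_cast h5
    push_cast at h3 h4
    linarith

theorem tFinG (h1 : S_OneDG.{u}) (h2 : S_AlN) : S_FinG.{u} := by
  intro F _ _ R m s n Θ hB hR hRs hsR hev hms hn hn1 hn2 hn3 hΘ d
  have h30 : 30 * (R + 1) ^ 2 ≤ m := by omega
  have hm : 1 ≤ m := by omega
  have hs2 : 2 ≤ s := by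
    have h4 : (10 ^ 7 + 1) ^ 2 ≤ (R + 1) ^ 2 := Nat.pow_le_pow_left (by omega) 2
    norm_num at h4
    omega
  -- one degree
  have hone : ∀ e : ℕ, (T (e + 1) : ℤ) - s * T m ≤ e + 1 → -((e : ℤ) + 2) ≤ (T (e + 1) : ℤ) - s * T m →
      hF F e (Multiset.replicate s m) = T (e + 1) - s * T m := by
    intro e he1 he2
    obtain ⟨a, r, v, τ, c1, c2, c3, c4, c5, c6, c7, c8, c9, c10, c11, c12⟩ :=
      fa_num h2 R m s e n Θ _ hR hRs hsR hev hms hn hn1 hn2 hn3 hΘ rfl he1 he2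
    rw [c8] at c9 c10 c11 c12 ⊢
    exact h1 F R m Θ a r s v τ _ hB hR h30 c1 c2 c3 hRs hsR c4 c5 c6 c7 rfl c9 c10 (Or.inl ⟨c11, c12⟩)
  -- the least degree
  have hex : ∃ e, s * T m ≤ T (e + 1) := by
    refine ⟨s * T m, ?_⟩
    have h4 := T_succ (s * T m)
    omega
  classical
  have g1 := Nat.find_spec hex
  obtain ⟨e0, he0⟩ : ∃ e0, e0 = Nat.find hex := ⟨_, rfl⟩
  rw [← he0] at g1
  have hsT : 2 ≤ s * T m := by
    have h4 : 1 ≤ T m := by
      have h5 := fa_T_mono hm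
      rw [T_one] at h5
      exact h5
    calc 2 ≤ s * 1 := by omega
      _ ≤ s * T m := Nat.mul_le_mul_left s h4
  have he1 : 1 ≤ e0 := by
    rcases Nat.eq_zero_or_pos e0 with h | h
    · rw [h, Nat.zero_add, T_one] at g1
      omega
    · exact h
  obtain ⟨e1, he1'⟩ : ∃ e1, e0 = e1 + 1 := ⟨e0 - 1, by omega⟩
  have g2 : T (e1 + 1) < s * T m := by
    have h4 := Nat.find_min hex (m := e1) (by omega)
    omega
  rw [he1'] at g1
  have g3 := T_succ (e1 + 1)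
  have hcast : ((s * T m : ℕ) : ℤ) = s * T m := by push_cast; ring
  have k1 : hF F (e1 + 1) (Multiset.replicate s m) = T (e1 + 1 + 1) - s * T m := by
    apply hone
    · rw [← hcast]
      push_cast [-Nat.cast_mul]
      omega
    · rw [← hcast]
      push_cast [-Nat.cast_mul]
      omega
  have k2 : hF F e1 (Multiset.replicate s m) = T (e1 + 1) - s * T m := by
    apply hone
    · rw [← hcast]
      omega
    · rw [← hcast]
      omega
  rcases Nat.lt_or_ge d (e1 + 1) with hd | hd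
  · have h4 := fa_hF_mono F (Multiset.replicate s m) d (e1 - d)
    rw [show d + (e1 - d) = e1 by omega, k2] at h4
    have h5 := fa_T_mono (show d + 1 ≤ e1 + 1 by omega)
    omega
  · have h4 : hF F (e1 + 1) (Multiset.replicate s m) + TT (Multiset.replicate s m) =
        T (e1 + 1 + 1) := by
      rw [fa_TT_rep, k1]
      omega
    have h5 := hF_exact_mono F (Multiset.replicate s m) (e1 + 1) (d - (e1 + 1)) h4
    rw [show e1 + 1 + (d - (e1 + 1)) = d by omega, fa_TT_rep] at h5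
    omega

end ShghPS
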