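import Pool.Agent.ShghPS.Spec

/-!
# ShghPS/GlueS: gluing along `Y = X^a` with a GT core
-/

namespace ShghPS

open MvPolynomial ShghJ ShghC ShghK

universe u

/-- The difference of two triangular numbers. -/
private theorem glueS_T (a v : ℕ) (ha : 2 ≤ a) (hv : a ≤ v) :
    T (v + 1) + T (a - 2) = T (v + 1 - a) + (a * v + 1) := by
  obtain ⟨b, rfl⟩ := Nat.exists_eq_add_of_le ha
  obtain ⟨w, rfl⟩ := Nat.exists_eq_add_of_le hv
  have e1 : 2 + b - 2 = b := by omega
  have e2 : 2 + b + w + 1 - (2 + b) = w + 1 := by omega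
  rw [e1, e2]
  have h1 := two_T (2 + b + w + 1)
  have h2 := two_T b
  have h3 := two_T (w + 1)
  nlinarith

private theorem glueS_le (a v : ℕ) (ha : 2 ≤ a) (hv : a ≤ v) : T (a - 2) ≤ a * v := by
  obtain ⟨b, rfl⟩ := Nat.exists_eq_add_of_le ha
  obtain ⟨w, rfl⟩ := Nat.exists_eq_add_of_le hv
  have e1 : 2 + b - 2 = b := by omega
  rw [e1]
  have h2 := two_T b
  nlinarith [Nat.zero_le (b * w), Nat.zero_le w, Nat.zero_le b]

private theorem glueS_St_zero (n τ δ : ℕ) (hτ : 1 ≤ τ) : St n τ δ 0 = Sf n (τ - 1) δ := by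
  ext e
  rw [mem_St, mem_Sf]
  constructor
  · rintro (⟨h1, h2⟩ | ⟨_, h2⟩)
    · exact ⟨by omega, h2⟩
    · omega
  · rintro ⟨h1, h2⟩
    exact Or.inl ⟨by omega, h2⟩

theorem tGlueS : S_GlueS.{u} := by
  intro F _ _ a τ v A B ha hτ hv hG hA1 hA2
  have e1 : v + a * τ - τ * a = v := by
    rw [Nat.mul_comm τ a]
    omega
  have e2 : v + a * τ - (τ + 1) * a = v - a := by
    rw [Nat.add_mul, Nat.mul_comm τ a]
    omega
  have e3 : (τ + 1) * a ≤ v + a * τ := by
    rw [Nat.add_mul, Nat.mul_comm τ a]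
    omega
  have hv1 := hG v
  have hv2 := hG (v - a)
  have e4 : v - a + 1 = v + 1 - a := by omega
  rw [e4] at hv2
  have h3 := mGlueR F (v + a * τ) a τ A B (by omega) e3 (by rw [e1]; omega)
    (by rw [e2]; omega)
  rw [e1] at h3
  have hT := glueS_T a v ha hv
  have hle := glueS_le a v ha hv
  have e5 : a * (v + a * τ) = a * v + a ^ 2 * τ := by ring
  have h4 := mRaise F (a ^ 2) τ (a * (v + a * τ) - T (a - 2)) (hF F v A) B
    (by rw [e5]; omega) (by rw [e5]; omega)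
  rw [glueS_St_zero _ _ _ hτ] at h4
  have e6 : a * (v + a * τ) - T (a - 2) - a ^ 2 * τ + 1 = a * v + 1 - T (a - 2) := by
    rw [e5]
    omega
  rw [e6] at h4
  rw [← hv1]
  rcases h4 with h4 | h4
  · exact (h3.trans h4).trans (le_max_left _ _)
  · refine h3.trans (le_trans ?_ (le_max_right _ _))
    have h5 : hF F v A ≤ a * v + 1 - T (a - 2) := by omega
    omega

end ShghPS
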