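import Pool.Agent.ShghPS.Spec

/-!
# ShghPS/LId: the identities of the strip
-/

namespace ShghPS

theorem tLId : S_LId := by
  intro a v m μ β g h L x χ s r hh hs hg hL hd hv
  subst hs
  have hL' : L = a * (v + a * (m + μ)) - h + (m + μ) * β - 2 * g * m := by linarith
  subst hL'
  have hβ : a ^ 2 = 2 * g - 2 * β := by linarith
  have key2 : 2 * ((m + μ) * (a * (v + a * (m + μ)) - h + (m + μ) * β - 2 * g * m - β + 1)) =
      2 * (g * ((μ - 1) * μ) + (χ - x)) := by
    linear_combination hd - hv + (m + μ) * ((m + μ - 1) * (- hg)) - (m + μ) * hh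
  have key2' := mul_left_cancel₀ (two_ne_zero) key2
  refine ⟨?_, key2'⟩
  linear_combination key2' + (m + μ) * (-hg)
end ShghPS
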