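import Pool.Agent.ShghPS.Spec

/-! NUMA: the thickness (pure arithmetic). -/

namespace ShghPS

open MvPolynomial ShghJ ShghC ShghK

universe u

private lemma na_low (v r m : ℤ) (x : ℤ) (hv : 0 ≤ v) (hm : 0 ≤ m)
    (hx : (v + 1) * (v + 2) = r ^ 2 * (m * (m + 1)) + 2 * x) (h0 : 0 ≤ x) : r * m ≤ v + 2 := by
  by_contra hc
  push Not at hc
  have h1 : (v + 1) * (v + 2) < (r * m) * (r * m) := by nlinarith
  have h2 : 0 ≤ r ^ 2 * m := by positivity
  nlinarith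

private lemma na_up (v r m a : ℤ) (x : ℤ) (hr : 0 ≤ r) (hm : 0 ≤ m) (ha : 0 ≤ a)
    (hx : (v + 1) * (v + 2) = r ^ 2 * (m * (m + 1)) + 2 * x) (h0 : x ≤ a * (v + 1)) :
    v + 1 ≤ r * (m + 1) + 2 * a := by
  by_contra hc
  push Not at hc
  have hp : 0 ≤ r * (m + 1) := by positivity
  -- V (V + 1 - 2 a) ≤ r^2 m (m+1)
  have h1 : (v + 1) * (v + 2 - 2 * a) ≤ r ^ 2 * (m * (m + 1)) := by nlinarith
  have h2 : r * (m + 1) * (r * (m + 1)) ≤ (v + 1) * (v + 2 - 2 * a) := by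
    apply mul_le_mul <;> linarith
  have h3 : r * (m + 1) * (r * (m + 1)) = r ^ 2 * (m * (m + 1)) + r * (r * (m + 1)) := by ring
  have h4 : 0 ≤ r * (r * (m + 1)) := by positivity
  have h5 : r * (r * (m + 1)) = 0 := by linarith
  have h6 : (v + 1) * (v + 2 - 2 * a) = r * (m + 1) * (r * (m + 1)) := by linarith
  have h7 : r * (m + 1) * (r * (m + 1)) < (v + 1) * (v + 2 - 2 * a) := by
    nlinarith
  linarith

private lemma na_dlow (d R s m : ℤ) (χ : ℤ) (hR : 10 ^ 7 ≤ R) (hm : 0 ≤ m) (hd : 0 ≤ d)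
    (hs : (R + 1) ^ 2 ≤ s) (hχ : (d + 1) * (d + 2) = s * (m * (m + 1)) + 2 * χ)
    (h1 : -m ^ 2 ≤ 20 * χ) : m * (1000 * R + 999) ≤ 1000 * (d + 2) := by
  by_contra hc
  push Not at hc
  have e1 : (1000 * (d + 2)) * (1000 * (d + 2)) ≤ (m * (1000 * R + 999)) * (m * (1000 * R + 999)) :=
    mul_self_le_mul_self (by linarith) hc.le
  have e2 : s * (m * (m + 1)) ≥ (R + 1) ^ 2 * (m * m) := by
    have : (R + 1) ^ 2 * (m * m) ≤ s * (m * m) := mul_le_mul_of_nonneg_right hs (by positivity)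
    have hs0 : 0 ≤ s := le_trans (by positivity) hs
    nlinarith [mul_nonneg hs0 hm]
  have e3 : (1000 * (d + 2)) * (1000 * (d + 2)) ≥ 1000000 * ((d + 1) * (d + 2)) := by nlinarith
  have e4 : 1000000 * ((R + 1) ^ 2 * (m * m)) - 100000 * (m * m) ≤
      (m * (1000 * R + 999)) * (m * (1000 * R + 999)) := by nlinarith
  have e5 : (m * (1000 * R + 999)) * (m * (1000 * R + 999)) =
      1000000 * ((R + 1) ^ 2 * (m * m)) - (2000 * (R + 1) - 1) * (m * m) := by ring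
  have e6 : (2000 * (R + 1) - 1 - 100000) * (m * m) ≤ 0 := by linarith
  have e7 : 0 < m := by
    rcases hm.lt_or_eq with h | h
    · exact h
    · exfalso
      rw [← h] at hc
      linarith
  have e8 : 0 < (2000 * (R + 1) - 1 - 100000) * (m * m) := by
    apply mul_pos
    · linarith
    · positivity
  linarith

private lemma na_dup (d R s m : ℤ) (χ : ℤ) (hR : 10 ^ 7 ≤ R) (hm : 0 < m) (hd : 0 ≤ d)
    (hs : s ≤ (R + 3) ^ 2) (hχ : (d + 1) * (d + 2) = s * (m * (m + 1)) + 2 * χ)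
    (h1 : 20 * χ ≤ m ^ 2) : 1000 * (d + 1) ≤ 1000 * ((R + 3) * (m + 1)) + m := by
  by_contra hc
  push Not at hc
  have e1 : (1000 * ((R + 3) * (m + 1)) + m) * (1000 * ((R + 3) * (m + 1)) + m) ≤
      (1000 * (d + 1)) * (1000 * (d + 1)) :=
    mul_self_le_mul_self (by positivity) hc.le
  have e2 : s * (m * (m + 1)) ≤ (R + 3) ^ 2 * (m * (m + 1)) :=
    mul_le_mul_of_nonneg_right hs (by positivity)
  have e3 : (1000 * (d + 1)) * (1000 * (d + 1)) ≤ 1000000 * ((d + 1) * (d + 2)) := by nlinarith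
  have e5 : (1000 * ((R + 3) * (m + 1)) + m) * (1000 * ((R + 3) * (m + 1)) + m) =
      1000000 * ((R + 3) ^ 2 * (m * (m + 1))) + 1000000 * ((R + 3) ^ 2 * (m + 1)) +
      2000 * ((R + 3) * (m + 1) * m) + m * m := by ring
  have e6 : 0 ≤ (R + 3) ^ 2 * (m + 1) := by positivity
  have e7 : 100 * (m * m) ≤ (R + 3) * (m + 1) * m := by
    have : 100 * m ≤ (R + 3) * (m + 1) := by nlinarith
    nlinarith
  nlinarith

private lemma na_a (R m : ℤ) (hR : 10 ^ 7 ≤ R) (hm : 30 * (R + 1) ^ 2 ≤ m) :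
    300000000 * R ≤ m ∧ 30 * R ^ 2 ≤ m := by
  constructor <;> nlinarith

private lemma na_b (r a : ℤ) (hr : 0 ≤ r) (ha : 0 ≤ a) :
    4 * (r * a) ≤ (r + a) ^ 2 ∧ a * a ≤ (r + a) ^ 2 := by
  constructor
  · nlinarith [sq_nonneg (r - a)]
  · nlinarith [mul_nonneg hr ha]

theorem tNumA : S_NumA := by
  intro R m a r s d v τ x χ hR hm ha1 ha2 hra hs1 hs2 hd hχ hx hx0 hxa hχ1 hχ2
  -- integer versions
  have hRz : (10 : ℤ) ^ 7 ≤ R := by exact_mod_cast hR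
  have hmz : 30 * ((R : ℤ) + 1) ^ 2 ≤ m := by exact_mod_cast hm
  have ha1z : 4 * (R : ℤ) ≤ 10 * a := by exact_mod_cast ha1
  have ha2z : 10 * (a : ℤ) ≤ 6 * R := by exact_mod_cast ha2
  have hraz : (r : ℤ) + a = R := by exact_mod_cast hra
  have hs1z : ((R : ℤ) + 1) ^ 2 ≤ s := by exact_mod_cast hs1
  have hs2z : (s : ℤ) ≤ ((R : ℤ) + 3) ^ 2 := by exact_mod_cast hs2.le
  have hdz : (d : ℤ) = v + a * τ := by exact_mod_cast hd
  have hr0 : (0 : ℤ) ≤ r := Int.natCast_nonneg r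
  have ha0 : (0 : ℤ) ≤ a := Int.natCast_nonneg a
  have hv0 : (0 : ℤ) ≤ v := Int.natCast_nonneg v
  have hd0 : (0 : ℤ) ≤ d := Int.natCast_nonneg d
  obtain ⟨hmR, h7⟩ := na_a R m hRz hmz
  have hm0 : (0 : ℤ) < m := by linarith
  have q1 := na_low v r m x hv0 hm0.le hx hx0
  have q2 := na_up v r m a x hr0 hm0.le ha0 hx hxa
  have q3 := na_dlow d R s m χ hRz hm0.le hd0 hs1z hχ hχ2
  have q4 := na_dup d R s m χ hRz hm0 hd0 hs2z hχ hχ1
  have hRe : (R : ℤ) = r + a := hraz.symm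
  -- lower bound for a * τ
  have k1 : (R : ℤ) * m = r * m + a * m := by rw [hRe]; ring
  have p1 : 1000 * ((a : ℤ) * τ) ≥ 1000 * (a * m) + 999 * m - 1000 * r - 2000 * a - 1000 := by
    have e1 : (a : ℤ) * τ = d - v := by linarith
    have e2 : m * (1000 * (R : ℤ) + 999) = 1000 * (R * m) + 999 * m := by ring
    have e3 : (r : ℤ) * (m + 1) = r * m + r := by ring
    rw [e1]
    linarith
  have p2 : 1000 * ((a : ℤ) * τ) ≤ 1000 * (a * m) + 3001 * m + 1000 * R + 4000 := by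
    have e1 : (a : ℤ) * τ = d - v := by linarith
    have e2 : ((R : ℤ) + 3) * (m + 1) = R * m + 3 * m + R + 3 := by ring
    rw [e1]
    linarith
  have hτ : (m : ℤ) ≤ τ := by
    by_contra hc
    push Not at hc
    have h1 : (τ : ℤ) ≤ m - 1 := by linarith
    have h2 : (a : ℤ) * τ ≤ a * (m - 1) := mul_le_mul_of_nonneg_left h1 ha0
    have h3 : (a : ℤ) * (m - 1) = a * m - a := by ring
    linarith
  have hτn : m ≤ τ := by exact_mod_cast hτ
  obtain ⟨μ, hμ⟩ := Nat.exists_eq_add_of_le hτn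
  have hμz : (τ : ℤ) = m + μ := by exact_mod_cast hμ
  have k2 : (a : ℤ) * τ = a * m + a * μ := by rw [hμz]; ring
  refine ⟨μ, hμ, ?_, ?_, ?_, ?_, ?_⟩
  · have : 99 * (m : ℤ) + 100 * a ≤ 100 * (a * μ) := by linarith
    exact_mod_cast this
  · have : 100 * ((a : ℤ) * μ) ≤ 310 * m := by linarith
    exact_mod_cast this
  · have h1 : (1 : ℤ) ≤ r := by linarith
    have h2 : (m : ℤ) ≤ r * m := le_mul_of_one_le_left hm0.le h1
    have : (a : ℤ) ≤ v := by linarith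
    exact_mod_cast this
  · rw [Nat.le_div_iff_mul_le (by norm_num)]
    obtain ⟨h2, h3⟩ := na_b r a hr0 ha0
    rw [← hRe] at h2 h3
    have h4 : (a : ℤ) * (v + 1) ≤ a * (r * (m + 1) + 2 * a) :=
      mul_le_mul_of_nonneg_left q2 ha0
    have h5 : (a : ℤ) * (r * (m + 1) + 2 * a) = (r * a) * (m + 1) + 2 * (a * a) := by ring
    have h6 : 4 * (((r : ℤ) * a) * (m + 1)) ≤ (R : ℤ) ^ 2 * (m + 1) := by
      have := mul_le_mul_of_nonneg_right h2 (show (0 : ℤ) ≤ m + 1 by linarith)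
      linarith
    have h8 : 30 * (R : ℤ) ^ 2 * m ≤ m * m := mul_le_mul_of_nonneg_right h7 hm0.le
    have h9 : (0 : ℤ) ≤ (R : ℤ) ^ 2 := by positivity
    have h10 : 1000 * (R : ℤ) ^ 2 ≤ (R : ℤ) ^ 2 * m := by
      have e : (1000 : ℤ) ≤ m := by linarith
      have := mul_le_mul_of_nonneg_left e h9
      linarith
    have h11 : (R : ℤ) ^ 2 * (m + 1) = (R : ℤ) ^ 2 * m + (R : ℤ) ^ 2 := by ring
    have h12 : 30 * (R : ℤ) ^ 2 * m = 30 * ((R : ℤ) ^ 2 * m) := by ring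
    have : 20 * ((a : ℤ) * (v + 1)) * 5 ≤ m ^ 2 := by
      have e1 : (m : ℤ) ^ 2 = m * m := by ring
      rw [e1]
      linarith
    exact_mod_cast this
  · exact_mod_cast q1

end ShghPS
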