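import Pool.Agent.ShghPS.Spec

/-!
# ShghPS/OneDG: one degree, with an arbitrary window of the strip
-/

namespace ShghPS

open MvPolynomial ShghJ ShghC ShghK

universe u

/-- The window `Θ` of the strips (`S_Band` says: `Θ = Th m R`). -/
def BandAt (F : Type u) [Field F] (R m Θ : ℕ) : Prop := ∀ (a g μ β δ L : ℕ) (π : ℤ),
  4 * R ≤ 10 * a → 10 * a ≤ 6 * R →
  32 * R ^ 2 ≤ 100 * g → 100 * g ≤ 43 * R ^ 2 → 99 * m ≤ 100 * (a * μ) → 100 * (a * μ) ≤ 310 * m →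
  2 * g = 2 * β + a ^ 2 → 8 * R ≤ β → L + 2 * g * m = δ + (m + μ) * β →
  ((m : ℤ) + μ + 1) * (L + 1) = g * (μ * (μ + 1)) + π → 20 * π ≤ m ^ 2 → -(m : ℤ) ^ 2 ≤ 20 * π →
  ((Θ : ℤ) ≤ π → (hN F (Sf (a ^ 2) (m + μ) δ) (Multiset.replicate (2 * g) m) : ℤ) ≤ π) ∧
  (π + Θ ≤ 0 → hN F (Sf (a ^ 2) (m + μ) δ) (Multiset.replicate (2 * g) m) = 0)

/-- One degree, general window (see `S_OneD`). -/
def S_OneDG : Prop := ∀ (F : Type u) [Field F] [CharZero F] (R m Θ a r s v τ : ℕ) (χ : ℤ),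
  BandAt F R m Θ →
  10 ^ 7 ≤ R → 30 * (R + 1) ^ 2 ≤ m → 4 * R ≤ 10 * a → 10 * a ≤ 6 * R → r + a = R →
  (R + 1) ^ 2 ≤ s → s < (R + 3) ^ 2 → Even a → Even (s + r) →
  r ^ 2 * T m ≤ T (v + 1) → T (v + 1 - a) ≤ r ^ 2 * T m →
  χ = (T (v + a * τ + 1) : ℤ) - s * T m → 25 * χ ≤ m ^ 2 → -(m : ℤ) ^ 2 ≤ 25 * χ →
  ((T (v + 1) : ℤ) - r ^ 2 * T m + Θ ≤ a * v + 1 - T (a - 2) + χ ∧
      χ + Θ ≤ (T (v + 1) : ℤ) - r ^ 2 * T m) ∨
    ((a : ℤ) * v + 1 - T (a - 2) + Θ ≤ χ) ∨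
    (χ + ((a : ℤ) * v + 1 - T (a - 2)) + Θ ≤ 0) →
  hF F (v + a * τ) (Multiset.replicate s m) = T (v + a * τ + 1) - s * T m

private theorem oneD_T (n : ℕ) : 2 * (T n : ℤ) = n * (n + 1) := by
  exact_mod_cast two_T n

private theorem oneD_le (n a : ℕ) : T n ≤ T (n - a) + a * n := by
  have h1 := two_T n
  have h2 := two_T (n - a)
  rcases Nat.lt_or_ge n a with h | h
  · have h3 : n * (n + 1) ≤ 2 * (a * n) := by nlinarith
    omega
  · obtain ⟨k, rfl⟩ : ∃ k, n = k + a := ⟨n - a, by omega⟩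
    rw [Nat.add_sub_cancel] at h2 ⊢
    have h3 : (k + a) * (k + a + 1) ≤ k * (k + 1) + 2 * (a * (k + a)) := by
      have : a ≤ a * a := Nat.le_mul_self a
      nlinarith
    omega

private theorem oneD_g (R a r s : ℕ) (hR : 10 ^ 7 ≤ R) (ha1 : 4 * R ≤ 10 * a)
    (ha2 : 10 * a ≤ 6 * R) (hra : r + a = R) (hs1 : (R + 1) ^ 2 ≤ s) (hs2 : s < (R + 3) ^ 2)
    (hae : Even a) (hsr : Even (s + r)) : ∃ g β : ℕ, s = r ^ 2 + 2 * g ∧ 2 * g = 2 * β + a ^ 2 ∧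
      32 * R ^ 2 ≤ 100 * g ∧ 100 * g ≤ 43 * R ^ 2 ∧ 8 * R ≤ β := by
  obtain ⟨b, hb⟩ := hae
  obtain ⟨c, hc⟩ := hsr
  have hr2 : Even (r * (r + 1)) := Nat.even_mul_succ_self r
  obtain ⟨e, he⟩ := hr2
  have e1 : r * (r + 1) = r ^ 2 + r := by ring
  have hlow : r ^ 2 + a ^ 2 + 2 * (r * a) ≤ (R + 1) ^ 2 := by
    rw [← hra]; nlinarith
  have e2 : a ^ 2 = 4 * b ^ 2 := by rw [hb]; ring
  have hra2 : 16 * R ^ 2 ≤ 100 * (r * a) := by
    have h1 : 4 * R ≤ 10 * r := by omega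
    have := Nat.mul_le_mul h1 ha1
    nlinarith
  have hRR : 10 ^ 7 * R ≤ R ^ 2 := by rw [pow_two]; exact Nat.mul_le_mul_right _ hR
  refine ⟨c - e, c - e - 2 * b ^ 2, ?_, ?_, ?_, ?_, ?_⟩
  · omega
  · omega
  · have h3 : 64 * R ^ 2 ≤ 100 * ((R + 1) ^ 2 - r ^ 2) := by
      have h4 : 64 * R ^ 2 + 100 * r ^ 2 ≤ 100 * (R + 1) ^ 2 := by
        have h5 : 10 * r ≤ 6 * R := by omega
        have h6 := Nat.pow_le_pow_left h5 2
        have h7 : (10 * r) ^ 2 = 100 * r ^ 2 := by ring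
        have h8 : (6 * R) ^ 2 = 36 * R ^ 2 := by ring
        have h9 : R ^ 2 ≤ (R + 1) ^ 2 := Nat.pow_le_pow_left (by omega) 2
        omega
      omega
    omega
  · have h4 : 100 * (R + 3) ^ 2 ≤ 86 * R ^ 2 + 100 * r ^ 2 := by
      have h5 : 4 * R ≤ 10 * r := by omega
      have h6 := Nat.pow_le_pow_left h5 2
      have h7 : (10 * r) ^ 2 = 100 * r ^ 2 := by ring
      have h8 : (4 * R) ^ 2 = 16 * R ^ 2 := by ring
      have h9 : (R + 3) ^ 2 = R ^ 2 + 6 * R + 9 := by ring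
      omega
    omega
  · omega

theorem tOneDG (h2 : S_NumA) (h3 : S_LId) (h4 : S_GlueS.{u})
    (h5 : ShghK.S_SqGT.{u}) : S_OneDG.{u} := by
  intro F _ _ R m Θ a r s v τ χ h1 hR hm ha1 ha2 hra hs1 hs2 hae hsr hx0 hx1 hχ hχ1 hχ2 hcase
  obtain ⟨g, β, hsg, hgβ, hg1, hg2, hβ⟩ := oneD_g R a r s hR ha1 ha2 hra hs1 hs2 hae hsr
  have Tv := oneD_T (v + 1)
  have Tm := oneD_T m
  have Td := oneD_T (v + a * τ + 1)
  have ha4 : 2 ≤ a := by omega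
  have Ta : 2 * (T (a - 2) : ℤ) = ((a : ℤ) - 2) * (a - 1) := by
    have := oneD_T (a - 2)
    rw [this, Nat.cast_sub ha4]; push_cast; ring
  push_cast at Tv Td
  obtain ⟨x, hx⟩ : ∃ x : ℤ, x = (T (v + 1) : ℤ) - r ^ 2 * T m := ⟨_, rfl⟩
  have hx0' : 0 ≤ x := by
    have : ((r ^ 2 * T m : ℕ) : ℤ) ≤ T (v + 1) := by exact_mod_cast hx0
    push_cast at this
    linarith
  have hxa : x ≤ a * (v + 1) := by
    have h6 := oneD_le (v + 1) a
    have h7 : T (v + 1) ≤ r ^ 2 * T m + a * (v + 1) := by omega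
    have : (T (v + 1) : ℤ) ≤ r ^ 2 * T m + a * (v + 1) := by exact_mod_cast h7
    linarith
  have hd2 : (((v + a * τ : ℕ) : ℤ) + 1) * ((v + a * τ : ℕ) + 2) = s * (m * (m + 1)) + 2 * χ := by
    push_cast
    rw [hχ]
    linear_combination -Td + s * Tm
  have hv2 : ((v : ℤ) + 1) * (v + 2) = r ^ 2 * (m * (m + 1)) + 2 * x := by
    rw [hx]
    linear_combination -Tv + r ^ 2 * Tm
  have hm2 : (0 : ℤ) ≤ (m : ℤ) ^ 2 := by positivity
  obtain ⟨μ, hτ, hμ1, hμ2, hav, hcap, hrv⟩ := h2 R m a r s (v + a * τ) v τ x χ hR hm ha1 ha2 hra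
    hs1 hs2 rfl hd2 hv2 hx0' hxa (by linarith) (by linarith)
  subst hτ
  -- the capacity
  obtain ⟨cap, hcapd⟩ : ∃ c : ℤ, c = (a : ℤ) * v + 1 - T (a - 2) := ⟨_, rfl⟩
  have hxc : x ≤ cap := by
    have h7 : (T (v + 1) : ℤ) - T (v + 1 - a) = cap := by
      have h8 := oneD_T (v + 1 - a)
      rw [Nat.cast_sub (by omega : a ≤ v + 1)] at h8
      push_cast at h8
      have : 2 * ((T (v + 1) : ℤ) - T (v + 1 - a)) = 2 * cap := by
        rw [hcapd]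
        linear_combination Tv - h8 + Ta
      linarith
    have h8 : (T (v + 1 - a) : ℤ) ≤ r ^ 2 * T m := by exact_mod_cast hx1
    linarith
  have hTa0 : (0 : ℤ) ≤ T (a - 2) := Nat.cast_nonneg _
  have hcap2 : 100 * cap ≤ (m : ℤ) ^ 2 := by
    have h9 : 20 * (a * (v + 1)) * 5 ≤ m ^ 2 := by omega
    have h10 : (20 * ((a : ℤ) * (v + 1)) * 5) ≤ (m : ℤ) ^ 2 := by exact_mod_cast h9
    have h11 : cap ≤ a * (v + 1) := by
      rw [hcapd]
      have : (2 : ℤ) ≤ a := by exact_mod_cast ha4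
      linarith
    linarith
  have hTav : T (a - 2) ≤ a * v := by
    have e1 := two_T (a - 2)
    have e2 : (a - 2) * (a - 2 + 1) ≤ a * v := Nat.mul_le_mul (by omega) (by omega)
    omega
  -- delta
  obtain ⟨δ, hδ⟩ : ∃ δ : ℕ, δ = a * (v + a * (m + μ)) - T (a - 2) := ⟨_, rfl⟩
  have hδz : (δ : ℤ) = a * (v + a * (m + μ)) - T (a - 2) := by
    have e1 : a * v ≤ a * (v + a * (m + μ)) := Nat.mul_le_mul_left _ (by omega)
    rw [hδ, Nat.cast_sub (by omega)]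
    push_cast
    ring
  obtain ⟨Lz, hLz⟩ : ∃ Lz : ℤ, Lz = (δ : ℤ) + (m + μ) * β - 2 * g * m := ⟨_, rfl⟩
  obtain ⟨l1, l2⟩ := h3 a v m μ β g (T (a - 2)) Lz x χ s r Ta (by exact_mod_cast hsg)
    (by exact_mod_cast hgβ) (by rw [hLz, hδz]; ring) (by push_cast at hd2; linarith) hv2
  have hπ1 : 20 * (cap + χ - x) ≤ (m : ℤ) ^ 2 := by linarith
  have hπ2 : -(m : ℤ) ^ 2 ≤ 20 * (cap + χ - x) := by linarith
  have hπ3 : 20 * (χ - x) ≤ (m : ℤ) ^ 2 := by linarith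
  have hπ4 : -(m : ℤ) ^ 2 ≤ 20 * (χ - x) := by linarith
  rw [← hcapd, ← hx] at hcase
  have hm0 : 1 ≤ m := by
    have : 1 ≤ (R + 1) ^ 2 := Nat.one_le_pow _ _ (by omega)
    omega
  obtain ⟨ν, hν⟩ : ∃ ν, μ = ν + 1 := by
    refine ⟨μ - 1, ?_⟩
    rcases Nat.eq_zero_or_pos μ with h | h
    · subst h; omega
    · omega
  have hν1 : 99 * m ≤ 100 * (a * ν) := by
    subst hν
    have : a * (ν + 1) = a * ν + a := by ring
    omega
  have hν2 : 100 * (a * ν) ≤ 310 * m := by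
    subst hν
    have : a * (ν + 1) = a * ν + a := by ring
    omega
  -- g ν^2 is large
  have hgν : 87 * m ^ 2 ≤ 100 * (g * ν ^ 2) := by
    have k1 := Nat.pow_le_pow_left hν1 2
    have k2 := Nat.pow_le_pow_left ha2 2
    have k3 : (99 * m) ^ 2 = 9801 * m ^ 2 := by ring
    have k4 : (100 * (a * ν)) ^ 2 = 10000 * (a ^ 2 * ν ^ 2) := by ring
    have k5 : (10 * a) ^ 2 = 100 * a ^ 2 := by ring
    have k6 : (6 * R) ^ 2 = 36 * R ^ 2 := by ring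
    rw [k3, k4] at k1
    rw [k5, k6] at k2
    have k7 := Nat.mul_le_mul_right (ν ^ 2) k2
    have k8 := Nat.mul_le_mul_right (ν ^ 2) hg1
    have k9 : 100 * a ^ 2 * ν ^ 2 = 100 * (a ^ 2 * ν ^ 2) := by ring
    have k10 : 36 * R ^ 2 * ν ^ 2 = 36 * (R ^ 2 * ν ^ 2) := by ring
    have k11 : 32 * R ^ 2 * ν ^ 2 = 32 * (R ^ 2 * ν ^ 2) := by ring
    have k12 : 100 * g * ν ^ 2 = 100 * (g * ν ^ 2) := by ring
    rw [k9, k10] at k7
    rw [k11, k12] at k8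
    omega
  have hgνz : 87 * (m : ℤ) ^ 2 ≤ 100 * (g * (ν : ℤ) ^ 2) := by exact_mod_cast hgν
  have hm1 : (1 : ℤ) ≤ (m : ℤ) ^ 2 := by
    have : 1 ≤ m ^ 2 := Nat.one_le_pow _ _ hm0
    exact_mod_cast this
  have hνz : (μ : ℤ) = ν + 1 := by rw [hν]; push_cast; ring
  have hgn : (0 : ℤ) ≤ (g : ℤ) * ν := by positivity
  have hgn2 : (0 : ℤ) ≤ (g : ℤ) := by positivity
  have hLβ : 0 ≤ Lz - β := by
    rw [hνz] at l2
    have e1 : (g : ℤ) * ((ν + 1 - 1) * (ν + 1)) = g * ν ^ 2 + g * ν := by ring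
    rw [e1] at l2
    have e2 : 0 < ((m : ℤ) + (ν + 1)) * (Lz - β + 1) := by
      rw [l2]; linarith
    have e3 : (0 : ℤ) < (m : ℤ) + (ν + 1) := by positivity
    have e4 := (mul_pos_iff_of_pos_left e3).1 e2
    linarith
  have hL0 : 0 ≤ Lz := by
    have : (0 : ℤ) ≤ β := by positivity
    linarith
  obtain ⟨L, hL⟩ := Int.eq_ofNat_of_zero_le hL0
  obtain ⟨L1, hL1⟩ := Int.eq_ofNat_of_zero_le hLβ
  have hb1 := h1 a g μ β δ L (cap + χ - x) ha1 ha2 hg1 hg2 (by omega) hμ2 hgβ hβ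
    (by zify; rw [← hL, hLz]; ring) (by rw [← hL, hcapd]; exact l1) hπ1 hπ2
  have hb2 := h1 a g ν β δ L1 (χ - x) ha1 ha2 hg1 hg2 hν1 hν2 hgβ hβ
    (by zify; rw [← hL1, hLz, hνz]; ring)
    (by rw [← hL1]; rw [hνz] at l2; linear_combination l2) hπ3 hπ4
  have hTA : TT (Multiset.replicate (r ^ 2) m) = r ^ 2 * T m := by
    simp [TT, Multiset.map_replicate, Multiset.sum_replicate]
  have hG := h4 F a (m + μ) v (Multiset.replicate (r ^ 2) m) (Multiset.replicate (2 * g) m) ha4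
    (by omega) hav (h5 F m r) (by rw [hTA]; exact hx0) (by rw [hTA]; exact hx1)
  rw [← Multiset.replicate_add, ← hsg, hTA, ← hδ, show m + μ - 1 = m + ν by omega] at hG
  have hlow := (hfun_hF F (v + a * (m + μ)) fun n hn _ => Nat.cast_ne_zero.2 (by omega)).chi_le
    (Multiset.replicate s m)
  have hTS : TT (Multiset.replicate s m) = s * T m := by
    simp [TT, Multiset.map_replicate, Multiset.sum_replicate]
  rw [hTS] at hlow
  have hX : ((T (v + 1) - r ^ 2 * T m : ℕ) : ℤ) = x := by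
    rw [Nat.cast_sub hx0, hx]; push_cast; ring
  have hC : ((a * v + 1 - T (a - 2) : ℕ) : ℤ) = cap := by
    rw [Nat.cast_sub (by omega), hcapd]; push_cast; ring
  have hχ' : χ = ((T (v + a * (m + μ) + 1) : ℕ) : ℤ) - ((s * T m : ℕ) : ℤ) := by
    rw [hχ]; push_cast; ring
  generalize T (v + 1) - r ^ 2 * T m = X at hX hG
  generalize a * v + 1 - T (a - 2) = C at hC hG
  generalize T (v + a * (m + μ) + 1) = D at hχ' hlow ⊢
  generalize s * T m = E at hχ' hlow ⊢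
  generalize hF F (v + a * (m + μ)) (Multiset.replicate s m) = h at hlow hG ⊢
  generalize hN F (Sf (a ^ 2) (m + μ) δ) (Multiset.replicate (2 * g) m) = p at hb1 hG
  generalize hN F (Sf (a ^ 2) (m + ν) δ) (Multiset.replicate (2 * g) m) = q at hb2 hG
  have hTh : (0 : ℤ) ≤ (Θ : ℤ) := Nat.cast_nonneg _
  generalize (Θ : ℤ) = θ at hTh hb1 hb2 hcase
  have hG' : h ≤ q ∨ h ≤ X + p - C := by
    rcases le_total q (X + p - C) with h | h
    · right; rwa [max_eq_right h] at hG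
    · left; rwa [max_eq_left h] at hG
  obtain ⟨b1, b1'⟩ := hb1
  obtain ⟨b2, b2'⟩ := hb2
  rcases hcase with ⟨c1, c2⟩ | c1 | c1
  · have e1 := b1 (by linarith)
    have e2 := b2' (by linarith)
    omega
  · have e1 := b1 (by linarith)
    have e2 := b2 (by linarith)
    omega
  · have e1 := b1' (by linarith)
    have e2 := b2' (by linarith)
    omega

end ShghPS
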