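import Pool.Agent.ShghPS.MainB
import Pool.Agent.ShghPS.NumA
import Pool.Agent.ShghPS.OneDG
import Pool.Agent.ShghPS.OneD
import Pool.Agent.ShghPS.Al5
import Pool.Agent.ShghPS.FinA

/-!
# ShghPS/MainA: homogeneous systems with `10 ^ 20 m ^ 2 ≤ s ^ 5`
-/

namespace ShghPS

open MvPolynomial ShghJ ShghC ShghK

universe u

theorem mOneDG : S_OneDG.{u} := tOneDG tNumA tLId tGlueS ShghK.mSqGT

theorem mOneD : S_OneD.{u} := tOneD mBand tNumA tLId tGlueS ShghK.mSqGT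

/-- Homogeneous systems with `10 ^ 20 m ^ 2 ≤ s ^ 5`. -/
theorem mFinA : S_FinA.{u} := tFinA mOneD tAl5 ShghK.mHom23

end ShghPS
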