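import Pool.Agent.ShghPS.Spec

/-!
# ShghPS, Num1: the numbers of a strip, first part
-/

namespace ShghPS

open MvPolynomial ShghJ ShghC ShghK

universe u

/-- the real inequalities without `J` -/
private theorem n1_real (R m a g μ l t π : ℝ) (hR : 10000000 ≤ R) (hm : 30 * (R + 1) ^ 2 ≤ m)
    (ha1 : 4 * R ≤ 10 * a) (ha2 : 10 * a ≤ 6 * R) (hg1 : 32 * R ^ 2 ≤ 100 * g)
    (hg2 : 100 * g ≤ 43 * R ^ 2) (hμ1 : 99 * m ≤ 100 * (a * μ)) (hμ2 : 100 * (a * μ) ≤ 310 * m)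
    (hμ0 : 0 ≤ μ) (hl0 : 0 ≤ l) (ht : t = m + μ + 1) (hπ : t * l = g * (μ * (μ + 1)) + π)
    (hπ1 : 20 * π ≤ m ^ 2) (hπ2 : -m ^ 2 ≤ 20 * π) :
    165 * m ≤ 100 * (μ * R) ∧ 100 * (μ * R) ≤ 775 * m ∧ 0.8211 * m ≤ l ∧
    100 * (μ ^ 2 * R ^ 2) ≤ 332 * (m * l) ∧ g * (μ + 1) ≤ 0.6431 * (R * l) ∧
    0.12117 * (R * l) ≤ g * (μ + 1) ∧ l ^ 2 ≤ 25.94 * (g * μ ^ 2) ∧ 0.8212 * m ^ 2 ≤ t * l ∧
    300000000 * R ≤ m ∧ 10000000 * μ ≤ 7.75 * m ∧ 49 * R ≤ μ := by
  have hR0 : 0 < R := by linarith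
  have hR2 : 0 < R ^ 2 := by positivity
  have hRR : 10000000 * R ≤ R ^ 2 := by
    calc 10000000 * R ≤ R * R := mul_le_mul_of_nonneg_right hR hR0.le
      _ = R ^ 2 := by ring
  have f4 : 300000000 * R ≤ m := by
    have : 30 * (R + 1) ^ 2 = 30 * R ^ 2 + 60 * R + 30 := by ring
    linarith
  have hm0 : 0 < m := by linarith
  have f1 : 165 * m ≤ 100 * (μ * R) := by
    have : 100 * (a * μ) ≤ 60 * (μ * R) := by
      calc 100 * (a * μ) = 10 * (10 * a) * μ := by ring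
        _ ≤ 10 * (6 * R) * μ := mul_le_mul_of_nonneg_right (by linarith) hμ0
        _ = 60 * (μ * R) := by ring
    linarith
  have f2 : 100 * (μ * R) ≤ 775 * m := by
    have : 40 * (μ * R) ≤ 100 * (a * μ) := by
      calc 40 * (μ * R) = 10 * (4 * R) * μ := by ring
        _ ≤ 10 * (10 * a) * μ := mul_le_mul_of_nonneg_right (by linarith) hμ0
        _ = 100 * (a * μ) := by ring
    linarith
  have f3 : 10000000 * μ ≤ 7.75 * m := by
    have : 10000000 * μ ≤ R * μ := mul_le_mul_of_nonneg_right hR hμ0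
    linarith
  have f0 : 49 * R ≤ μ := by
    have h1 : 30 * R ^ 2 ≤ m := by
      have : 30 * (R + 1) ^ 2 = 30 * R ^ 2 + 60 * R + 30 := by ring
      linarith
    refine le_of_mul_le_mul_right ?_ hR0
    calc 49 * R * R = 49 * R ^ 2 := by ring
      _ ≤ μ * R := by linarith
  have hμ00 : 0 < μ := by linarith
  have f5 : t ≤ 1.000001 * m := by linarith
  have htm : m ≤ t := by linarith
  have ht0 : 0 < t := by linarith
  have hg0 : 0 < g := by linarith
  -- q = (μ R)^2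
  have hq1 : 2.7225 * m ^ 2 ≤ (μ * R) ^ 2 := by
    calc 2.7225 * m ^ 2 = (1.65 * m) ^ 2 := by ring
      _ ≤ (μ * R) ^ 2 := pow_le_pow_left₀ (by positivity) (by linarith) 2
  have hq2 : (μ * R) ^ 2 ≤ 60.0625 * m ^ 2 := by
    calc (μ * R) ^ 2 ≤ (7.75 * m) ^ 2 := pow_le_pow_left₀ (by positivity) (by linarith) 2
      _ = 60.0625 * m ^ 2 := by ring
  have hY1 : 0.32 * (μ * R) ^ 2 ≤ g * μ ^ 2 := by
    have : 32 * R ^ 2 * μ ^ 2 ≤ 100 * g * μ ^ 2 := mul_le_mul_of_nonneg_right hg1 (by positivity)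
    have e1 : 32 * R ^ 2 * μ ^ 2 = 32 * (μ * R) ^ 2 := by ring
    have e2 : 100 * g * μ ^ 2 = 100 * (g * μ ^ 2) := by ring
    linarith
  have hY2 : g * μ ^ 2 ≤ 0.43 * (μ * R) ^ 2 := by
    have : 100 * g * μ ^ 2 ≤ 43 * R ^ 2 * μ ^ 2 := mul_le_mul_of_nonneg_right hg2 (by positivity)
    have e1 : 43 * R ^ 2 * μ ^ 2 = 43 * (μ * R) ^ 2 := by ring
    have e2 : 100 * g * μ ^ 2 = 100 * (g * μ ^ 2) := by ring
    linarith
  have hY3 : 0.8712 * m ^ 2 ≤ g * μ ^ 2 := by linarith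
  have hY4 : g * μ ^ 2 ≤ 25.83 * m ^ 2 := by linarith
  have hgμ : 100000000 * (g * μ) ≤ g * μ ^ 2 := by
    have : 100000000 ≤ μ := by linarith
    calc 100000000 * (g * μ) ≤ μ * (g * μ) := mul_le_mul_of_nonneg_right this (by positivity)
      _ = g * μ ^ 2 := by ring
  have hgμ0 : 0 ≤ g * μ := by positivity
  have hexp : g * (μ * (μ + 1)) = g * μ ^ 2 + g * μ := by ring
  have f9 : 0.8212 * m ^ 2 ≤ t * l := by
    rw [hπ, hexp]
    linarith
  have hml : m * l ≤ t * l := mul_le_mul_of_nonneg_right htm hl0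
  have htl : t * l ≤ 1.000001 * (m * l) := by
    calc t * l ≤ 1.000001 * m * l := mul_le_mul_of_nonneg_right f5 hl0
      _ = 1.000001 * (m * l) := by ring
  have f11 : 0.8211 * m ≤ l := by
    refine le_of_mul_le_mul_left ?_ hm0
    have e : m * (0.8211 * m) = 0.8211 * m ^ 2 := by ring
    rw [e]
    have : 0 ≤ m ^ 2 := by positivity
    linarith
  have hl00 : 0 < l := by linarith
  have fC4 : 100 * (μ ^ 2 * R ^ 2) ≤ 332 * (m * l) := by
    have e : μ ^ 2 * R ^ 2 = (μ * R) ^ 2 := by ring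
    rw [e]
    rw [hexp] at hπ
    linarith
  -- the product with μ
  have hGμ : g * (μ + 1) * μ = t * l - π := by
    rw [hπ]
    ring
  have fG1 : g * (μ + 1) ≤ 0.6431 * (R * l) := by
    refine le_of_mul_le_mul_right ?_ hμ00
    rw [hGμ]
    have h1 : m * l ≤ 100 / 165 * (μ * R) * l := mul_le_mul_of_nonneg_right (by linarith) hl0
    have h2 : 100 / 165 * (μ * R) * l = 100 / 165 * (μ * R * l) := by ring
    have h3 : 0.6431 * (R * l) * μ = 0.6431 * (μ * R * l) := by ring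
    rw [h3]
    have h4 : 0 ≤ μ * R * l := by positivity
    linarith
  have fG2 : 0.12117 * (R * l) ≤ g * (μ + 1) := by
    refine le_of_mul_le_mul_right ?_ hμ00
    rw [hGμ]
    have h1 : 100 / 775 * (μ * R) * l ≤ m * l := mul_le_mul_of_nonneg_right (by linarith) hl0
    have h2 : 100 / 775 * (μ * R) * l = 100 / 775 * (μ * R * l) := by ring
    have h3 : 0.12117 * (R * l) * μ = 0.12117 * (μ * R * l) := by ring
    rw [h3]
    have h4 : 0 ≤ μ * R * l := by positivity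
    linarith
  have fl2 : l ^ 2 ≤ 25.94 * (g * μ ^ 2) := by
    have hm2 : 0 < m ^ 2 := by positivity
    have h1 : m * l ≤ g * μ ^ 2 + 0.050001 * m ^ 2 := by
      rw [hexp] at hπ
      linarith
    have h2 : (m * l) ^ 2 ≤ (g * μ ^ 2 + 0.050001 * m ^ 2) ^ 2 :=
      pow_le_pow_left₀ (by positivity) h1 2
    have h3 : (g * μ ^ 2) * (g * μ ^ 2) ≤ (25.83 * m ^ 2) * (g * μ ^ 2) :=
      mul_le_mul_of_nonneg_right hY4 (by positivity)
    have h4 : (0.8712 * m ^ 2) * m ^ 2 ≤ (g * μ ^ 2) * m ^ 2 :=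
      mul_le_mul_of_nonneg_right hY3 hm2.le
    refine le_of_mul_le_mul_left ?_ hm2
    have e1 : m ^ 2 * l ^ 2 = (m * l) ^ 2 := by ring
    have e2 : (g * μ ^ 2 + 0.050001 * m ^ 2) ^ 2 = (g * μ ^ 2) * (g * μ ^ 2) +
        0.100002 * ((g * μ ^ 2) * m ^ 2) + 0.050001 ^ 2 / 0.8712 * ((0.8712 * m ^ 2) * m ^ 2) := by
      ring
    have e3 : m ^ 2 * (25.94 * (g * μ ^ 2)) = 25.94 * ((g * μ ^ 2) * m ^ 2) := by ring
    have e4 : (25.83 * m ^ 2) * (g * μ ^ 2) = 25.83 * ((g * μ ^ 2) * m ^ 2) := by ring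
    rw [e1, e3]
    rw [e2] at h2
    rw [e4] at h3
    have h5 : 0.050001 ^ 2 / 0.8712 * ((0.8712 * m ^ 2) * m ^ 2) ≤
        0.050001 ^ 2 / 0.8712 * ((g * μ ^ 2) * m ^ 2) :=
      mul_le_mul_of_nonneg_left h4 (by norm_num)
    have h6 : 0 ≤ (g * μ ^ 2) * m ^ 2 := by positivity
    have h7 : (0.050001 : ℝ) ^ 2 / 0.8712 * ((g * μ ^ 2) * m ^ 2) ≤ 0.003 * ((g * μ ^ 2) * m ^ 2) :=
      mul_le_mul_of_nonneg_right (by norm_num) h6
    linarith
  exact ⟨f1, f2, f11, fC4, fG1, fG2, fl2, f9, f4, f3, f0⟩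

/-- the real inequalities for `J` -/
private theorem n1_J (R m g μ l t J : ℝ) (hR : 10000000 ≤ R) (hg2 : 100 * g ≤ 43 * R ^ 2)
    (f2 : 100 * (μ * R) ≤ 775 * m) (f11 : 0.8211 * m ≤ l) (fG1 : g * (μ + 1) ≤ 0.6431 * (R * l))
    (fG2 : 0.12117 * (R * l) ≤ g * (μ + 1)) (fl2 : l ^ 2 ≤ 25.94 * (g * μ ^ 2))
    (f9 : 0.8212 * m ^ 2 ≤ t * l) (f4 : 300000000 * R ≤ m) (f3 : 10000000 * μ ≤ 7.75 * m)
    (f0 : 49 * R ≤ μ) (hg0 : 0 ≤ g) (htm : m ≤ t) (hJ0 : 0 ≤ J)
    (hJ1 : J * (l + 6 * μ) ≤ g * (μ + 1)) (hJ2 : g * (μ + 1) < (J + 1) * (l + 6 * μ)) :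
    J ≤ 0.65 * R ∧ 0.12 * R ≤ J ∧ J * (μ * (μ + 1) + 2 * l) ≤ t * l ∧ J * l ≤ 4 * (R * m) ∧
    l + 6 * μ ≤ 27 * (μ * J) := by
  have hR0 : 0 < R := by linarith
  have hm0 : 0 < m := by linarith
  have hμ0 : 0 < μ := by linarith
  have hl0 : 0 < l := by linarith
  have f12 : 6 * μ ≤ 0.00001 * l := by linarith
  have hJl : J * l ≤ g * (μ + 1) := by
    have : 0 ≤ J * (6 * μ) := by positivity
    have e : J * (l + 6 * μ) = J * l + J * (6 * μ) := by ring
    linarith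
  have j1 : J ≤ 0.6431 * R := by
    refine le_of_mul_le_mul_right ?_ hl0
    calc J * l ≤ 0.6431 * (R * l) := hJl.trans fG1
      _ = 0.6431 * R * l := by ring
  have j2 : 0.12 * R ≤ J := by
    have h1 : (J + 1) * (l + 6 * μ) ≤ (J + 1) * (1.00001 * l) :=
      mul_le_mul_of_nonneg_left (by linarith) (by linarith)
    have h2 : 0.12117 * R ≤ 1.00001 * (J + 1) := by
      refine le_of_mul_le_mul_right ?_ hl0
      calc 0.12117 * R * l = 0.12117 * (R * l) := by ring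
        _ ≤ (J + 1) * (1.00001 * l) := by linarith
        _ = 1.00001 * (J + 1) * l := by ring
    linarith
  have hJpos : 0 < J := by linarith
  have j3 : J * (μ * (μ + 1) + 2 * l) ≤ t * l := by
    have e0 : J * (μ * (μ + 1) + 2 * l) = J * μ * μ + J * μ + 2 * (J * l) := by ring
    have hJμ : J * μ ≤ 5 * m := by
      calc J * μ ≤ 0.6431 * R * μ := mul_le_mul_of_nonneg_right j1 hμ0.le
        _ = 0.6431 * (μ * R) := by ring
        _ ≤ 5 * m := by linarith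
    have e1 : J * μ * μ ≤ 0.01 * m ^ 2 := by
      calc J * μ * μ ≤ 5 * m * (0.000001 * m) :=
            mul_le_mul hJμ (by linarith) hμ0.le (by positivity)
        _ = 0.000005 * m ^ 2 := by ring
        _ ≤ 0.01 * m ^ 2 := by
            refine mul_le_mul_of_nonneg_right (by norm_num) (by positivity)
    have e2 : J * μ ≤ 0.01 * m ^ 2 := by
      have : 1 ≤ m := by linarith
      calc J * μ ≤ 5 * m := hJμ
        _ ≤ 0.01 * m * m := by
            refine mul_le_mul_of_nonneg_right ?_ hm0.le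
            linarith
        _ = 0.01 * m ^ 2 := by ring
    have e3 : 2 * (J * l) ≤ 0.01 * (m * l) := by
      calc 2 * (J * l) = 2 * J * l := by ring
        _ ≤ 0.01 * m * l := mul_le_mul_of_nonneg_right (by linarith) hl0.le
        _ = 0.01 * (m * l) := by ring
    have e4 : m * l ≤ t * l := mul_le_mul_of_nonneg_right htm hl0.le
    have e5 : 0 ≤ m ^ 2 := by positivity
    have e6 : 0 ≤ m * l := by positivity
    rw [e0]
    linarith
  have j4 : J * l ≤ 4 * (R * m) := by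
    refine hJl.trans ?_
    have e1 : g * (μ + 1) ≤ 0.43 * R ^ 2 * (μ + 1) :=
      mul_le_mul_of_nonneg_right (by linarith) (by linarith)
    have e2 : 0.43 * R ^ 2 * (μ + 1) = 0.43 * (μ * R) * R + 0.43 * R * R := by ring
    have e3 : 0.43 * (μ * R) * R ≤ 3.3325 * m * R := mul_le_mul_of_nonneg_right (by linarith) hR0.le
    have e4 : 0.43 * R * R ≤ 0.1 * m * R := mul_le_mul_of_nonneg_right (by linarith) hR0.le
    have e5 : 4 * (R * m) = 4 * m * R := by ring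
    have e6 : 0 ≤ m * R := by positivity
    rw [e5]
    linarith
  refine ⟨by linarith, j2, j3, j4, ?_⟩
  have hD0 : 0 < l + 6 * μ := by linarith
  refine le_of_mul_le_mul_right ?_ hD0
  have e1 : (l + 6 * μ) * (l + 6 * μ) ≤ (1.00001 * l) * (1.00001 * l) :=
    mul_le_mul (by linarith) (by linarith) hD0.le (by positivity)
  have e2 : (1.00001 * l) * (1.00001 * l) ≤ 1.0001 * l ^ 2 := by
    have e : (1.00001 * l) * (1.00001 * l) = 1.0000200001 * l ^ 2 := by ring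
    rw [e]
    exact mul_le_mul_of_nonneg_right (by norm_num) (by positivity)
  have e3 : μ * (l + 6 * μ) ≤ 0.001 * l ^ 2 := by
    calc μ * (l + 6 * μ) ≤ 0.00001 * l * (2 * l) :=
          mul_le_mul (by linarith) (by linarith) hD0.le (by positivity)
      _ = 0.00002 * l ^ 2 := by ring
      _ ≤ 0.001 * l ^ 2 := mul_le_mul_of_nonneg_right (by norm_num) (by positivity)
  have e4 : μ * (g * (μ + 1)) ≤ μ * ((J + 1) * (l + 6 * μ)) :=
    mul_le_mul_of_nonneg_left hJ2.le hμ0.le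
  have e5 : μ * ((J + 1) * (l + 6 * μ)) = μ * J * (l + 6 * μ) + μ * (l + 6 * μ) := by ring
  have e6 : μ * (g * (μ + 1)) = g * μ ^ 2 + g * μ := by ring
  have e7 : 0 ≤ g * μ := by positivity
  have e8 : 27 * (μ * J) * (l + 6 * μ) = 27 * (μ * J * (l + 6 * μ)) := by ring
  have e9 : 0 ≤ l ^ 2 := by positivity
  rw [e8]
  linarith

theorem tNum1 : S_Num1 := by
  intro R m a g μ L π hR hm ha1 ha2 hg1 hg2 hμ1 hμ2 hπ hπ1 hπ2
  have hRr : (10000000 : ℝ) ≤ (R : ℝ) := by exact_mod_cast hR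
  have hmr : 30 * ((R : ℝ) + 1) ^ 2 ≤ (m : ℝ) := by exact_mod_cast hm
  have hg2r : 100 * (g : ℝ) ≤ 43 * (R : ℝ) ^ 2 := by exact_mod_cast hg2
  have hπr : ((m : ℝ) + μ + 1) * ((L : ℝ) + 1) = g * (μ * ((μ : ℝ) + 1)) + (π : ℝ) := by
    exact_mod_cast hπ
  obtain ⟨f1, f2, f11, fC4, fG1, fG2, fl2, f9, f4, f3, f0⟩ :=
    n1_real R m a g μ ((L : ℝ) + 1) ((m : ℝ) + μ + 1) π hRr hmr (by exact_mod_cast ha1)
      (by exact_mod_cast ha2) (by exact_mod_cast hg1) hg2r (by exact_mod_cast hμ1)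
      (by exact_mod_cast hμ2) (Nat.cast_nonneg _) (by positivity) rfl hπr (by exact_mod_cast hπ1)
      (by exact_mod_cast hπ2)
  have hD0 : 0 < L + 1 + 6 * μ := by omega
  obtain ⟨J, hJ⟩ : ∃ J : ℕ, J = g * (μ + 1) / (L + 1 + 6 * μ) := ⟨_, rfl⟩
  have hJ1 : J * (L + 1 + 6 * μ) ≤ g * (μ + 1) := by
    rw [hJ]
    exact Nat.div_mul_le_self _ _
  have hJ2 : g * (μ + 1) < (J + 1) * (L + 1 + 6 * μ) := by
    rw [hJ, mul_comm (g * (μ + 1) / (L + 1 + 6 * μ) + 1)]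
    exact Nat.lt_mul_div_succ _ hD0
  obtain ⟨j1, j2, j3, j4, j5⟩ := n1_J R m g μ ((L : ℝ) + 1) ((m : ℝ) + μ + 1) J hRr hg2r f2 f11 fG1
    fG2 fl2 f9 f4 f3 f0 (Nat.cast_nonneg _) (by
      have : (0 : ℝ) ≤ μ := Nat.cast_nonneg _
      linarith) (Nat.cast_nonneg _) (by exact_mod_cast hJ1) (by exact_mod_cast hJ2)
  have hRr0 : (0 : ℝ) < R := by linarith
  have hJr0 : (1 : ℝ) < J := by linarith
  have hJpos : 0 < J := by
    have : 1 < J := by exact_mod_cast hJr0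
    omega
  have c1 : 100 * J ≤ 65 * R := by
    have : 100 * (J : ℝ) ≤ 65 * R := by linarith
    exact_mod_cast this
  have hJR : 12 * R ≤ 100 * J := by
    have : 12 * (R : ℝ) ≤ 100 * J := by linarith
    exact_mod_cast this
  have c5 : 27 * (μ * J) ≥ L + 1 + 6 * μ := by
    have h := j5
    have h2 : (((L + 1 + 6 * μ : ℕ)) : ℝ) ≤ ((27 * (μ * J) : ℕ) : ℝ) := by
      push_cast
      linarith
    exact_mod_cast h2
  have hμb : 49 * R ≤ μ := by exact_mod_cast f0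
  -- the quotient
  obtain ⟨k, hk⟩ : ∃ k : ℕ, k = g / J := ⟨_, rfl⟩
  have hk1 : J * k ≤ g := by
    rw [hk]
    exact Nat.mul_div_le _ _
  have hk2 : g < J * (k + 1) := by
    rw [hk]
    exact Nat.lt_mul_div_succ _ hJpos
  have hk3 : k + 1 ≤ 4 * R := by
    have h1 : g < 4 * R * J := by
      have h2 : 100 * g ≤ 43 * R ^ 2 := hg2
      have h3 : R * (12 * R) ≤ R * (100 * J) := Nat.mul_le_mul_left _ hJR
      have h4 : 0 < R ^ 2 := by positivity
      nlinarith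
    by_contra hcon
    push Not at hcon
    have h2 : 4 * R ≤ k := by omega
    have h3 : J * (4 * R) ≤ J * k := Nat.mul_le_mul_left _ h2
    have h4 : J * (4 * R) = 4 * R * J := by ring
    omega
  have hk4 : 3 ≤ k := by
    by_contra hcon
    push Not at hcon
    have h2 : k + 1 ≤ 3 := by omega
    have h3 : J * (k + 1) ≤ J * 3 := Nat.mul_le_mul_left _ h2
    have h4 : R * 10 ^ 7 ≤ R * R := Nat.mul_le_mul_left _ hR
    have h5 : R * R = R ^ 2 := by ring
    omega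
  refine ⟨by exact_mod_cast f1, by exact_mod_cast f2, ?_, ?_, J, hJpos, c1, ?_, ?_, ?_, ?_⟩
  · have : 81 * (m : ℝ) ≤ 100 * ((L : ℝ) + 1) := by
      have : (0 : ℝ) ≤ m := Nat.cast_nonneg _
      linarith
    exact_mod_cast this
  · exact_mod_cast fC4
  · rw [← hk]
    exact hk3
  · exact_mod_cast j3
  · exact_mod_cast j4
  · intro j hj
    rw [← hk] at hj
    have hj3 : 3 ≤ j := by omega
    have hjk : k ≤ j := by omega
    have hjk' : j ≤ k + 1 := by omega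
    -- lower bound
    have lo : L + 1 + 5 * μ ≤ j * (μ + 1) := by
      by_contra hcon
      push Not at hcon
      have h1 : j * (μ + 1) + 1 ≤ L + 1 + 5 * μ := hcon
      have h2 : J * (j * (μ + 1) + 1) ≤ J * (L + 1 + 5 * μ) := Nat.mul_le_mul_left _ h1
      have h3 : g + 1 ≤ J * (j + 1) := by
        have : J * (k + 1) ≤ J * (j + 1) := Nat.mul_le_mul_left _ (by omega)
        omega
      have h4 : (g + 1) * (μ + 1) ≤ J * (j + 1) * (μ + 1) := Nat.mul_le_mul_right _ h3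
      have h5 : J * (j + 1) * (μ + 1) = J * (j * (μ + 1) + 1) + J * μ := by ring
      have h6 : (g + 1) * (μ + 1) = g * (μ + 1) + μ + 1 := by ring
      have h7 : J * (L + 1 + 6 * μ) = J * (L + 1 + 5 * μ) + J * μ := by ring
      omega
    -- upper bound
    have up : j * (μ + 1) ≤ L + 1 + 37 * μ := by
      have h1 : J * j ≤ g + J := by
        have : J * j ≤ J * (k + 1) := Nat.mul_le_mul_left _ hjk'
        have e : J * (k + 1) = J * k + J := by ring
        omega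
      have h2 : J * j * (μ + 1) ≤ (g + J) * (μ + 1) := Nat.mul_le_mul_right _ h1
      have h3 : (g + J) * (μ + 1) = g * (μ + 1) + J * (μ + 1) := by ring
      have h4 : (J + 1) * (L + 1 + 6 * μ) = J * (L + 1 + 6 * μ) + (L + 1 + 6 * μ) := by ring
      have h5 : J * j * (μ + 1) ≤ J * (L + 1 + 6 * μ) + 27 * (μ * J) + J * (μ + 1) := by omega
      have h6 : J * (L + 1 + 6 * μ) + 27 * (μ * J) + J * (μ + 1) = J * (L + 1 + 34 * μ + 1) := by
        ring
      have h7 : J * j * (μ + 1) = J * (j * (μ + 1)) := by ring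
      rw [h6, h7] at h5
      have h8 := Nat.le_of_mul_le_mul_left h5 hJpos
      omega
    exact ⟨j * (μ + 1) - (L + 1), by omega, hj3, by omega, by omega⟩

end ShghPS
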