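import Pool.Agent.ShghPS.Spec

/-! # ShghPS: one more row, one more column -/

namespace ShghPS

open MvPolynomial ShghJ ShghC ShghK

universe u

theorem tRows (hF : ShghK.S_Flip.{u}) : S_Rows.{u} := by
  intro F _ _ t L B
  refine ⟨?_, ?_, ?_⟩
  · rw [hF F (t + 1) L B, hF F t L B]
    exact (mStB F 0 L).2.1 t B
  · rw [hF F (t + 1) L B, hF F t L B]
    exact (mStB F 0 L).1 t B
  · exact (mStB F 0 t).1 L B

end ShghPS
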