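import Pool.Agent.ShghPS.Spec

/-!
# ShghPS/StripW: the strip from the boxes
-/

set_option autoImplicit false

namespace ShghPS

open MvPolynomial ShghJ ShghC ShghK

universe u

theorem tStripW (h1 : ShghZ.S_Strip.{u}) (h2 : S_Cut) : S_StripW.{u} := by
  intro F _ _ n m μ β δ L g J W hg hL hJ hβ h5 B1 B2
  obtain ⟨x, w, hx, hw, hxw⟩ := h2 J g ((m : ℤ) + μ + 1) ((L : ℤ) + 1) ((μ : ℤ) * (μ + 1)) hJ
    (by positivity) (by positivity)
  have hJ0 : (0 : ℤ) < J := by exact_mod_cast hJ
  have hl0 : (0 : ℤ) < (L : ℤ) + 1 := by positivity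
  have hc0 : (0 : ℤ) ≤ (μ : ℤ) * (μ + 1) := by positivity
  -- every piece has at least one row
  have hx1 : ∀ i, 1 ≤ x i := by
    intro i
    obtain ⟨a1, -, a3, -⟩ := hxw i
    by_contra hlt
    have hx0 : x i ≤ 0 := by omega
    have b1 : (g : ℤ) - J ≤ J * w i := by
      have c1 : g < J * (g / J + 1) := Nat.lt_mul_div_succ g hJ
      have c2 : J * (g / J) ≤ J * w i := Nat.mul_le_mul_left _ a1
      have c3 : J * (g / J + 1) = J * (g / J) + J := by ring
      have c4 : g ≤ J * w i + J := by omega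
      have c5 : (g : ℤ) ≤ J * w i + J := by exact_mod_cast c4
      linarith
    have b2 : ((g : ℤ) - J) * ((μ : ℤ) * (μ + 1)) ≤ (J * w i) * ((μ : ℤ) * (μ + 1)) :=
      mul_le_mul_of_nonneg_right b1 hc0
    have b3 : (J : ℤ) * ((μ : ℤ) * (μ + 1) + 2 * (L + 1)) ≤ (m + μ + 1) * (L + 1) := by
      exact_mod_cast h5
    have b4 : (J : ℤ) * (x i * (L + 1)) ≤ 0 := by
      apply mul_nonpos_of_nonneg_of_nonpos hJ0.le
      exact mul_nonpos_of_nonpos_of_nonneg hx0 hl0.le
    have b5 : (0 : ℤ) < J * (L + 1) := mul_pos hJ0 hl0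
    nlinarith
  have hR : ∀ i, (((x i).toNat : ℕ) : ℤ) = x i := fun i => Int.toNat_of_nonneg (by
    have := hx1 i
    omega)
  have hBlk : ∀ i, BlkC F μ (w i) L W := by
    intro i
    obtain ⟨a1, a2, -, -⟩ := hxw i
    rcases Nat.lt_or_ge (g / J) (w i) with h | h
    · have : w i = g / J + 1 := by omega
      rw [this]
      exact B2
    · have : w i = g / J := by omega
      rw [this]
      exact B1
  have hS := h1 F n δ m μ β L J (fun i => (x i).toNat) (fun i => 2 * w i) (fun i => by
      have := hx1 i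
      have := hR i
      omega) (fun i => by
      have := (hxw i).2.1
      omega) (by rw [← Finset.mul_sum, hw, hg]) (by
      have : ((∑ i, (x i).toNat : ℕ) : ℤ) = m + μ + 1 := by
        push_cast
        rw [← hx]
        exact Finset.sum_congr rfl fun i _ => hR i
      omega) (by rw [← hg]; exact hL)
  rw [← hg] at hS
  constructor
  · intro hπ
    have hπ' : (g : ℤ) * (μ * (μ + 1)) + J * (W + L + 1) ≤ (m + μ + 1) * (L + 1) := by
      exact_mod_cast hπ
    have hi : ∀ i, (hN F (Sf 0 ((x i).toNat - 1) L) (Multiset.replicate (2 * w i) μ) : ℤ) ≤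
        x i * (L + 1) - w i * (μ * (μ + 1)) := by
      intro i
      obtain ⟨-, -, a3, -⟩ := hxw i
      have c1 : (J : ℤ) * W < J * (x i * (L + 1) - w i * (μ * (μ + 1))) := by
        have : (J : ℤ) * (W + L + 1) = J * W + J * (L + 1) := by ring
        linarith
      have c2 : (W : ℤ) < x i * (L + 1) - w i * (μ * (μ + 1)) := lt_of_mul_lt_mul_left c1 hJ0.le
      have c3 : w i * (μ * (μ + 1)) + W ≤ (x i).toNat * (L + 1) := by
        have : ((w i * (μ * (μ + 1)) + W : ℕ) : ℤ) ≤ (((x i).toNat * (L + 1) : ℕ) : ℤ) := by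
          push_cast
          rw [hR i]
          linarith
        exact_mod_cast this
      have c4 := (hBlk i (x i).toNat (by
        have := hx1 i
        have := hR i
        omega)).1 c3
      have c5 : (hN F (Sf 0 ((x i).toNat - 1) L) (Multiset.replicate (2 * w i) μ) : ℤ) +
          w i * (μ * (μ + 1)) ≤ ((x i).toNat : ℤ) * (L + 1) := by exact_mod_cast c4
      rw [hR i] at c5
      linarith
    have hsum : (∑ i, (x i * ((L : ℤ) + 1) - w i * (μ * (μ + 1)))) =
        (m + μ + 1) * (L + 1) - g * (μ * (μ + 1)) := by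
      rw [Finset.sum_sub_distrib, ← Finset.sum_mul, ← Finset.sum_mul, hx, ← hw]
      push_cast
      ring
    have hS' : (hN F (Sf n (m + μ) δ) (Multiset.replicate (2 * g) m) : ℤ) ≤
        ∑ i, (hN F (Sf 0 ((x i).toNat - 1) L) (Multiset.replicate (2 * w i) μ) : ℤ) := by
      exact_mod_cast hS
    have h6 := hS'.trans (Finset.sum_le_sum fun i _ => hi i)
    rw [hsum] at h6
    have h7 : ((hN F (Sf n (m + μ) δ) (Multiset.replicate (2 * g) m) + g * (μ * (μ + 1)) : ℕ) : ℤ) ≤
        (((m + μ + 1) * (L + 1) : ℕ) : ℤ) := by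
      push_cast
      linarith
    exact_mod_cast h7
  · intro hπ
    have hπ' : ((m : ℤ) + μ + 1) * (L + 1) + J * (W + L + 1) ≤ g * (μ * (μ + 1)) := by
      exact_mod_cast hπ
    have hi : ∀ i, hN F (Sf 0 ((x i).toNat - 1) L) (Multiset.replicate (2 * w i) μ) = 0 := by
      intro i
      obtain ⟨-, -, -, a4⟩ := hxw i
      have c1 : (J : ℤ) * (x i * (L + 1) - w i * (μ * (μ + 1))) < J * (-W) := by
        have : (J : ℤ) * (W + L + 1) = J * W + J * (L + 1) := by ring
        linarith
      have c2 : x i * ((L : ℤ) + 1) - w i * (μ * (μ + 1)) < -W := lt_of_mul_lt_mul_left c1 hJ0.le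
      have c3 : (x i).toNat * (L + 1) + W ≤ w i * (μ * (μ + 1)) := by
        have : (((x i).toNat * (L + 1) + W : ℕ) : ℤ) ≤ ((w i * (μ * (μ + 1)) : ℕ) : ℤ) := by
          push_cast
          rw [hR i]
          linarith
        exact_mod_cast this
      exact (hBlk i (x i).toNat (by
        have := hx1 i
        have := hR i
        omega)).2 c3
    have h6 : ∑ i, hN F (Sf 0 ((x i).toNat - 1) L) (Multiset.replicate (2 * w i) μ) = 0 :=
      Finset.sum_eq_zero fun i _ => hi i
    rw [h6] at hS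
    exact Nat.le_zero.1 hS

end ShghPS
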