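import Pool.Agent.ShghK.Main
import Pool.Agent.ShghZ.HmgT
import Pool.Agent.ShghZ.HmgE
import Pool.Agent.ShghZ.ElT
import Pool.Agent.ShghZ.StripB
import Pool.Agent.ShghZ.DS
import Pool.Agent.ShghZ.Shift
import Pool.Agent.ShghZ.Strip
import Pool.Agent.ShghPS.EvPeel
import Pool.Agent.ShghPS.Rows
import Pool.Agent.ShghPS.BlkZ
import Pool.Agent.ShghPS.BlkE
import Pool.Agent.ShghPS.Cut
import Pool.Agent.ShghPS.StripW
import Pool.Agent.ShghPS.Num1
import Pool.Agent.ShghPS.Num2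
import Pool.Agent.ShghPS.Band
import Pool.Agent.ShghPS.LId
import Pool.Agent.ShghPS.GlueS

/-!
# ShghPS/MainB: the window of the strip
-/

namespace ShghPS

open MvPolynomial ShghJ ShghC ShghK

universe u

theorem mStrip : ShghZ.S_Strip.{u} :=
  ShghZ.tStrip (ShghZ.tStripB (ShghZ.tElT ShghZ.tHmgT ShghZ.tHmgE)) ShghZ.tDS ShghZ.tShift

theorem mEvPeel : S_EvPeel.{u} := tEvPeel ShghK.mElmA ShghK.mElmB

theorem mRows : S_Rows.{u} := tRows ShghK.mFlip

theorem mBand : S_Band.{u} :=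
  tBand (tBlkZ mEvPeel mRows ShghK.mBoxWin) (tBlkE mEvPeel mRows ShghK.mBoxWin)
    (tStripW mStrip tCut) tNum1 tNum2

end ShghPS
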