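import Pool.Agent.ShghPS.MainA
import Pool.Agent.ShghPS.FinB

/-!
# ShghPS/MainS: the theorems of Plan S

`mFinA`: homogeneous systems with `10 ^ 20 m ^ 2 ≤ s ^ 5`; `mFinB`: windows for all multiplicities.
-/

namespace ShghPS

open MvPolynomial ShghJ ShghC ShghK

universe u

/-- Windows for all multiplicities. -/
theorem mFinB : S_FinB.{u} := tFinB mOneD ShghK.mHom23

end ShghPS
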