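import Pool.Agent.ShghPS.MainA
import Pool.Agent.ShghPS.FinG
import Pool.Agent.ShghPS.WinG

/-!
# ShghPS/MainX: the reduction of homogeneous systems to windows `BandAt` of strips
-/

namespace ShghPS

open MvPolynomial ShghJ ShghC ShghK

universe u

/-- Every degree from the windows of the strips. -/
theorem mFinG : S_FinG.{u} := tFinG mOneDG tAlN

/-- All multiplicities, every degree outside of a window, from the windows of the strips. -/
theorem mWinG : S_WinG.{u} := tWinG mOneDG

end ShghPS
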