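import Pool.Agent.ShghPS.Spec

/-!
# ShghPS, Num2: the numbers of a strip, second part
-/

namespace ShghPS

open MvPolynomial ShghJ ShghC ShghK

universe u

private theorem n2_key (R y μ l j g W M : ℝ) (hR : 10000000 ≤ R) (hy : 30 ≤ y)
    (h1 : 165 * (y * R ^ 2) ≤ 100 * (μ * R)) (h3 : 81 * (y * R ^ 2) ≤ 100 * l)
    (h4 : 100 * (μ ^ 2 * R ^ 2) ≤ 332 * (y * R ^ 2 * l)) (h5 : j * (μ + 1) = l + g)
    (h6 : 5 * μ ≤ g) (h7 : g ≤ 37 * μ) (h8 : 3 ≤ j) (h9 : j ≤ 4 * R) (hμ : 0 ≤ μ)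
    (hW1 : 1000000 * y ^ 2 + 1000 * y * R ≤ W) (hW2 : W ≤ 1000000 * y ^ 2 + 1000 * y * R + 1)
    (hM0 : 0 ≤ M) (hM : M * l ≤ μ * g + W + l) :
    4 * j ≤ μ ∧ 10 * M ≤ μ ∧ M * (2 * (j * (M + 1)) + 7 * M) ≤ 2 * W + 2 * (M * g) := by
  have hR0 : 0 < R := by linarith
  have hy0 : 0 < y := by linarith
  have hR2 : 0 < R ^ 2 := by positivity
  have hyR : 0 < y * R := by positivity
  have hμR : 165 * (y * R) ≤ 100 * μ := by
    refine le_of_mul_le_mul_right ?_ hR0
    calc 165 * (y * R) * R = 165 * (y * R ^ 2) := by ring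
      _ ≤ 100 * (μ * R) := h1
      _ = 100 * μ * R := by ring
  have hyR30 : 30 * R ≤ y * R := mul_le_mul_of_nonneg_right hy hR0.le
  have hyR7 : 10000000 * y ≤ y * R := by
    calc 10000000 * y = y * 10000000 := by ring
      _ ≤ y * R := mul_le_mul_of_nonneg_left hR hy0.le
  have h4' : 100 * μ ^ 2 ≤ 332 * (y * l) := by
    refine le_of_mul_le_mul_right ?_ hR2
    calc 100 * μ ^ 2 * R ^ 2 = 100 * (μ ^ 2 * R ^ 2) := by ring
      _ ≤ 332 * (y * R ^ 2 * l) := h4
      _ = 332 * (y * l) * R ^ 2 := by ring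
  have hyR2 : 10000000 * (y * R) ≤ y * R ^ 2 := by
    calc 10000000 * (y * R) = y * R * 10000000 := by ring
      _ ≤ y * R * R := mul_le_mul_of_nonneg_left hR hyR.le
      _ = y * R ^ 2 := by ring
  have hl : 0 < l := by linarith
  have hyl : 81 * (y * (y * R ^ 2)) ≤ 100 * (y * l) := by
    calc 81 * (y * (y * R ^ 2)) = y * (81 * (y * R ^ 2)) := by ring
      _ ≤ y * (100 * l) := mul_le_mul_of_nonneg_left h3 hy0.le
      _ = 100 * (y * l) := by ring
  have hyyR : 10000000 * y ^ 2 ≤ y * (y * R) := by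
    calc 10000000 * y ^ 2 = y * (10000000 * y) := by ring
      _ ≤ y * (y * R) := mul_le_mul_of_nonneg_left hyR7 hy0.le
  have hyyR2 : 10000000 * (y * (y * R)) ≤ y * (y * R ^ 2) := by
    calc 10000000 * (y * (y * R)) = y * (10000000 * (y * R)) := by ring
      _ ≤ y * (y * R ^ 2) := mul_le_mul_of_nonneg_left hyR2 hy0.le
  have hyy0 : 0 ≤ y ^ 2 := by positivity
  have hyyR0 : 0 ≤ y * (y * R) := by positivity
  have hWl : W ≤ 0.0001 * (y * l) + 0.0002 * l := by
    have e1 : 1000000 * y ^ 2 ≤ 0.0001 * (y * l) := by linarith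
    have e2 : 1000 * y * R + 1 ≤ 0.0002 * l := by
      have : 1000 * y * R = 1000 * (y * R) := by ring
      rw [this]
      linarith
    linarith
  have hμg : μ * g ≤ 37 * μ ^ 2 := by
    calc μ * g ≤ μ * (37 * μ) := mul_le_mul_of_nonneg_left h7 hμ
      _ = 37 * μ ^ 2 := by ring
  have hMy : M ≤ 122.9 * y := by
    refine le_of_mul_le_mul_right ?_ hl
    have e3 : 30 * l ≤ y * l := mul_le_mul_of_nonneg_right hy hl.le
    calc M * l ≤ μ * g + W + l := hM
      _ ≤ 122.9 * (y * l) := by linarith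
      _ = 122.9 * y * l := by ring
  have hg0 : 0 ≤ g := by linarith
  have hj0 : 0 ≤ j := by linarith
  -- the number X
  have hX : j * (M + 1) - g ≤ 4545.6 * y + 8.001 * R := by
    refine le_of_mul_le_mul_right ?_ hl
    have e1 : j * (M * l) ≤ j * (μ * g + W + l) := mul_le_mul_of_nonneg_left hM hj0
    have e2 : j * (μ * g) = l * g + g ^ 2 - j * g := by
      have : j * μ = l + g - j := by linarith
      calc j * (μ * g) = (j * μ) * g := by ring
        _ = _ := by rw [this]; ring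
    have e3 : g ^ 2 ≤ 1369 * μ ^ 2 := by
      calc g ^ 2 ≤ (37 * μ) ^ 2 := pow_le_pow_left₀ hg0 h7 2
        _ = _ := by ring
    have hW0 : 0 ≤ W := by
      have : 0 ≤ 1000000 * y ^ 2 + 1000 * y * R := by positivity
      linarith
    have e4 : j * W ≤ 0.5 * (y * l) + 5000 * l := by
      calc j * W ≤ 4 * R * W := mul_le_mul_of_nonneg_right h9 hW0
        _ ≤ 4 * R * (1000000 * y ^ 2 + 1000 * y * R + 1) :=
          mul_le_mul_of_nonneg_left hW2 (by positivity)
        _ = 4000000 * (y * (y * R)) + 4000 * (y * R ^ 2) + 4 * R := by ring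
        _ ≤ 0.5 * (y * l) + 5000 * l := by linarith
    have e5 : j * l ≤ 4 * R * l := mul_le_mul_of_nonneg_right h9 hl.le
    have e6 : 0 ≤ j * g := mul_nonneg hj0 hg0
    have e7 : 5000 * l ≤ 0.0005 * (R * l) := by
      have : 10000000 * l ≤ R * l := mul_le_mul_of_nonneg_right hR hl.le
      linarith
    calc (j * (M + 1) - g) * l = j * (M * l) + j * l - l * g := by ring
      _ ≤ j * (μ * g + W + l) + j * l - l * g := by linarith
      _ = j * (μ * g) + j * W + 2 * (j * l) - l * g := by ring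
      _ ≤ g ^ 2 + j * W + 2 * (j * l) := by rw [e2]; linarith
      _ ≤ 4545.08 * (y * l) + (0.5 * (y * l) + 0.0005 * (R * l)) + 2 * (4 * R * l) := by linarith
      _ ≤ (4545.6 * y + 8.001 * R) * l := by
        have : 0 ≤ y * l := by positivity
        have : 0 ≤ R * l := by positivity
        linarith
  refine ⟨by linarith, by linarith, ?_⟩
  have e1 : 2 * (j * (M + 1) - g) + 7 * M ≤ 9951.5 * y + 16.002 * R := by linarith
  have e2 : M * (2 * (j * (M + 1) - g) + 7 * M) ≤ M * (9951.5 * y + 16.002 * R) :=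
    mul_le_mul_of_nonneg_left e1 hM0
  have e3 : M * (9951.5 * y + 16.002 * R) ≤ 122.9 * y * (9951.5 * y + 16.002 * R) :=
    mul_le_mul_of_nonneg_right hMy (by positivity)
  have e4 : 122.9 * y * (9951.5 * y + 16.002 * R) ≤ 2000000 * y ^ 2 + 2000 * y * R := by
    have : 122.9 * y * (9951.5 * y + 16.002 * R) = 1223039.35 * y ^ 2 + 1966.6458 * (y * R) := by
      ring
    rw [this]
    have : 2000 * y * R = 2000 * (y * R) := by ring
    rw [this]
    linarith
  have e5 : M * (2 * (j * (M + 1)) + 7 * M) = M * (2 * (j * (M + 1) - g) + 7 * M) + 2 * (M * g) := by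
    ring
  rw [e5]
  linarith

theorem tNum2 : S_Num2 := by
  intro R m μ l j g' hR hm h1 _ h3 h4 h5 h6 h7 h8 h9
  have hR0 : 0 < R := lt_of_lt_of_le (by norm_num) hR
  have hm0 : 0 < m := lt_of_lt_of_le (by positivity) hm
  have hl0 : 0 < l := by omega
  set W := Wb m R with hW
  have hW1 : 1000000 * m ^ 2 + 1000 * m * R ^ 3 ≤ R ^ 4 * W := by
    rw [hW, Wb]
    exact (Nat.lt_mul_div_succ _ (by positivity)).le
  have hW2 : R ^ 4 * W ≤ 1000000 * m ^ 2 + 1000 * m * R ^ 3 + R ^ 4 := by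
    rw [hW, Wb, mul_add, mul_one]
    exact Nat.add_le_add_right (Nat.mul_div_le _ _) _
  set M := (μ * g' + W) / l + 1 with hM
  have hM1 : μ * g' + W ≤ M * l := by
    rw [mul_comm M l, hM]
    exact (Nat.lt_mul_div_succ _ hl0).le
  have hM2 : M * l ≤ μ * g' + W + l := by
    rw [hM, add_mul, one_mul]
    exact Nat.add_le_add_right (Nat.div_mul_le_self _ _) _
  have hRr : (0 : ℝ) < R := by exact_mod_cast hR0
  set y : ℝ := (m : ℝ) / (R : ℝ) ^ 2 with hy
  have hmy : (m : ℝ) = y * (R : ℝ) ^ 2 := by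
    rw [hy]
    field_simp
  have hR4 : (0 : ℝ) < (R : ℝ) ^ 4 := by positivity
  have hy30 : 30 ≤ y := by
    rw [hy, le_div_iff₀ (by positivity)]
    have : (30 : ℝ) * ((R : ℝ) + 1) ^ 2 ≤ m := by exact_mod_cast hm
    nlinarith
  have key := n2_key R y μ l j g' W M (by exact_mod_cast hR) hy30
    (by rw [← hmy]; exact_mod_cast h1) (by rw [← hmy]; exact_mod_cast h3)
    (by rw [← hmy]; exact_mod_cast h4) (by exact_mod_cast h5) (by exact_mod_cast h6)
    (by exact_mod_cast h7) (by exact_mod_cast h8) (by exact_mod_cast h9) (Nat.cast_nonneg _)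
    (by
      refine le_of_mul_le_mul_left ?_ hR4
      have e : (1000000 : ℝ) * (m : ℝ) ^ 2 + 1000 * m * (R : ℝ) ^ 3 ≤ (R : ℝ) ^ 4 * W := by
        exact_mod_cast hW1
      rw [hmy] at e
      calc (R : ℝ) ^ 4 * (1000000 * y ^ 2 + 1000 * y * R) = 1000000 * (y * (R : ℝ) ^ 2) ^ 2 +
            1000 * (y * (R : ℝ) ^ 2) * (R : ℝ) ^ 3 := by ring
        _ ≤ _ := e)
    (by
      refine le_of_mul_le_mul_left ?_ hR4
      have e : (R : ℝ) ^ 4 * W ≤ (1000000 : ℝ) * (m : ℝ) ^ 2 + 1000 * m * (R : ℝ) ^ 3 +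
          (R : ℝ) ^ 4 := by
        exact_mod_cast hW2
      rw [hmy] at e
      calc (R : ℝ) ^ 4 * W ≤ _ := e
        _ = (R : ℝ) ^ 4 * (1000000 * y ^ 2 + 1000 * y * R + 1) := by ring)
    (Nat.cast_nonneg _) (by exact_mod_cast hM2)
  obtain ⟨k1, k2, k3⟩ := key
  refine ⟨M, by exact_mod_cast k1, by omega, by exact_mod_cast k2, hM1, by exact_mod_cast k3⟩

end ShghPS
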