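import Pool.Agent.ShghZ.Spec

/-!
# ShghPS (Plan S, arithmetic part): homogeneous systems with `m ≤ 10^(-10) s^(5/2)`

THEOREM. Characteristic `0`, `s ≥ 10^14 + 10^8`. (a) `10^20 m^2 ≤ s^5`: `s` generic points of
multiplicity `m` impose independent conditions on the curves of degree `d`, or there is no such curve,
for every `d`. (b) For all `m` the same holds for every `d` with `N^3 |χ| ≥ 2*10^6 m^2 + N^5 m`,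
`N^2 ≤ s < (N+1)^2`, `χ = T (d+1) - s T m`.

PLAN (helper21; arithmetic helper89). One curve `Y = X^a`, core `A = m^(r^2)` (`ShghK.S_SqGT`), all
other `2 g = s - r^2` points in the strip `Sf (a^2) τ δ`, `τ = m + μ`. Here `R = r + a` with
`(R+1)^2 ≤ s < (R+3)^2`, `r ≡ s`, `a` even, so `2 g` and `2 g - a^2 = 2 β` are even. `ShghZ.S_Strip`
bounds the strip by a sum of boxes `Sf 0 (T_i - 1) L` with an even number `2 j_i` of points of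
multiplicity `μ`, each box is transformed (`S_EvPeel`) to a box with points of multiplicity
`μ' = T_i - 1 - μ`, about `m / s`, and `ShghK.S_BoxWin` gives windows `O(μ'^2)`. `J = O(√s)` boxes.

Existing: everything of `ShghC` (`ShghC.MainG`), `ShghK.Spec` (`S_ElmA`, `S_ElmB`, `S_BoxWin`, `S_Flip`,
`S_SqGT`, `S_Hom23`; use them as hypotheses), `ShghZ.S_Strip` (hypothesis).
-/

namespace ShghPS

open MvPolynomial ShghJ ShghC ShghK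

universe u

/-- The window of one box. -/
def Wb (m R : ℕ) : ℕ := (1000000 * m ^ 2 + 1000 * m * R ^ 3) / R ^ 4 + 1

/-- The window of the strip. -/
def Th (m R : ℕ) : ℕ := 1000000 * m ^ 2 / R ^ 3 + 20 * R * m

/-- Box claim: `h t = hN F (Sf 0 (t - 1) L) (μ^(2j))`, expected dimension `t (L+1) - j μ (μ+1)`:
windows of size `W` for every number `t` of rows. -/
def BlkC (F : Type u) [Field F] (μ j L W : ℕ) : Prop := ∀ t : ℕ, 1 ≤ t →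
  (j * (μ * (μ + 1)) + W ≤ t * (L + 1) →
    hN F (Sf 0 (t - 1) L) (Multiset.replicate (2 * j) μ) + j * (μ * (μ + 1)) ≤ t * (L + 1)) ∧
  (t * (L + 1) + W ≤ j * (μ * (μ + 1)) →
    hN F (Sf 0 (t - 1) L) (Multiset.replicate (2 * j) μ) = 0)

/-- EVPEEL: `2 j` points of multiplicity `m` on a box of thickness `t ≥ m`. PROOF. Induction on `j`
for all `d`, `L`, `B` (as `ShghK.S_Peel`). `j = 0`: `L = d`, trivial; the second claim is void. `j + 1`: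
the multiset is `m ::ₘ m ::ₘ (replicate (2j) m + B)`. `ShghK.S_ElmB`: to `Sf 1 t (d + (t - m))` with
`t - m, m, ..`. If `d + (t-m) < m`: `ShghK.S_ElmA`, second claim (`Multiset.cons_swap`), gives `0` (both
claims are then clear). Otherwise `S_ElmA` at the point `m`: to `Sf 0 t (d + (t-m) - m)` with
`t - m, t - m, ..`, and the induction hypothesis for `d + (t - m) - m` and
`(t-m) ::ₘ (t-m) ::ₘ B`. (In the first claim, if `d + (t-m) < m` then the left side is `0`.) -/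
def S_EvPeel : Prop := ∀ (F : Type u) [Field F] (t m j d : ℕ) (B : Multiset ℕ), m ≤ t →
  (∀ L : ℕ, L + j * m = d + j * (t - m) →
    hN F (Sf 0 t d) (Multiset.replicate (2 * j) m + B) ≤
      hN F (Sf 0 t L) (Multiset.replicate (2 * j) (t - m) + B)) ∧
  (d + j * (t - m) < j * m → hN F (Sf 0 t d) (Multiset.replicate (2 * j) m + B) = 0)

/-- ROWS: one more row. PROOF. `ShghK.S_Flip` and `ShghC.mStB` with `n = 0`, `τ = L` (`h (e+1) ≤ h e +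
(L + 1)` and `h e ≤ h (e + 1)`); the third claim is `mStB` with `τ = t`. -/
def S_Rows : Prop := ∀ (F : Type u) [Field F] [CharZero F] (t L : ℕ) (B : Multiset ℕ),
  hN F (Sf 0 (t + 1) L) B ≤ hN F (Sf 0 t L) B + (L + 1) ∧
  hN F (Sf 0 t L) B ≤ hN F (Sf 0 (t + 1) L) B ∧
  hN F (Sf 0 t L) B ≤ hN F (Sf 0 t (L + 1)) B

/-- BLKZ: the window of a box, zero side. `h t = hN F (Sf 0 (t-1) L) (μ^(2j))`,
`π = t (L+1) - j μ (μ+1) ≤ -W`. Hypotheses of the proof: `S_EvPeel`, `S_Rows`, `ShghK.S_BoxWin`.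
PROOF. If `t = μ + μ' + 1`, `k = μ + μ'`: if `j (μ' + 1) ≤ g` then `h t = 0` (`S_EvPeel`, second claim,
thickness `k`: `L + j μ' < j μ`). Otherwise `L' = j (μ' + 1) - g - 1 ≥ 0` satisfies
`L' + j μ = L + j μ'` and `h t ≤ hN F (Sf 0 k L') (μ'^(2j))`. Identity: `π = (μ'+1)(L+1) - μ g =
(k+1)(L'+1) - j μ' (μ'+1)`. If `t ≤ μ + 1`: `h t ≤ h (μ+2)` (`S_Rows`), and `h (μ+2) = 0` because
`j * 2 ≤ g` (`4 j ≤ μ`, `9 μ ≤ 2 g`). Otherwise `t = μ + μ' + 1`, `1 ≤ μ'`; `(μ'+1)(L+1) = μ g + π ≤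
μ g ≤ M (L+1)`, so `μ' + 1 ≤ M`. If `j (μ'+1) ≤ g`: `0`. If `L' ≥ 3 μ'`: `S_BoxWin` with `W`
(`μ' (2 L' + 7 μ') ≤ 2 W` as `μ' ≤ M`, `L' ≤ j (M+1) - g`; `j (M+1) ≥ g`): `h t ≤ phi W π = 0`. If
`0 ≤ L' < 3 μ'`: `h t ≤ hN F (Sf 0 k (3 μ')) (μ'^(2j))` (`S_Rows`, third claim), and `S_BoxWin` with
`L = 3 μ'` and the window `W3 = 7 μ'^2` gives `0`, as `(k+1)(3μ'+1) + W3 ≤ j μ' (μ'+1)`: from `L' ≥ 0`:
`j (μ'+1) ≥ g + 1 ≥ (9/2) μ`, so `j μ' ≥ (9/2) μ - j ≥ (17/4) μ`, and `(μ + μ' + 1)(3 μ' + 1) + 7 μ'^2 ≤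
(17/4) μ (μ' + 1)` by `10 μ' ≤ μ`. -/
def S_BlkZ : Prop := ∀ (F : Type u) [Field F] [CharZero F] (μ j L g M W t : ℕ),
  j * (μ + 1) = L + 1 + g → 3 ≤ j → 4 * j ≤ μ → 9 * μ ≤ 2 * g → 10 * M ≤ μ →
  μ * g + W ≤ M * (L + 1) → M * (2 * (j * (M + 1)) + 7 * M) ≤ 2 * W + 2 * (M * g) → 1 ≤ t →
  t * (L + 1) + W ≤ j * (μ * (μ + 1)) →
  hN F (Sf 0 (t - 1) L) (Multiset.replicate (2 * j) μ) = 0

/-- BLKE: the window of a box, exact side. Same hypotheses and notation as in `S_BlkZ`, `π t =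
t (L+1) - j μ (μ+1)`, `π t ≥ W`. PROOF. Let `t2 ≤ t` be the least number with `π t2 ≥ W` (`Nat.find`);
`π t2 < W + L + 1` (if `t2 = 0`, then `j μ (μ+1) = 0`, impossible). `t2 ≥ μ + 3`: `(t2 - μ)(L+1) ≥
j μ (μ+1) - μ (L+1) = μ g ≥ 2 (L + 1) + (L+1)`, because `L + 1 ≤ j (μ+1)`, `μ g ≥ (9/2) μ^2 ≥ 18 j μ`.
`t2 = μ + μ' + 1`, `μ' ≥ 1`: `(μ'+1)(L+1) = μ g + π t2 < (M + 1)(L+1)`, so `μ' + 1 ≤ M`. With
`L' + 1 = j (μ'+1) - g`: `(L+1)(L'+1) = g (g-j) + j π ≥ 3 (μ g + π) = 3 (μ'+1)(L+1)` as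
`g - j - 3 μ ≥ (5/4) μ ≥ 0`, `j ≥ 3`; so `L' + 1 ≥ 3 (μ' + 1)`, `L' ≥ 3 μ'`. `S_EvPeel` and `S_BoxWin`
(`k = μ + μ'`, `μ' (2 L' + 7 μ') ≤ 2 W` as `μ' ≤ M`, `L' ≤ j (M+1) - g`): `h t2 ≤ phi W (π t2) = π t2`, and
`h t ≤ h t2 + (t - t2)(L+1) = π t` (`S_Rows`). (`π t2 ≥ W ≥ 0`: `phi W x = x`.) -/
def S_BlkE : Prop := ∀ (F : Type u) [Field F] [CharZero F] (μ j L g M W t : ℕ),
  j * (μ + 1) = L + 1 + g → 3 ≤ j → 4 * j ≤ μ → 9 * μ ≤ 2 * g → 10 * M ≤ μ →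
  μ * g + W ≤ M * (L + 1) → M * (2 * (j * (M + 1)) + 7 * M) ≤ 2 * W + 2 * (M * g) → 1 ≤ t →
  j * (μ * (μ + 1)) + W ≤ t * (L + 1) →
  hN F (Sf 0 (t - 1) L) (Multiset.replicate (2 * j) μ) + j * (μ * (μ + 1)) ≤ t * (L + 1)

/-- CUT: `t` rows and `g` pairs of points are cut into `J` pieces. PROOF. `G i = i g / J`,
`P i = (J (G i) c + i π) / (J l)` (floor, `ℤ`), `π = t l - g c`, `i = 0, .., J`; `P 0 = 0`, `P J = t`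
(exact division). The pieces are `x i = P (i+1) - P i`, `w i = G (i+1) - G i` (telescoping sums,
`Fin.sum_univ_eq_sum_range`, `Finset.sum_range_sub`). `w i ∈ {g / J, g / J + 1}`. `J l P i ∈
(y i - J l, y i]`, `y i = J (G i) c + i π`, so `J l (P (i+1) - P i)` differs from `y (i+1) - y i =
J (w i) c + π` by less than `J l`. -/
def S_Cut : Prop := ∀ (J g : ℕ) (t l c : ℤ), 1 ≤ J → 0 < l → 0 ≤ c →
  ∃ (x : Fin J → ℤ) (w : Fin J → ℕ), ∑ i, x i = t ∧ ∑ i, w i = g ∧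
    ∀ i, g / J ≤ w i ∧ w i ≤ g / J + 1 ∧
      (t * l - g * c) - J * l < J * (x i * l - w i * c) ∧
      J * (x i * l - w i * c) < (t * l - g * c) + J * l

/-- STRIPW: the strip. Hypotheses of the proof: `ShghZ.S_Strip`, `S_Cut`. PROOF. `S_Cut` with
`t = m + μ + 1`, `l = L + 1`, `c = μ (μ+1)`; `S_Strip` with `R i = (x i).toNat`, `c i = 2 (w i)`.
`x i ≥ 1`: `J x l > π - J l + J w c ≥ t l - g c - J l + (g - J) c = t l - J l - J c ≥ J l`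
(`J (g / J) ≥ g - J`, fifth hypothesis). `2 w ≤ β`. First claim: `π ≥ J (W + l)`, so
`J (x l - w c) > J W` and each box has `h ≤ x l - w c`; the sum is `π`. Second claim:
`J (x l - w c) < - J W`: each box is `0`. -/
def S_StripW : Prop := ∀ (F : Type u) [Field F] [CharZero F] (n m μ β δ L g J W : ℕ),
  2 * g = 2 * β + n → L + 2 * g * m = δ + (m + μ) * β → 1 ≤ J → 2 * (g / J + 1) ≤ β →
  J * (μ * (μ + 1) + 2 * (L + 1)) ≤ (m + μ + 1) * (L + 1) →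
  BlkC F μ (g / J) L W → BlkC F μ (g / J + 1) L W →
  (g * (μ * (μ + 1)) + J * (W + L + 1) ≤ (m + μ + 1) * (L + 1) →
    hN F (Sf n (m + μ) δ) (Multiset.replicate (2 * g) m) +
      g * (μ * (μ + 1)) ≤ (m + μ + 1) * (L + 1)) ∧
  ((m + μ + 1) * (L + 1) + J * (W + L + 1) ≤ g * (μ * (μ + 1)) →
    hN F (Sf n (m + μ) δ) (Multiset.replicate (2 * g) m) = 0)

/-- NUM1: the numbers of a strip, first part. Pure. PROOF. Use real numbers, `l = L + 1`, `t = m+μ+1`.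
`μ R ∈ [1.65 m, 7.75 m]` (from the hypotheses on `a μ`, `0.4 R ≤ a ≤ 0.6 R`), `m ≥ 30 R^2`, `R ≥ 10^7`, so
`m ≤ t ≤ 1.000001 m`. `g μ^2 ∈ [0.8712, 25.83] m^2`. `t l = g μ (μ+1) + π`, `|π| ≤ m^2/20`:
`0.82 m ≤ l ≤ 25.9 m`; `μ^2/l = μ^2 t/(t l) ≤ μ^2 t/(g μ^2 (1 - 0.0574)) ≤ 3.32 m/R^2`;
`l/(μ+1) ∈ [0.49 R, 3.37 R]` (`g μ/t - m^2/(20 t (μ+1)) ≤ l/(μ+1) ≤ g μ/t + m^2/(20 t (μ+1))`,
`m/μ ≤ R/1.65`, `g μ/m ∈ [0.528 R, 3.3325 R]`). `J = g (μ+1) / (l + 6 μ)` (floor), `6 μ ≤ 10^(-5) l`, so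
`J ∈ [0.12 R, 0.65 R]`: `g (μ+1)/l = (t/μ) (g μ (μ+1)/(t l))`, `t/μ ∈ [0.129 R, 0.6061 R]`,
`g μ (μ+1)/(t l) ∈ [0.945, 1.061]`. `j ∈ {g/J, g/J + 1}` (integer division): `g/J ∈ [0.49 R, 3.6 R]`.
`g' = j (μ+1) - l ≥ 5 μ` because `J j ≥ g - J + 1` hence `J j (μ+1) ≥ J (l + 6 μ) - (J-1)(μ+1)`.
`g' ≤ 37 μ`: `j ≤ g/J + 1`, `g (μ+1) < (J+1)(l + 6 μ)`, so `j (μ+1) ≤ l + 6 μ + (l + 6 μ)/J + μ + 1`,
and `l/J ≤ 26.2 μ`: `J ≥ 0.9999 g (μ+1)/l`, `l^2/(g μ^2) ≤ (y + 0.05)^2/y` up to `10^(-5)`,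
`y = g μ^2/m^2 ∈ [0.87, 25.83]`. `J (μ (μ+1) + 2 l) ≤ t l`: `J ≤ g (μ+1)/l`,
`J μ (μ+1) ≤ (μ+1)/l * g μ (μ+1) ≤ t l/100` and `2 J l ≤ 2 g (μ+1) ≤ t l/100`. `J l ≤ g (μ+1) ≤ 4 R m`. -/
def S_Num1 : Prop := ∀ (R m a g μ L : ℕ) (π : ℤ), 10 ^ 7 ≤ R → 30 * (R + 1) ^ 2 ≤ m →
  4 * R ≤ 10 * a → 10 * a ≤ 6 * R → 32 * R ^ 2 ≤ 100 * g → 100 * g ≤ 43 * R ^ 2 →
  99 * m ≤ 100 * (a * μ) → 100 * (a * μ) ≤ 310 * m →
  ((m : ℤ) + μ + 1) * (L + 1) = g * (μ * (μ + 1)) + π → 20 * π ≤ m ^ 2 → -(m : ℤ) ^ 2 ≤ 20 * π →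
  165 * m ≤ 100 * (μ * R) ∧ 100 * (μ * R) ≤ 775 * m ∧ 81 * m ≤ 100 * (L + 1) ∧
  100 * (μ ^ 2 * R ^ 2) ≤ 332 * (m * (L + 1)) ∧
  ∃ J : ℕ, 1 ≤ J ∧ 100 * J ≤ 65 * R ∧ g / J + 1 ≤ 4 * R ∧
    J * (μ * (μ + 1) + 2 * (L + 1)) ≤ (m + μ + 1) * (L + 1) ∧ J * (L + 1) ≤ 4 * (R * m) ∧
    ∀ j, (j = g / J ∨ j = g / J + 1) → ∃ g' : ℕ, j * (μ + 1) = L + 1 + g' ∧ 3 ≤ j ∧
      5 * μ ≤ g' ∧ g' ≤ 37 * μ

/-- NUM2: the numbers of a strip, second part. Pure. `l = L + 1`. PROOF. Real numbers, `y = m/R^2 ≥ 30`.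
`M = (μ g' + Wb m R) / l + 1` (floor), so `μ g' + Wb ≤ M l` and `M ≤ (μ g' + Wb)/l + 1`. `μ g'/l ≤
37 μ^2/l ≤ 122.84 y`; `Wb ≤ 10^6 m^2/R^4 + 1000 m/R + 1`, so `Wb/l ≤ 1.24*10^6 m/R^4 + 1240/R ≤ 0.001 y +
0.001`; so `M ≤ 122.85 y + 1.001 ≤ 122.9 y` (`y ≥ 30`). `10 M ≤ 1229 m/R^2 ≤ 1.65 m/R ≤ μ`. `4 j ≤ 16 R ≤
1.65 m/R ≤ μ`. `X = j (M+1) - g' ≤ (j μ g' + j Wb)/l + 2 j - g'`, `j μ = l + g' - j`, so
`X ≤ g'^2/l + j Wb/l + 2 j ≤ 37^2 * 3.32 y + 4 R (1.24*10^6 m/R^4 + 1240/R) + 8 R ≤ 4545.1 y + 0.5 y +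
4960 + 8 R ≤ 4546 y + 8.001 R`. `M (2 X + 7 M) ≤ 2 * 122.9 y (4546 y + 8.001 R + 3.5 * 122.9 y) ≤
2 (612000 y^2 + 984 R y) ≤ 2 (10^6 m^2 + 1000 m R^3)/R^4 ≤ 2 Wb`. (Tested by computer: the two
sides of the last inequality differ at least by a factor `1.6`.) -/
def S_Num2 : Prop := ∀ (R m μ l j g' : ℕ), 10 ^ 7 ≤ R → 30 * (R + 1) ^ 2 ≤ m →
  165 * m ≤ 100 * (μ * R) → 100 * (μ * R) ≤ 775 * m → 81 * m ≤ 100 * l →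
  100 * (μ ^ 2 * R ^ 2) ≤ 332 * (m * l) → j * (μ + 1) = l + g' → 5 * μ ≤ g' → g' ≤ 37 * μ →
  3 ≤ j → j ≤ 4 * R → ∃ M : ℕ, 4 * j ≤ μ ∧ 9 * μ ≤ 2 * g' ∧ 10 * M ≤ μ ∧
    μ * g' + Wb m R ≤ M * l ∧ M * (2 * (j * (M + 1)) + 7 * M) ≤ 2 * Wb m R + 2 * (M * g')

/-- BAND: the window of the strip. Hypotheses of the proof: `S_BlkZ`, `S_BlkE`, `S_StripW`, `S_Num1`,
`S_Num2`. PROOF. `S_Num1`: `J`; for `j = g/J`, `j = g/J + 1` (`≤ 4 R`) `S_Num2` (`l = L + 1`) and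
`S_BlkZ`, `S_BlkE`: `BlkC F μ j L (Wb m R)`. `S_StripW` with `n = a^2`, `W = Wb m R`; `2 (g/J + 1) ≤ 8 R ≤
β`. `J (W + L + 1) ≤ Th m R`: `J (L+1) ≤ 4 R m`, `J W ≤ 0.65 R (10^6 m^2/R^4 + 1000 m/R + 1) ≤
10^6 m^2/R^3 + 650 m + R`. -/
def S_Band : Prop := ∀ (F : Type u) [Field F] [CharZero F] (R m a g μ β δ L : ℕ) (π : ℤ),
  10 ^ 7 ≤ R → 30 * (R + 1) ^ 2 ≤ m → 4 * R ≤ 10 * a → 10 * a ≤ 6 * R →
  32 * R ^ 2 ≤ 100 * g → 100 * g ≤ 43 * R ^ 2 → 99 * m ≤ 100 * (a * μ) → 100 * (a * μ) ≤ 310 * m →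
  2 * g = 2 * β + a ^ 2 → 8 * R ≤ β → L + 2 * g * m = δ + (m + μ) * β →
  ((m : ℤ) + μ + 1) * (L + 1) = g * (μ * (μ + 1)) + π → 20 * π ≤ m ^ 2 → -(m : ℤ) ^ 2 ≤ 20 * π →
  ((Th m R : ℤ) ≤ π → (hN F (Sf (a ^ 2) (m + μ) δ) (Multiset.replicate (2 * g) m) : ℤ) ≤ π) ∧
  (π + Th m R ≤ 0 → hN F (Sf (a ^ 2) (m + μ) δ) (Multiset.replicate (2 * g) m) = 0)

/-- NUMA: the thickness. Pure. `d = v + a τ`, `R = r + a`. `2 χ = (d+1)(d+2) - s m (m+1)`,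
`2 x = (v+1)(v+2) - r^2 m (m+1)`. PROOF. `(d+2)^2 ≥ s m (m+1) + 2 χ ≥ ((R+1) m - m/1000)^2` and
`(d+1)^2 ≤ s m (m+1) + 2 χ ≤ ((R+3)(m+1) + m/1000)^2` (`20 |χ| ≤ m^2` is tiny compared with
`R m^2/1000`); `r m - 2 ≤ v` and `v + 1 ≤ r (m+1) + 2 a` (`0 ≤ x ≤ a (v+1)`). So `a τ = d - v ≥
(R+1) m - m/1000 - r (m+1) - 2 a - 1` and `a μ = a τ - a m ≥ m - m/1000 - 3 R`, and `a μ ≤
(R+3)(m+1) + m/1000 - r m + 2 - a m ≤ 3 m + R + m/1000 + 5`. (In particular `τ ≥ m`.) -/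
def S_NumA : Prop := ∀ (R m a r s d v τ : ℕ) (x χ : ℤ), 10 ^ 7 ≤ R → 30 * (R + 1) ^ 2 ≤ m →
  4 * R ≤ 10 * a → 10 * a ≤ 6 * R → r + a = R → (R + 1) ^ 2 ≤ s → s < (R + 3) ^ 2 →
  d = v + a * τ → ((d : ℤ) + 1) * (d + 2) = s * (m * (m + 1)) + 2 * χ →
  ((v : ℤ) + 1) * (v + 2) = r ^ 2 * (m * (m + 1)) + 2 * x → 0 ≤ x → x ≤ a * (v + 1) →
  20 * χ ≤ m ^ 2 → -(m : ℤ) ^ 2 ≤ 20 * χ →
  ∃ μ : ℕ, τ = m + μ ∧ 99 * m + 100 * a ≤ 100 * (a * μ) ∧ 100 * (a * μ) ≤ 310 * m ∧ a ≤ v ∧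
    20 * (a * (v + 1)) ≤ m ^ 2 / 5 ∧ r * m ≤ v + 2

/-- LID: the identities. Pure; `linear_combination`. -/
def S_LId : Prop := ∀ (a v m μ β g h L x χ s r : ℤ), 2 * h = (a - 2) * (a - 1) →
  s = r ^ 2 + 2 * g → 2 * g = 2 * β + a ^ 2 →
  L + 2 * g * m = a * (v + a * (m + μ)) - h + (m + μ) * β →
  (v + a * (m + μ) + 1) * (v + a * (m + μ) + 2) = s * (m * (m + 1)) + 2 * χ →
  (v + 1) * (v + 2) = r ^ 2 * (m * (m + 1)) + 2 * x →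
  (m + μ + 1) * (L + 1) = g * (μ * (μ + 1)) + (a * v + 1 - h + χ - x) ∧
  (m + μ) * (L - β + 1) = g * ((μ - 1) * μ) + (χ - x)

/-- GLUES: gluing along `Y = X^a` with a GT core. PROOF. `S_GlueR` (`ShghC.mGlueR`; `(τ+1) a ≤ d` as
`a ≤ v`; `hF F v A + TT A = T (v+1)` and `hF F (v-a) A = 0` by `GT`), `ShghC.mRaise` with `n = a^2`,
`δ = a (v + a τ) - T (a-2)`, `δ - n τ + 1 = a v + 1 - T (a-2)`, `ρ = hF F v A = T (v+1) - TT A ≤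
δ - n τ + 1` (`T (v+1) - T (v+1-a) = a v + 1 - T (a-2)`), `St n τ δ 0 = Sf n (τ-1) δ`
(`closeR_St_zero`). Model: `ShghC.tCloseR`. -/
def S_GlueS : Prop := ∀ (F : Type u) [Field F] [CharZero F] (a τ v : ℕ) (A B : Multiset ℕ),
  2 ≤ a → 1 ≤ τ → a ≤ v → GT F A → TT A ≤ T (v + 1) → T (v + 1 - a) ≤ TT A →
  hF F (v + a * τ) (A + B) ≤
    max (hN F (Sf (a ^ 2) (τ - 1) (a * (v + a * τ) - T (a - 2))) B)
      (T (v + 1) - TT A + hN F (Sf (a ^ 2) τ (a * (v + a * τ) - T (a - 2))) B -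
        (a * v + 1 - T (a - 2)))

/-- ONED: one degree. Hypotheses of the proof: `S_Band`, `S_NumA`, `S_LId`, `S_GlueS`, `ShghK.S_SqGT`.
`x = T (v+1) - r^2 T m`, `χ = T (d+1) - s T m`, `cap = a v + 1 - T (a-2)`, `d = v + a τ`.
PROOF. `g = (s - r^2)/2`, `β = (s - r^2 - a^2)/2` (`s - r` even, `a` even). `0 ≤ x ≤ cap ≤ a (v+1)`
(`T (v+1) - T (v+1-a) = cap`). `S_NumA`: `τ = m + μ`. Strip `τ`: `δ = a d - T (a-2)`,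
`L = δ + (m+μ) β - 2 g m`, it is `≥ 0` by the identity `S_LId`: `(m+μ+1)(L+1) = g μ (μ+1) + π`,
`π = cap + χ - x` (`20 |π| ≤ m^2` as `25 |χ| ≤ m^2`, `100 cap ≤ m^2`; `g μ (μ+1) > m^2/20`); `S_Band`
(`100 g` from `(R+1)^2 - r^2 ≤ 2 g ≤ (R+3)^2 - r^2`, `r = R - a`; `8 R ≤ β`: `2 β ≥ (R+1)^2 - r^2 - a^2 ≥
2 r a`): if `π ≥ Th` then `hN ≤ π`, if `π ≤ - Th` then `hN = 0`. In the same way the strip `τ - 1` with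
`μ - 1`, `L - β`, `π' = χ - x` (`S_Band` for `μ - 1`). `S_GlueS` with `A = replicate (r^2) m`,
`B = replicate (2g) m`. (i): `π' ≤ -Th`, `π ≥ Th`: `hF ≤ max 0 (x + π - cap) = max 0 χ`. (ii): `π' ≥ Th`,
`π ≥ Th`: `hF ≤ max (χ - x) χ = χ`. (iii): `π', π ≤ - Th`: `hF ≤ max 0 (x - cap) = 0`. Lower bound
`χ ≤ hF`: `HFun.chi_le`. -/
def S_OneD : Prop := ∀ (F : Type u) [Field F] [CharZero F] (R m a r s v τ : ℕ) (χ : ℤ),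
  10 ^ 7 ≤ R → 30 * (R + 1) ^ 2 ≤ m → 4 * R ≤ 10 * a → 10 * a ≤ 6 * R → r + a = R →
  (R + 1) ^ 2 ≤ s → s < (R + 3) ^ 2 → Even a → Even (s + r) →
  r ^ 2 * T m ≤ T (v + 1) → T (v + 1 - a) ≤ r ^ 2 * T m →
  χ = (T (v + a * τ + 1) : ℤ) - s * T m → 25 * χ ≤ m ^ 2 → -(m : ℤ) ^ 2 ≤ 25 * χ →
  ((T (v + 1) : ℤ) - r ^ 2 * T m + Th m R ≤ a * v + 1 - T (a - 2) + χ ∧
      χ + Th m R ≤ (T (v + 1) : ℤ) - r ^ 2 * T m) ∨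
    ((a : ℤ) * v + 1 - T (a - 2) + Th m R ≤ χ) ∨
    (χ + ((a : ℤ) * v + 1 - T (a - 2)) + Th m R ≤ 0) →
  hF F (v + a * τ) (Multiset.replicate s m) = T (v + a * τ + 1) - s * T m

/-- AL5: the alignment. Pure. PROOF. Let `A0` be the least even number with `4 R ≤ 10 A0`
(`A0 ≤ 0.4 R + 2`). For `H ≥ 1` let `a_i = A0 + 2 H i`, `i = 0, .., 5`. FIFTH DIFFERENCE of
`v_i = G / a_i + 1/2`: `∑_i (-1)^i C(5,i) v_i = 120 G (2H)^5 / (a_0 a_1 a_2 a_3 a_4 a_5) =: D(H) > 0`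
(exact identity, `field_simp; ring`). Let `H` be the largest number `≤ R / 60` with `2 D(H) ≤ 1`:
`H ≥ 60` because `D(60) ≤ 120 * 4 m * 120^5 / (0.4 R)^6 ≤ 5.9*10^5 / R ≤ 1/2` (`m ≤ 2*10^(-10) R^5`), and
`D(R/60) > 1/2` (`G ≥ m/2 ≥ 15 R^2`, all `a_i ≤ 0.57 R`, `2 H ≥ R/30 - 2`: the value is at least
`0.001 R`), so `D(H+1) > 1/2`, and `D(H) ≥ (60/61)^5 D(H+1) ≥ 0.46` (`D(H+1)/D(H) ≤ ((H+1)/H)^5`). If
every `v_i` had distance `< 1/80` to an integer `z_i` then `D(H) ∈ [0.46, 0.5]` would have distance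
`< 32/80 = 0.4` to the integer `∑ (-1)^i C(5,i) z_i`, a contradiction. So for some `a = a_i` the number
`G / a + 1/2 = (G + a/2)/a` has distance `≥ 1/80` to the integers, that is the claim for
`p = (G + a/2) % a` (`v_i = z + p/a`, `z = (G + a/2) / a` rounded down). `10 a ≤ 6 R`:
`a ≤ 0.4 R + 2 + R/6`. -/
def S_Al5 : Prop := ∀ R m G : ℕ, 10 ^ 7 ≤ R → 30 * (R + 1) ^ 2 ≤ m → 10 ^ 10 * m ≤ 2 * R ^ 5 →
  m ≤ 2 * G → G ≤ 4 * m →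
  ∃ a, Even a ∧ 4 * R ≤ 10 * a ∧ 10 * a ≤ 6 * R ∧
    a ≤ 80 * ((G + a / 2) % a) ∧ 80 * ((G + a / 2) % a) + a ≤ 80 * a

/-- FINA: the theorem (a). Hypotheses of the proof: `S_OneD`, `S_Al5`, `ShghK.S_Hom23`. PROOF.
`s ≥ 30 m`: `ShghC.mHom`; `10^11 m^2 ≤ s^3`: `S_Hom23`. Otherwise `10^11 m^2 > s^3 ≥ 10^14 s^2`, so
`m > 31 s`. `R` with `R + s` even and `(R+1)^2 ≤ s < (R+3)^2` (`N = Nat.sqrt s`, `R = N - 1` or `N - 2`,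
`R ≥ 10^7`); `30 (R+1)^2 ≤ 30 s ≤ m`; `10^10 m ≤ (R+3)^5 ≤ 2 R^5` (`10^20 m^2 ≤ s^5 < (R+3)^10`). It
suffices to treat the two degrees `d = d0` (the least with `χ(d) ≥ 0`) and `d = d0 - 1`, where
`-(d+2) ≤ χ ≤ d + 1` (`hF_exact_mono`; monotonicity of `hF`; `HFun.chi_le`). `u_c` = the least degree
with `T (u_c + 1) ≥ r^2 T m`: `2 u_c + 3 = r (2m+1) + ε`, `ε = 0` for odd `r`, `ε = 1` for even `r`
(`8 T (u+1) + 1 = (2u+3)^2`, `8 r^2 T m + r^2 = r^2 (2m+1)^2`, `r ≤ m`; see `S_SqGT`).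
`G = d - u_c - (m a + a/2)` does not depend on the even number `a = R - r`:
`2 G = 2 d + 3 - ε - R (2m+1)` (`ε` depends on the parity of `r ≡ R`; so define `G` by this formula).
`m ≤ 2 G`, `G ≤ 4 m` (`(2d+3)^2 = s (2m+1)^2 - s + 8 χ + 1`). `S_Al5`: `a`, `r = R - a`,
`p = (G + a/2) % a`, `v = u_c + p`, `d - v = m a + a/2 + G - p` is divisible by `a`, `= a τ`.
`x = T (v+1) - r^2 T m ≥ p (u_c + 1) ≥ (a/80)(u_c+1)`, `cap - x = r^2 T m - T (v+1-a) ≥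
(a - p - 1)(v + 1 - a) ≥ (a/80 - 1)(v + 1 - a)` (`T (u_c) < r^2 T m`, `v + 1 - a ≤ u_c`,
`u_c ≥ r m - 2`). `S_OneD`, first alternative: `x, cap - x ≥ 0.002 R^2 m` (`a r ≥ 0.24 R^2`), and
`|χ| + Th m R ≤ 2 R m + 0.0002 R^2 m + 20 R m ≤ 0.001 R^2 m`. -/
def S_FinA : Prop := ∀ (F : Type u) [Field F] [CharZero F] (d m s : ℕ), 1 ≤ m →
  10 ^ 14 + 10 ^ 8 ≤ s → 10 ^ 20 * m ^ 2 ≤ s ^ 5 →
  hF F d (Multiset.replicate s m) = T (d + 1) - s * T m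

/-- FINB: the windows (b). Hypotheses of the proof: `S_OneD`, `ShghK.S_Hom23`. PROOF. `s ≥ 30 m` or
`10^11 m^2 ≤ s^3`: exact. Otherwise `m > 31 s`, `R` as in `S_FinA`, `a` = the largest even number
`≤ R/2`, `r = R - a`; `cap + Th m R ≤ w` with `w = (2*10^6 m^2 + N^5 m)/N^3` (real number;
`cap ≤ a (v+1) ≤ 0.26 R^2 m`). `χ ≥ w`: let `d1` be the least degree with `χ(d1) ≥ w`; it is enough to
treat `d = d1` (`hF_exact_mono`), and `w ≤ χ(d1) < w + d1 + 1 ≤ m^2/25` (`N^2 ≤ s ≤ m/31`). `v` = the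
number in `[u_c, u_c + a)` with `v ≡ d (mod a)`: `S_OneD`, second alternative. `χ ≤ - w`: let `d1` be
the largest degree with `χ(d1) ≤ - w`; `χ(d1) > - w - (d1 + 2)`, third alternative; smaller degrees by
monotonicity. -/
def S_FinB : Prop := ∀ (F : Type u) [Field F] [CharZero F] (d m s N : ℕ), 1 ≤ m →
  10 ^ 14 + 10 ^ 8 ≤ s → N ^ 2 ≤ s → s < (N + 1) ^ 2 →
  2 * 10 ^ 6 * (m : ℤ) ^ 2 + N ^ 5 * m ≤ N ^ 3 * |(T (d + 1) : ℤ) - s * T m| →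
  hF F d (Multiset.replicate s m) = T (d + 1) - s * T m

end ShghPS
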